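import Pool.Agent.TH268.CC.Stm
import Pool.Agent.W975.CB.Ms
import Pool.Agent.W366.CB.Lam
import Pool.Agent.W338.CB.Ad
import Pool.Agent.W417.CB.Ebc

/-!
# Adding a uniformly distributed particle
-/

set_option autoImplicit false

open MeasureTheory
open scoped ENNReal

namespace Pool.Agent.TH268.CC

open Pool.Agent.W761.CB

noncomputable section

namespace AddP

open Pool.Agent.W338.CB (asum asum_cons ms_cs)

/-! ### Sums over the ways to take one particle away -/

section alg
variable {X : Type}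

/-- the sum of `g` over all ways to take one particle away -/
def os {R : Type*} [AddCommMonoid R] (g : Multiset X → R) (S : Multiset X) : R :=
  asum (fun A B => if Multiset.card A = 1 then g B else 0) S

/-- the decompositions with empty first part -/
def zs {R : Type*} [AddCommMonoid R] (g : Multiset X → R) (S : Multiset X) : R :=
  asum (fun A B => if Multiset.card A = 0 then g B else 0) S

theorem asum_add {R : Type*} [AddCommMonoid R] (h k : Multiset X → Multiset X → R)
    (S : Multiset X) : asum (fun A B => h A B + k A B) S = asum h S + asum k S := by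
  unfold asum
  exact Multiset.sum_map_add

theorem asum_zero {R : Type*} [AddCommMonoid R] (S : Multiset X) :
    asum (fun _ _ => (0 : R)) S = 0 := by
  unfold asum
  simp

theorem zs_eq {R : Type*} [AddCommMonoid R] (S : Multiset X) :
    ∀ g : Multiset X → R, zs g S = g S := by
  induction S using Multiset.induction with
  | empty => intro g; simp [zs, asum]
  | cons a S ih =>
    intro g
    have h1 : zs g (a ::ₘ S) = zs (fun B => g (a ::ₘ B)) S := by
      unfold zs
      rw [asum_cons]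
      congr 1
      funext A B
      simp
    rw [h1, ih]

theorem os_zero {R : Type*} [AddCommMonoid R] (g : Multiset X → R) : os g 0 = 0 := by
  simp [os, asum]

theorem os_cons {R : Type*} [AddCommMonoid R] (g : Multiset X → R) (a : X) (S : Multiset X) :
    os g (a ::ₘ S) = g S + os (fun B => g (a ::ₘ B)) S := by
  have h1 : os g (a ::ₘ S) = os (fun B => g (a ::ₘ B)) S + zs g S := by
    have e : (fun A B => if Multiset.card (a ::ₘ A) = 1 then g B else 0) =
        (fun (A B : Multiset X) => if Multiset.card A = 0 then g B else 0) := by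
      funext A B
      rw [Multiset.card_cons]
      exact if_congr (by omega) rfl rfl
    unfold os zs
    rw [asum_cons, asum_add, e]
  rw [h1, zs_eq, add_comm]

theorem os_nonneg (S : Multiset X) : ∀ g : Multiset X → ℝ, (∀ B, 0 ≤ g B) → 0 ≤ os g S := by
  induction S using Multiset.induction with
  | empty => intro g _; rw [os_zero]
  | cons a S ih =>
    intro g hg
    rw [os_cons]
    exact add_nonneg (hg _) (ih _ fun B => hg _)

theorem os_ofReal (S : Multiset X) : ∀ g : Multiset X → ℝ, (∀ B, 0 ≤ g B) →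
    ENNReal.ofReal (os g S) = os (fun B => ENNReal.ofReal (g B)) S := by
  induction S using Multiset.induction with
  | empty => intro g _; rw [os_zero, os_zero, ENNReal.ofReal_zero]
  | cons a S ih =>
    intro g hg
    rw [os_cons, os_cons, ENNReal.ofReal_add (hg _) (os_nonneg _ _ fun B => hg _),
      ih _ fun B => hg _]

theorem two_lip (P Q a b : ℝ) :
    (√(P ^ 2 + a ^ 2) - √(Q ^ 2 + b ^ 2)) ^ 2 ≤ (P - Q) ^ 2 + (a - b) ^ 2 := by
  have h1 : (√(P ^ 2 + a ^ 2)) ^ 2 = P ^ 2 + a ^ 2 := Real.sq_sqrt (by positivity)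
  have h2 : (√(Q ^ 2 + b ^ 2)) ^ 2 = Q ^ 2 + b ^ 2 := Real.sq_sqrt (by positivity)
  have h3 : P * Q + a * b ≤ √(P ^ 2 + a ^ 2) * √(Q ^ 2 + b ^ 2) := by
    rw [← Real.sqrt_mul (by positivity)]
    apply Real.le_sqrt_of_sq_le
    nlinarith [sq_nonneg (P * b - a * Q)]
  nlinarith [h1, h2, h3]

theorem os_lip (S : Multiset X) : ∀ (P Q : ℝ) (a b : Multiset X → ℝ),
    (√(P ^ 2 + os (fun B => a B ^ 2) S) - √(Q ^ 2 + os (fun B => b B ^ 2) S)) ^ 2 ≤
      (P - Q) ^ 2 + os (fun B => (a B - b B) ^ 2) S := by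
  induction S using Multiset.induction with
  | empty =>
    intro P Q a b
    rw [os_zero, os_zero, os_zero]
    have := two_lip P Q 0 0
    simpa using this
  | cons x S ih =>
    intro P Q a b
    rw [os_cons, os_cons, os_cons]
    have h1 := ih (√(P ^ 2 + a S ^ 2)) (√(Q ^ 2 + b S ^ 2)) (fun B => a (x ::ₘ B))
      (fun B => b (x ::ₘ B))
    rw [Real.sq_sqrt (by positivity), Real.sq_sqrt (by positivity)] at h1
    have h2 := two_lip P Q (a S) (b S)
    have e1 : P ^ 2 + (a S ^ 2 + os (fun B => a (x ::ₘ B) ^ 2) S) =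
        P ^ 2 + a S ^ 2 + os (fun B => a (x ::ₘ B) ^ 2) S := by ring
    have e2 : Q ^ 2 + (b S ^ 2 + os (fun B => b (x ::ₘ B) ^ 2) S) =
        Q ^ 2 + b S ^ 2 + os (fun B => b (x ::ₘ B) ^ 2) S := by ring
    rw [e1, e2]
    linarith

theorem os_le (S : Multiset X) : ∀ (g : Multiset X → ℝ) (K c : ℝ), 0 ≤ K → 1 ≤ c →
    (∀ B, g B ≤ K * c ^ Multiset.card B) →
    os g S ≤ K * (Multiset.card S) * c ^ Multiset.card S := by
  induction S using Multiset.induction with
  | empty => intro g K c _ _ _; rw [os_zero]; simp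
  | cons a S ih =>
    intro g K c hK hc hg
    rw [os_cons, Multiset.card_cons]
    have h1 := hg S
    have h2 := ih (fun B => g (a ::ₘ B)) (K * c) c (by positivity) hc (fun B => by
      have := hg (a ::ₘ B)
      rw [Multiset.card_cons, pow_succ] at this
      linarith)
    have h3 : c ^ Multiset.card S ≤ c ^ (Multiset.card S + 1) :=
      pow_le_pow_right₀ hc (Nat.le_succ _)
    have h4 : K * c ^ Multiset.card S ≤ K * c ^ (Multiset.card S + 1) :=
      mul_le_mul_of_nonneg_left h3 hK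
    calc g S + os (fun B => g (a ::ₘ B)) S ≤
          K * c ^ (Multiset.card S + 1) + K * c * (Multiset.card S) * c ^ Multiset.card S := by
          linarith
      _ = K * ((Multiset.card S + 1 : ℕ) : ℝ) * c ^ (Multiset.card S + 1) := by
          push_cast
          ring

theorem os_supp {R : Type*} [AddCommMonoid R] (g : Multiset X → R) (k : ℕ)
    (hg : ∀ B, Multiset.card B ≠ k → g B = 0) (S : Multiset X)
    (hS : Multiset.card S ≠ k + 1) : os g S = 0 := by
  unfold os asum
  apply Multiset.sum_eq_zero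
  intro r hr
  obtain ⟨⟨A, B⟩, hAB, rfl⟩ := Multiset.mem_map.mp hr
  rw [Multiset.mem_antidiagonal] at hAB
  simp only at hAB ⊢
  split_ifs with h1
  · apply hg
    intro h2
    apply hS
    rw [← hAB, Multiset.card_add, h1, h2, add_comm]
  · rfl

end alg

/-! ### Integrals -/

section int
variable {X : Type}

theorem card_ms (γ : Cf X) : Multiset.card (ms γ) = γ.1 := by simp [ms]

variable [MeasurableSpace X] (ν : Measure X) [IsFiniteMeasure ν]

theorem meas_card : Measurable fun γ : Cf X => Multiset.card (ms γ) := by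
  obtain ⟨-, -, -, -, h5, -⟩ := Pool.Agent.W975.CB.proof_ms X
  have h := (h5 Unit (fun _ _ => 1) measurable_const).comp
    (f := fun γ : Cf X => ((), γ)) (measurable_const.prodMk measurable_id)
  have h' : Measurable fun γ : Cf X => ((Multiset.card (ms γ) : ℕ) : ℝ≥0∞) := by
    convert h using 2 with γ
    simp
  have h2 := h'.ennreal_toReal
  have h3 : Measurable fun γ : Cf X => ⌊((Multiset.card (ms γ) : ℝ≥0∞)).toReal⌋₊ := h2.nat_floor
  convert h3 using 2 with γ
  simp

theorem lint_one (c : ℝ≥0∞) :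
    ∫⁻ γ, (if Multiset.card (ms γ) = 1 then c else 0) ∂(lam ν) = c * ν Set.univ := by
  obtain ⟨h1, -⟩ := Pool.Agent.W366.CB.proof_lam Pool.Agent.W975.CB.proof_ms X ν
  have hm : Measurable fun γ : Cf X => (if Multiset.card (ms γ) = 1 then c else 0) :=
    Measurable.ite (meas_card (measurableSet_singleton 1)) measurable_const measurable_const
  rw [h1 _ hm]
  rw [tsum_eq_single 1]
  · simp only [card_ms, if_true, lintegral_const]
    rw [Measure.pi_univ]
    simp
  · intro N hN
    simp only [card_ms, if_neg hN]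
    simp

theorem meas_asum (h : Multiset X → Multiset X → ℝ≥0∞)
    (hh : Measurable fun p : Cf X × Cf X => h (ms p.1) (ms p.2)) :
    Measurable fun γ : Cf X => asum h (ms γ) := by
  obtain ⟨-, -, -, -, -, -, h7⟩ := Pool.Agent.W975.CB.proof_ms X
  exact (h7 Unit (fun _ => h) (hh.comp measurable_snd)).comp
    (f := fun γ : Cf X => ((), γ)) (measurable_const.prodMk measurable_id)

theorem meas_pair {g : Multiset X → ℝ≥0∞} (hg : Measurable fun γ : Cf X => g (ms γ)) :
    Measurable fun p : Cf X × Cf X =>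
      (fun A B => if Multiset.card A = 1 then g B else 0) (ms p.1) (ms p.2) :=
  Measurable.ite ((meas_card.comp measurable_fst) (measurableSet_singleton 1))
    (hg.comp measurable_snd) measurable_const

theorem meas_os {g : Multiset X → ℝ≥0∞} (hg : Measurable fun γ : Cf X => g (ms γ)) :
    Measurable fun γ : Cf X => os g (ms γ) :=
  meas_asum _ (meas_pair hg)

theorem lint_os {g : Multiset X → ℝ≥0∞} (hg : Measurable fun γ : Cf X => g (ms γ)) :
    ∫⁻ γ, os g (ms γ) ∂(lam ν) = ν Set.univ * ∫⁻ γ, g (ms γ) ∂(lam ν) := by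
  have h0 := (Pool.Agent.W338.CB.proof_ad Pool.Agent.W975.CB.proof_ms
    (Pool.Agent.W366.CB.proof_lam Pool.Agent.W975.CB.proof_ms) X ν).1
      (fun A B => if Multiset.card A = 1 then g B else 0) (meas_pair hg)
  have h1 : ∫⁻ γ, os g (ms γ) ∂(lam ν) = ∫⁻ γ, ∫⁻ γ', (if Multiset.card (ms γ) = 1
      then g (ms γ') else 0) ∂(lam ν) ∂(lam ν) := h0
  rw [h1]
  have h2 : ∀ γ : Cf X, ∫⁻ γ', (if Multiset.card (ms γ) = 1 then g (ms γ') else 0) ∂(lam ν) =
      if Multiset.card (ms γ) = 1 then ∫⁻ γ', g (ms γ') ∂(lam ν) else 0 := by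
    intro γ
    split_ifs with h
    · rfl
    · simp
  simp_rw [h2]
  rw [lint_one, mul_comm]

end int

/-! ### The vector with one more particle -/

section vec
variable {X : Type}

/-- one more particle, uniformly distributed in a space of volume `V` -/
def GG (V : ℝ) (F : Multiset X → ℂ) (S : Multiset X) : ℂ :=
  ((√(V⁻¹ * os (fun B => ‖F B‖ ^ 2) S) : ℝ) : ℂ)

theorem en_real {t : ℝ} (ht : 0 ≤ t) : ‖((√t : ℝ) : ℂ)‖ₑ ^ 2 = ENNReal.ofReal t := by
  rw [← ofReal_norm, Complex.norm_real, Real.norm_eq_abs, abs_of_nonneg (Real.sqrt_nonneg t),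
    ← ENNReal.ofReal_pow (Real.sqrt_nonneg t), Real.sq_sqrt ht]

theorem en_sq (z : ℂ) : ‖z‖ₑ ^ 2 = ENNReal.ofReal (‖z‖ ^ 2) := by
  rw [← ofReal_norm, ENNReal.ofReal_pow (norm_nonneg z)]

theorem os_en (F : Multiset X → ℂ) (S : Multiset X) :
    ENNReal.ofReal (os (fun B => ‖F B‖ ^ 2) S) = os (fun B => ‖F B‖ₑ ^ 2) S := by
  rw [os_ofReal S _ fun B => by positivity]
  congr 1
  funext B
  rw [en_sq]

theorem GG_en {V : ℝ} (hV : 0 < V) (F : Multiset X → ℂ) (S : Multiset X) :
    ‖GG V F S‖ₑ ^ 2 = ENNReal.ofReal V⁻¹ * os (fun B => ‖F B‖ₑ ^ 2) S := by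
  have h1 : 0 ≤ os (fun B => ‖F B‖ ^ 2) S := os_nonneg S _ fun B => by positivity
  unfold GG
  rw [en_real (by positivity), ENNReal.ofReal_mul (by positivity), os_en]

theorem GG_lip {V : ℝ} (hV : 0 < V) (F : Multiset X → ℂ) (x y : X) (S : Multiset X) :
    ‖GG V F (x ::ₘ S) - GG V F (y ::ₘ S)‖ₑ ^ 2 ≤
      ENNReal.ofReal V⁻¹ * os (fun B => ‖F (x ::ₘ B) - F (y ::ₘ B)‖ₑ ^ 2) S := by
  have h0 : ∀ z, os (fun B => ‖F B‖ ^ 2) (z ::ₘ S) =
      ‖F S‖ ^ 2 + os (fun B => ‖F (z ::ₘ B)‖ ^ 2) S := fun z => os_cons _ z S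
  have h1 := os_lip S ‖F S‖ ‖F S‖ (fun B => ‖F (x ::ₘ B)‖) (fun B => ‖F (y ::ₘ B)‖)
  rw [sub_self] at h1
  have h2 : os (fun B => (‖F (x ::ₘ B)‖ - ‖F (y ::ₘ B)‖) ^ 2) S ≤
      os (fun B => ‖F (x ::ₘ B) - F (y ::ₘ B)‖ ^ 2) S := by
    have key : ∀ (T : Multiset X) (a b : Multiset X → ℝ), (∀ B, a B ≤ b B) → os a T ≤ os b T := by
      intro T
      induction T using Multiset.induction with
      | empty => intro a b _; rw [os_zero, os_zero]
      | cons z T ih =>
        intro a b hab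
        rw [os_cons, os_cons]
        exact add_le_add (hab _) (ih _ _ fun B => hab _)
    apply key
    intro B
    have h3 := abs_norm_sub_norm_le (F (x ::ₘ B)) (F (y ::ₘ B))
    rw [← sq_abs]
    exact pow_le_pow_left₀ (abs_nonneg _) h3 2
  have h3 : ‖GG V F (x ::ₘ S) - GG V F (y ::ₘ S)‖ ^ 2 ≤
      V⁻¹ * os (fun B => ‖F (x ::ₘ B) - F (y ::ₘ B)‖ ^ 2) S := by
    unfold GG
    rw [← Complex.ofReal_sub, Complex.norm_real, Real.norm_eq_abs, sq_abs, h0 x, h0 y,
      Real.sqrt_mul (by positivity), Real.sqrt_mul (by positivity), ← mul_sub, mul_pow,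
      Real.sq_sqrt (by positivity)]
    refine mul_le_mul_of_nonneg_left ?_ (by positivity)
    linarith
  rw [en_sq]
  refine (ENNReal.ofReal_le_ofReal h3).trans ?_
  rw [ENNReal.ofReal_mul (by positivity)]
  refine mul_le_mul_right ?_ _
  exact (os_en (fun B => F (x ::ₘ B) - F (y ::ₘ B)) S).le

theorem GG_supp {V : ℝ} {F : Multiset X → ℂ} {k : ℕ}
    (hF : ∀ S, Multiset.card S ≠ k → F S = 0) (S : Multiset X)
    (hS : Multiset.card S ≠ k + 1) : GG V F S = 0 := by
  unfold GG
  rw [os_supp _ k (fun B hB => by rw [hF B hB]; simp) S hS]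
  simp

theorem GG_EB [MeasurableSpace X] {V : ℝ} (hV : 0 < V) {F : Multiset X → ℂ} (hF : EB F) :
    EB (GG V F) := by
  constructor
  · have h1 : Measurable fun γ : Cf X => os (fun B => ‖F B‖ₑ ^ 2) (ms γ) :=
      meas_os (hF.meas.enorm.pow_const 2)
    have h2 : Measurable fun γ : Cf X => os (fun B => ‖F B‖ ^ 2) (ms γ) := by
      have h3 := h1.ennreal_toReal
      convert h3 using 2 with γ
      rw [← os_en, ENNReal.toReal_ofReal (os_nonneg _ _ fun B => by positivity)]
    exact (Complex.measurable_ofReal.comp (h2.const_mul V⁻¹).sqrt)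
  · obtain ⟨C, c, hC, hc, hb⟩ := hF.bdd
    refine ⟨√(V⁻¹) * C, 2 * c, by positivity, by linarith, fun S => ?_⟩
    have h1 : os (fun B => ‖F B‖ ^ 2) S ≤
        C ^ 2 * (Multiset.card S) * (c ^ 2) ^ Multiset.card S := by
      apply os_le S _ (C ^ 2) (c ^ 2) (by positivity) (by nlinarith)
      intro B
      have := hb B
      calc ‖F B‖ ^ 2 ≤ (C * c ^ Multiset.card B) ^ 2 :=
            pow_le_pow_left₀ (norm_nonneg _) this 2
        _ = C ^ 2 * (c ^ 2) ^ Multiset.card B := by rw [mul_pow, ← pow_mul, ← pow_mul, mul_comm 2]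
    have h2 : ((Multiset.card S : ℕ) : ℝ) ≤ (2 ^ Multiset.card S) ^ 2 := by
      have h3 : ((Multiset.card S : ℕ) : ℝ) ≤ 2 ^ Multiset.card S := by
        exact_mod_cast Nat.lt_two_pow_self.le
      have h4 : (1 : ℝ) ≤ 2 ^ Multiset.card S := one_le_pow₀ (by norm_num)
      nlinarith
    have h5 : os (fun B => ‖F B‖ ^ 2) S ≤ (C * (2 * c) ^ Multiset.card S) ^ 2 := by
      refine h1.trans ?_
      have e : (C * (2 * c) ^ Multiset.card S) ^ 2 =
          C ^ 2 * (2 ^ Multiset.card S) ^ 2 * (c ^ 2) ^ Multiset.card S := by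
        rw [mul_pow, mul_pow 2 c, mul_pow, ← pow_mul c, ← pow_mul c, mul_comm 2]
        ring
      rw [e]
      have : (0 : ℝ) ≤ (c ^ 2) ^ Multiset.card S := by positivity
      exact mul_le_mul_of_nonneg_right (mul_le_mul_of_nonneg_left h2 (by positivity)) this
    unfold GG
    rw [Complex.norm_real, Real.norm_eq_abs, abs_of_nonneg (Real.sqrt_nonneg _),
      Real.sqrt_mul (by positivity), mul_assoc]
    refine mul_le_mul_of_nonneg_left ?_ (Real.sqrt_nonneg _)
    exact Real.sqrt_le_iff.mpr ⟨by positivity, h5⟩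

end vec

section vec2
variable {X : Type} [MeasurableSpace X] (ν : Measure X) [IsFiniteMeasure ν]

theorem en_meas {F : Multiset X → ℂ} (hF : EB F) :
    Measurable fun γ : Cf X => ‖F (ms γ)‖ₑ ^ 2 := hF.meas.enorm.pow_const 2

omit [MeasurableSpace X] in
theorem ebcAll : S_EBC := Pool.Agent.W417.CB.proof_ebc Pool.Agent.W975.CB.proof_ms
    (Pool.Agent.W366.CB.proof_lam Pool.Agent.W975.CB.proof_ms)

theorem nE_GG {V : ℝ} (hV : 0 < V) (hν : ν Set.univ = ENNReal.ofReal V)
    {F : Multiset X → ℂ} (hF : EB F) : nE ν (GG V F) = nE ν F := by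
  unfold nE
  simp_rw [GG_en hV]
  rw [lintegral_const_mul _ (meas_os (en_meas hF)), lint_os ν (en_meas hF), ← mul_assoc, hν,
    ← ENNReal.ofReal_mul (by positivity), inv_mul_cancel₀ hV.ne', ENNReal.ofReal_one, one_mul]

theorem dE_GG {V : ℝ} (hV : 0 < V) (hν : ν Set.univ = ENNReal.ofReal V)
    {F : Multiset X → ℂ} (hF : EB F) (x y : X) : dE ν (GG V F) x y ≤ dE ν F x y := by
  obtain ⟨h1, -, h2, -⟩ := ebcAll X ν F F hF hF
  have hx : EB (fun S => F (x ::ₘ S) - F (y ::ₘ S)) := by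
    obtain ⟨-, -, h3, -⟩ := ebcAll X ν _ _ (h1 x) (h1 y)
    have := h3 1 (-1)
    convert this using 2
    simp [an, sub_eq_add_neg]
  unfold dE nE
  calc ∫⁻ γ, ‖GG V F (x ::ₘ ms γ) - GG V F (y ::ₘ ms γ)‖ₑ ^ 2 ∂(lam ν)
      ≤ ∫⁻ γ, ENNReal.ofReal V⁻¹ *
          os (fun B => ‖F (x ::ₘ B) - F (y ::ₘ B)‖ₑ ^ 2) (ms γ) ∂(lam ν) :=
        lintegral_mono fun γ => GG_lip hV F x y (ms γ)
    _ = ∫⁻ γ, ‖F (x ::ₘ ms γ) - F (y ::ₘ ms γ)‖ₑ ^ 2 ∂(lam ν) := by
        rw [lintegral_const_mul _ (meas_os (en_meas hx)), lint_os ν (en_meas hx), ← mul_assoc, hν,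
          ← ENNReal.ofReal_mul (by positivity), inv_mul_cancel₀ hV.ne', ENNReal.ofReal_one,
          one_mul]

theorem pair_GG {V : ℝ} (hV : 0 < V) (hν : ν Set.univ = ENNReal.ofReal V)
    {F : Multiset X → ℂ} (hF : EB F) (x y : X) :
    nE ν (an y (an x (GG V F))) =
      ENNReal.ofReal V⁻¹ * (nE ν (an x F) + nE ν (an y F)) + nE ν (an y (an x F)) := by
  obtain ⟨h1, -⟩ := ebcAll X ν F F hF hF
  obtain ⟨h2, -⟩ := ebcAll X ν _ _ (h1 x) (h1 x)
  have e1 : ∀ S, os (fun B => ‖F B‖ₑ ^ 2) (x ::ₘ y ::ₘ S) =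
      ‖F (y ::ₘ S)‖ₑ ^ 2 + (‖F (x ::ₘ S)‖ₑ ^ 2 + os (fun B => ‖F (x ::ₘ y ::ₘ B)‖ₑ ^ 2) S) := by
    intro S
    rw [os_cons, os_cons]
  have m1 : Measurable fun γ : Cf X => ‖F (y ::ₘ ms γ)‖ₑ ^ 2 := en_meas (h1 y)
  have m2 : Measurable fun γ : Cf X => ‖F (x ::ₘ ms γ)‖ₑ ^ 2 := en_meas (h1 x)
  have m3 : Measurable fun γ : Cf X => ‖F (x ::ₘ y ::ₘ ms γ)‖ₑ ^ 2 := en_meas (h2 y)
  have m4 : Measurable fun γ : Cf X => os (fun B => ‖F (x ::ₘ y ::ₘ B)‖ₑ ^ 2) (ms γ) :=
    meas_os (g := fun B => ‖F (x ::ₘ y ::ₘ B)‖ₑ ^ 2) m3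
  have e2 : nE ν (an y (an x (GG V F))) = ∫⁻ γ, ENNReal.ofReal V⁻¹ *
      (‖F (y ::ₘ ms γ)‖ₑ ^ 2 + (‖F (x ::ₘ ms γ)‖ₑ ^ 2 +
        os (fun B => ‖F (x ::ₘ y ::ₘ B)‖ₑ ^ 2) (ms γ))) ∂(lam ν) := by
    unfold nE an
    refine lintegral_congr fun γ => ?_
    rw [GG_en hV, e1]
  have m5 : Measurable fun γ : Cf X => (‖F (y ::ₘ ms γ)‖ₑ ^ 2 + (‖F (x ::ₘ ms γ)‖ₑ ^ 2 +
      os (fun B => ‖F (x ::ₘ y ::ₘ B)‖ₑ ^ 2) (ms γ))) := m1.add (m2.add m4)
  rw [e2, lintegral_const_mul _ m5, lintegral_add_left m1,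
    lintegral_add_left m2, lint_os ν (g := fun B => ‖F (x ::ₘ y ::ₘ B)‖ₑ ^ 2) m3, hν,
    mul_add, mul_add, ← mul_assoc (ENNReal.ofReal V⁻¹) (ENNReal.ofReal V),
    ← ENNReal.ofReal_mul (by positivity), inv_mul_cancel₀ hV.ne', ENNReal.ofReal_one, one_mul]
  unfold nE an
  rw [mul_add]
  ring

end vec2

end AddP

open AddP in
theorem add_one (hTF : S_TF) : S_ADD := by
  intro n L v₁ _ μ K v hK hv hv₁ hvb F hF
  have hL : 0 < L := Fact.out
  have hV : 0 < L ^ n := pow_pos hL n
  obtain ⟨t1, t2, t3, t4, t5, t6, t7, t8⟩ := hTF n L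
  have hE := GG_EB (V := L ^ n) hV hF
  refine ⟨GG (L ^ n) F, hE, fun k hk S hS => GG_supp hk S hS, nE_GG volume hV t1 hF, ?_⟩
  have hd : ∀ x y : Tor n L, dE volume (GG (L ^ n) F) x y ≤ dE volume F x y :=
    fun x y => dE_GG volume hV t1 hF x y
  have hKp : Kp (GG (L ^ n) F) ≤ Kp F := by
    unfold Kp
    refine Finset.sum_le_sum fun c _ => iSup_mono fun k => ?_
    gcongr
    exact hd _ _
  have hHp : Hp K (GG (L ^ n) F) ≤ Hp K F := by
    unfold Hp
    gcongr
    exact hd _ _
  have hmx : Measurable fun x : Tor n L => nE volume (an x F) := by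
    obtain ⟨-, -, -, -, -, -, -, -, h9, -⟩ := ebcAll (Tor n L) volume F F hF hF
    exact h9
  have hmv : Measurable (fun p : Tor n L × Tor n L => v (tdist p.1 p.2)) := (t8 v hv).1
  have hvx : ∀ x : Tor n L, ∫⁻ y, v (tdist x y) ≤ ENNReal.ofReal v₁ :=
    fun x => ((t8 v hv).2 x).trans hvb
  have hsym : ∀ x y : Tor n L, tdist x y = tdist y x := by
    intro x y
    unfold tdist
    congr 1
    refine Finset.sum_congr rfl fun c _ => ?_
    rw [← norm_neg, neg_sub]
  have hmp : Measurable (fun p : Tor n L × Tor n L => nE volume (an p.2 (an p.1 F))) := by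
    obtain ⟨-, -, -, -, -, -, -, -, -, -, h11, -⟩ := ebcAll (Tor n L) volume F F hF hF
    exact h11
  have hVp : Vp v (GG (L ^ n) F) ≤ Vp v F + ENNReal.ofReal (v₁ / L ^ n) * nuE volume F := by
    have e1 : ∀ x y : Tor n L, v (tdist x y) * nE volume (an y (an x (GG (L ^ n) F))) =
        ENNReal.ofReal (L ^ n)⁻¹ * (v (tdist x y) * nE volume (an x F)) +
          (ENNReal.ofReal (L ^ n)⁻¹ * (v (tdist x y) * nE volume (an y F)) +
          v (tdist x y) * nE volume (an y (an x F))) := by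
      intro x y
      rw [pair_GG volume hV t1 hF x y]
      ring
    have b1 : ∫⁻ x : Tor n L, ∫⁻ y : Tor n L, v (tdist x y) * nE volume (an x F) ≤
        ENNReal.ofReal v₁ * nuE volume F := by
      unfold nuE
      rw [← lintegral_const_mul _ hmx]
      refine lintegral_mono fun x => ?_
      have hm1 : Measurable fun y : Tor n L => v (tdist x y) :=
        hmv.comp (f := fun y => (x, y)) (measurable_const.prodMk measurable_id)
      rw [lintegral_mul_const _ hm1]
      gcongr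
      exact hvx x
    have b2 : ∫⁻ x : Tor n L, ∫⁻ y : Tor n L, v (tdist x y) * nE volume (an y F) ≤
        ENNReal.ofReal v₁ * nuE volume F := by
      rw [lintegral_lintegral_swap]
      · refine le_trans (le_of_eq ?_) b1
        refine lintegral_congr fun y => lintegral_congr fun x => ?_
        rw [hsym]
      · exact (hmv.mul (hmx.comp measurable_snd)).aemeasurable
    have m1 : Measurable fun p : Tor n L × Tor n L =>
        ENNReal.ofReal (L ^ n)⁻¹ * (v (tdist p.1 p.2) * nE volume (an p.1 F)) :=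
      (hmv.mul (hmx.comp measurable_fst)).const_mul _
    have m2 : Measurable fun p : Tor n L × Tor n L =>
        ENNReal.ofReal (L ^ n)⁻¹ * (v (tdist p.1 p.2) * nE volume (an p.2 F)) :=
      (hmv.mul (hmx.comp measurable_snd)).const_mul _
    have m3 : Measurable fun p : Tor n L × Tor n L =>
        v (tdist p.1 p.2) * nE volume (an p.2 (an p.1 F)) := hmv.mul hmp
    have e2 : ∀ x : Tor n L, ∫⁻ y, v (tdist x y) * nE volume (an y (an x (GG (L ^ n) F))) =
        ENNReal.ofReal (L ^ n)⁻¹ * (∫⁻ y, v (tdist x y) * nE volume (an x F)) +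
          (ENNReal.ofReal (L ^ n)⁻¹ * (∫⁻ y, v (tdist x y) * nE volume (an y F)) +
          ∫⁻ y, v (tdist x y) * nE volume (an y (an x F))) := by
      intro x
      simp_rw [e1]
      have c1 : Measurable fun y : Tor n L =>
          ENNReal.ofReal (L ^ n)⁻¹ * (v (tdist x y) * nE volume (an x F)) :=
        m1.comp (f := fun y => (x, y)) (measurable_const.prodMk measurable_id)
      have c2 : Measurable fun y : Tor n L =>
          ENNReal.ofReal (L ^ n)⁻¹ * (v (tdist x y) * nE volume (an y F)) :=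
        m2.comp (f := fun y => (x, y)) (measurable_const.prodMk measurable_id)
      have hm1 : Measurable fun y : Tor n L => v (tdist x y) :=
        hmv.comp (f := fun y => (x, y)) (measurable_const.prodMk measurable_id)
      have c3 : Measurable fun y : Tor n L => v (tdist x y) * nE volume (an x F) :=
        hm1.mul_const _
      have c4 : Measurable fun y : Tor n L => v (tdist x y) * nE volume (an y F) :=
        hm1.mul hmx
      rw [lintegral_add_left c1, lintegral_add_left c2, lintegral_const_mul _ c3,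
        lintegral_const_mul _ c4]
    unfold Vp
    simp_rw [e2]
    have d3 : Measurable fun x : Tor n L => ∫⁻ y, v (tdist x y) * nE volume (an x F) := by
      have : Measurable fun p : Tor n L × Tor n L =>
        v (tdist p.1 p.2) * nE volume (an p.1 F) := hmv.mul (hmx.comp measurable_fst)
      exact this.lintegral_prod_right'
    have d4 : Measurable fun x : Tor n L => ∫⁻ y, v (tdist x y) * nE volume (an y F) := by
      have : Measurable fun p : Tor n L × Tor n L =>
        v (tdist p.1 p.2) * nE volume (an p.2 F) := hmv.mul (hmx.comp measurable_snd)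
      exact this.lintegral_prod_right'
    have d1 : Measurable fun x : Tor n L =>
        ENNReal.ofReal (L ^ n)⁻¹ * (∫⁻ y, v (tdist x y) * nE volume (an x F)) :=
      d3.const_mul _
    have d2 : Measurable fun x : Tor n L =>
        ENNReal.ofReal (L ^ n)⁻¹ * (∫⁻ y, v (tdist x y) * nE volume (an y F)) :=
      d4.const_mul _
    rw [lintegral_add_left d1, lintegral_add_left d2, lintegral_const_mul _ d3,
      lintegral_const_mul _ d4]
    calc 2⁻¹ * (ENNReal.ofReal (L ^ n)⁻¹ *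
            (∫⁻ x : Tor n L, ∫⁻ y : Tor n L, v (tdist x y) * nE volume (an x F)) +
          (ENNReal.ofReal (L ^ n)⁻¹ *
            (∫⁻ x : Tor n L, ∫⁻ y : Tor n L, v (tdist x y) * nE volume (an y F)) +
          ∫⁻ x : Tor n L, ∫⁻ y : Tor n L, v (tdist x y) * nE volume (an y (an x F))))
        ≤ 2⁻¹ * (ENNReal.ofReal (L ^ n)⁻¹ * (ENNReal.ofReal v₁ * nuE volume F) +
          (ENNReal.ofReal (L ^ n)⁻¹ * (ENNReal.ofReal v₁ * nuE volume F) +
          ∫⁻ x : Tor n L, ∫⁻ y : Tor n L, v (tdist x y) * nE volume (an y (an x F)))) := by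
          gcongr
      _ = 2⁻¹ * (∫⁻ x : Tor n L, ∫⁻ y : Tor n L, v (tdist x y) * nE volume (an y (an x F))) +
          (2⁻¹ * 2) * (ENNReal.ofReal (L ^ n)⁻¹ * ENNReal.ofReal v₁ * nuE volume F) := by ring
      _ = _ := by
          rw [ENNReal.inv_mul_cancel (by norm_num) (by norm_num), one_mul,
            ← ENNReal.ofReal_mul (by positivity)]
          congr 3
          rw [div_eq_mul_inv, mul_comm]
  unfold en ken
  calc μ * Kp (GG (L ^ n) F) + Hp K (GG (L ^ n) F) + Vp v (GG (L ^ n) F) ≤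
        μ * Kp F + Hp K F + (Vp v F + ENNReal.ofReal (v₁ / L ^ n) * nuE volume F) := by
        gcongr
    _ = _ := by ring

end

end Pool.Agent.TH268.CC
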