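import Pool.Agent.TH268.CC.Stm
import Pool.Agent.W21.CB.Base

/-!
# The first measurement, canonical ensemble
-/

set_option autoImplicit false

open MeasureTheory
open scoped ENNReal

namespace Pool.Agent.TH268.CC

open Pool.Agent.W761.CB Pool.Agent.W21.CB

theorem proof_base2 : S_BASE2 := by
  intro X _ ν _ I _ en u ω a b p q E Q N A _ L c ψ hI hu hω ha hb hp hq hE hQ hψ hψs hψ1 hψN hψE
    hψQ hIns hmom hen
  obtain ⟨κ, hκ, hmom⟩ := hmom
  have hN : (0 : ℝ) ≤ N := Nat.cast_nonneg N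
  obtain ⟨i0, hi0⟩ := Fintype.card_eq_one_iff.1 hI
  have hM := Pool.Agent.W975.CB.proof_ms
  have hL := Pool.Agent.W366.CB.proof_lam hM
  have hEBC := Pool.Agent.W417.CB.proof_ebc hM hL
  set V : ℝ := (ν Set.univ).toReal with hV
  have hV0 : 0 ≤ V := ENNReal.toReal_nonneg
  have hVe : ENNReal.ofReal V = ν Set.univ := ENNReal.ofReal_toReal (measure_ne_top ν _)
  have hmeas : ∀ F : Multiset X → ℂ, EB F → Measurable fun x => nE ν (an x F) := by
    intro F hF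
    exact (hEBC X ν F F hF hF).2.2.2.2.2.2.2.2.1
  have hR0 : 0 ≤ 1 / ω + V ^ 2 * ω := by positivity
  have hm0 : m2 ν N ψ = 0 := by
    unfold m2
    refine (lintegral_congr fun γ => ?_).trans lintegral_zero
    by_cases h : Multiset.card (ms γ) = N
    · rw [h, sub_self]
      simp
    · rw [hψs _ h]
      simp
  have hm2 : ∑' α, m2 ν (N + κ) (L α ψ) ≤ ENNReal.ofReal (p * N + q) := by
    refine (hmom ψ hψ N hN).trans ?_
    rw [hm0, zero_add, hψN, hψ1, mul_one, ← ENNReal.ofReal_mul hp,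
      ← ENNReal.ofReal_add (by positivity) hq]
  refine ⟨A, inferInstance, fun α => L α ψ, c, N + κ, ?_, by linarith, hm2⟩
  have hsum : ∑' α, nuE ν (L α ψ) = ∫⁻ x, ∑' α, nE ν (an x (L α ψ)) ∂ν := by
    unfold nuE
    rw [lintegral_tsum]
    intro α
    exact (hmeas _ (hIns.eb ψ hψ α)).aemeasurable
  refine ⟨fun α => hIns.eb ψ hψ α, ?_, ?_, ?_, ?_, ?_, ?_⟩
  · rw [hIns.norm ψ hψ, hψ1]
  · rw [hsum, ← hψN]
    exact lintegral_mono fun x => hIns.nlo ψ hψ x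
  · rw [hsum]
    calc ∫⁻ x, ∑' α, nE ν (an x (L α ψ)) ∂ν
        ≤ ∫⁻ x, (nE ν (an x ψ) + ENNReal.ofReal ω * nE ν ψ) ∂ν :=
          lintegral_mono fun x => hIns.nhi ψ hψ x
      _ = nuE ν ψ + ENNReal.ofReal ω * ENNReal.ofReal V := by
          rw [lintegral_add_left (hmeas ψ hψ), lintegral_const, hψ1, mul_one, hVe]
          rfl
      _ = ENNReal.ofReal (N + ω * V) := by
          rw [hψN, ← ENNReal.ofReal_mul hω.le, ← ENNReal.ofReal_add hN (by positivity)]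
  · refine (hen ψ hψ).trans ?_
    rw [hψN, hψ1, mul_one, ← ENNReal.ofReal_mul ha, ENNReal.ofReal_add (by positivity) hb,
      ENNReal.ofReal_add hE (by positivity)]
    gcongr
  · intro i
    refine (hIns.amp ψ hψ i).trans ?_
    rw [hψ1, mul_one]
  · -- coherence
    have hu1 : u i0 = fun _ => 1 := funext fun x => hu i0 x
    have hag : ∀ α, EB (ag ν (fun _ => 1) (L α ψ)) := by
      intro α
      have h := hIns.eb ψ hψ α
      exact (hEBC X ν _ _ h h).2.2.2.1 _ measurable_const ⟨1, fun x => by simp⟩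
    have hcs : ∀ α, EB (fun S => c α i0 * L α ψ S) := by
      intro α
      have h := hIns.eb ψ hψ α
      have h2 := (hEBC X ν _ _ h h).2.2.1 (c α i0) 0
      simpa using h2
    have h1 : ∀ α, nE ν (L α ψ) * ∑ i, ‖c α i‖ₑ ≤
        (nE ν (L α ψ)) ^ (1 / 2 : ℝ) * (nE ν (ag ν (fun _ => 1) (L α ψ))) ^ (1 / 2 : ℝ) +
        (nE ν (L α ψ)) ^ (1 / 2 : ℝ) * (dev ν (u i0) (c α i0) (L α ψ)) ^ (1 / 2 : ℝ) := by
      intro α
      have h2 : ∑ i, ‖c α i‖ₑ = ‖c α i0‖ₑ := by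
        rw [Fintype.sum_eq_single i0]
        intro i hi
        exact absurd (hi0 i) hi
      have h3 := nE_tri ν _ _ (hcs α) (hag α)
      rw [nE_smul ν _ (hIns.eb ψ hψ α)] at h3
      have h4 : (‖c α i0‖ₑ ^ 2 * nE ν (L α ψ)) ^ (1 / 2 : ℝ) =
          ‖c α i0‖ₑ * (nE ν (L α ψ)) ^ (1 / 2 : ℝ) := by
        rw [ENNReal.mul_rpow_of_nonneg _ _ (by norm_num), ← ENNReal.rpow_natCast,
          ← ENNReal.rpow_mul]
        norm_num
      rw [h4] at h3
      have h5 : nE ν (L α ψ) = (nE ν (L α ψ)) ^ (1 / 2 : ℝ) * (nE ν (L α ψ)) ^ (1 / 2 : ℝ) := by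
        rw [← ENNReal.rpow_add_of_nonneg _ _ (by norm_num) (by norm_num)]
        norm_num
      rw [h2, ← mul_add]
      calc nE ν (L α ψ) * ‖c α i0‖ₑ
          = (nE ν (L α ψ)) ^ (1 / 2 : ℝ) * (‖c α i0‖ₑ * (nE ν (L α ψ)) ^ (1 / 2 : ℝ)) := by
            nth_rw 1 [h5]
            ring
        _ ≤ _ := by
            refine mul_le_mul_right ?_ _
            rw [hu1]
            exact h3
    have h6 : (∑' α, nE ν (L α ψ)) = 1 := by rw [hIns.norm ψ hψ, hψ1]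
    have h7 : ∑' α, nE ν (ag ν (fun _ => 1) (L α ψ)) ≤ ENNReal.ofReal (Q + ω * V ^ 2) := by
      have h8 := hIns.old ψ hψ (fun _ => 1) 0 measurable_const (fun _ => zero_le_one)
        ⟨1, fun _ => le_rfl⟩
      have h9 : ∀ F : Multiset X → ℂ, dev ν (fun _ => 1) 0 F = nE ν (ag ν (fun _ => 1) F) := by
        intro F
        unfold dev
        congr 1
        funext S
        rw [zero_mul, sub_zero]
      simp only [h9] at h8
      refine h8.trans ?_
      rw [hψ1, mul_one, ENNReal.ofReal_add hQ (by positivity)]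
      refine add_le_add hψQ (le_of_eq ?_)
      congr 3
      simp [hV, Measure.real]
    have h10 : ∑' α, dev ν (u i0) (c α i0) (L α ψ) ≤ ENNReal.ofReal (1 / ω + V ^ 2 * ω) := by
      refine (hIns.amp ψ hψ i0).trans ?_
      rw [hψ1, mul_one]
    have h11 : ∀ (x : ℝ), 0 ≤ x → (ENNReal.ofReal x) ^ (1 / 2 : ℝ) = ENNReal.ofReal (√x) := by
      intro x hx
      rw [ENNReal.ofReal_rpow_of_nonneg hx (by norm_num), Real.sqrt_eq_rpow]
    calc ∑' α, nE ν (L α ψ) * ∑ i, ‖c α i‖ₑ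
        ≤ ∑' α, ((nE ν (L α ψ)) ^ (1 / 2 : ℝ) *
            (nE ν (ag ν (fun _ => 1) (L α ψ))) ^ (1 / 2 : ℝ) +
          (nE ν (L α ψ)) ^ (1 / 2 : ℝ) * (dev ν (u i0) (c α i0) (L α ψ)) ^ (1 / 2 : ℝ)) :=
          ENNReal.tsum_le_tsum h1
      _ ≤ (∑' α, nE ν (L α ψ)) ^ (1 / 2 : ℝ) *
            (∑' α, nE ν (ag ν (fun _ => 1) (L α ψ))) ^ (1 / 2 : ℝ) +
          (∑' α, nE ν (L α ψ)) ^ (1 / 2 : ℝ) *
            (∑' α, dev ν (u i0) (c α i0) (L α ψ)) ^ (1 / 2 : ℝ) := by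
          rw [ENNReal.tsum_add]
          exact add_le_add (cs_tsum _ _) (cs_tsum _ _)
      _ ≤ (ENNReal.ofReal (Q + ω * V ^ 2)) ^ (1 / 2 : ℝ) +
          (ENNReal.ofReal (1 / ω + V ^ 2 * ω)) ^ (1 / 2 : ℝ) := by
          rw [h6, ENNReal.one_rpow, one_mul, one_mul]
          gcongr
      _ = _ := by
          rw [h11 _ (by positivity), h11 _ hR0,
            ENNReal.ofReal_add (Real.sqrt_nonneg _) (Real.sqrt_nonneg _)]

end Pool.Agent.TH268.CC
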