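import Pool.Agent.TH268.CC.Stm
import Pool.Agent.W230.CB.Conv

/-!
# From wave functions to Fock space, with the support
-/

set_option autoImplicit false

open MeasureTheory
open scoped ENNReal

namespace Pool.Agent.TH268.CC

open Pool.Agent.W761.CB Pool.Agent.W975.CB Pool.Agent.W230.CB

theorem conv2 (hTF : S_TF) : S_CONV2 := by
  intro n L hL μ K v N Ψ hK hv hΨ
  obtain ⟨hm, hb, hs, hn⟩ := hΨ
  have hVm : Measurable fun p : Tor n L × Tor n L => v (tdist p.1 p.2) :=
    ((hTF n L).2.2.2.2.2.2.2 v hv).1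
  have hadd : ∀ h : Tor n L, Measurable fun x : Tor n L => x + h := fun h => measurable_add_const h
  have hLn : (0 : ℝ) < L ^ n := pow_pos hL.out n
  have hnu := nuE_FK Ψ hs hm hn
  have hEn : en μ K v (FK Ψ) = enN μ K v Ψ := by
    unfold en ken enN Vp
    rw [Vp_gen Ψ hs hm (fun x y => v (tdist x y)) hVm]
    congr 1
    rcases N with _ | M
    · unfold Kp Hp
      simp [dE_zero]
    · congr 1
      · congr 1
        unfold Kp
        have h1 : ∀ (c : Fin n) (k : ℕ), ∫⁻ x, dE volume (FK Ψ) (x + ec L c ((2 : ℝ)⁻¹ ^ k)) x =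
            ((M + 1 : ℕ) : ℝ≥0∞) * ∫⁻ z : Fin (M + 1) → Tor n L,
              ‖Ψ (Function.update z 0 (z 0 + ec L c ((2 : ℝ)⁻¹ ^ k))) - Ψ z‖ₑ ^ 2 := fun c k =>
          int_dE Ψ hs hm (fun x => x + ec L c ((2 : ℝ)⁻¹ ^ k)) (hadd _)
        have h2 : ∀ (i : Fin (M + 1)) (c : Fin n) (k : ℕ), ∫⁻ z : Fin (M + 1) → Tor n L,
            ‖Ψ (Function.update z i (z i + ec L c ((2 : ℝ)⁻¹ ^ k))) - Ψ z‖ₑ ^ 2 =
            ∫⁻ z : Fin (M + 1) → Tor n L,
              ‖Ψ (Function.update z 0 (z 0 + ec L c ((2 : ℝ)⁻¹ ^ k))) - Ψ z‖ₑ ^ 2 := fun i c k =>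
          T_symm Ψ hs i (fun x => x + ec L c ((2 : ℝ)⁻¹ ^ k))
        simp_rw [h1, h2]
        rw [Finset.sum_const, Finset.card_univ, Fintype.card_fin, nsmul_eq_mul, Finset.mul_sum]
        refine Finset.sum_congr rfl fun c _ => ?_
        rw [ENNReal.mul_iSup]
        congr 1
        funext k
        ring
      · unfold Hp
        congr 1
        have h1 : ∀ z : Fin n → ℝ, ∫⁻ x, dE volume (FK Ψ) (x + pr L z) x =
            ((M + 1 : ℕ) : ℝ≥0∞) * ∫⁻ x : Fin (M + 1) → Tor n L,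
              ‖Ψ (Function.update x 0 (x 0 + pr L z)) - Ψ x‖ₑ ^ 2 := fun z =>
          int_dE Ψ hs hm (fun x => x + pr L z) (hadd _)
        have h2 : ∀ (i : Fin (M + 1)) (z : Fin n → ℝ), ∫⁻ x : Fin (M + 1) → Tor n L,
            ‖Ψ (Function.update x i (x i + pr L z)) - Ψ x‖ₑ ^ 2 =
            ∫⁻ x : Fin (M + 1) → Tor n L,
              ‖Ψ (Function.update x 0 (x 0 + pr L z)) - Ψ x‖ₑ ^ 2 := fun i z =>
          T_symm Ψ hs i (fun x => x + pr L z)
        simp_rw [h1, h2]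
        rw [Finset.sum_const, Finset.card_univ, Fintype.card_fin, nsmul_eq_mul,
          ← lintegral_const_mul' _ _ (ENNReal.natCast_ne_top _)]
        refine lintegral_congr fun z => ?_
        ring
  rcases N with _ | M
  · have hc0 : condN Ψ = 0 := by
      unfold condN
      simp
    refine ⟨hc0.ge, FK Ψ, FK_eb Ψ hs hm hb, fun S hS => FK_zero Ψ S hS,
      (nE_FK Ψ hs).trans hn, ?_, hEn, ?_⟩
    · rw [hnu]; simp
    · rw [hc0, mul_zero, ENNReal.ofReal_zero]
      refine nE_zero' _ _ fun S => ?_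
      unfold ag
      have h1 : ∀ x, FK Ψ (x ::ₘ S) = 0 := fun x =>
        FK_zero Ψ _ (by rw [Multiset.card_cons]; omega)
      simp [h1]
  · obtain ⟨hI, hQ⟩ := cond_eq Ψ hm hb
    set Q : ℝ := ∫ w : Fin M → Tor n L, ‖∫ x, Ψ (Fin.cons x w)‖ ^ 2 with hQdef
    have hQ0 : 0 ≤ Q := integral_nonneg fun w => by positivity
    have hcond : L ^ n * condN Ψ = (M + 1) * Q := by
      unfold condN
      simp_rw [cond_symm Ψ hs]
      rw [hQ, Finset.sum_const, Finset.card_univ, Fintype.card_fin, nsmul_eq_mul, ← mul_assoc,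
        mul_inv_cancel₀ hLn.ne', one_mul]
      push_cast
      ring
    have hc0 : 0 ≤ condN Ψ := by
      have h1 : 0 ≤ L ^ n * condN Ψ := by rw [hcond]; positivity
      exact nonneg_of_mul_nonneg_right h1 hLn
    refine ⟨hc0, FK Ψ, FK_eb Ψ hs hm hb, fun S hS => FK_zero Ψ S hS,
      (nE_FK Ψ hs).trans hn, ?_, hEn, ?_⟩
    · rw [hnu, ENNReal.ofReal_natCast]
    · rw [ag_eq Ψ hs, hcond, ENNReal.ofReal_mul (by positivity), hQdef,
        ofReal_integral_eq_lintegral_ofReal hI (Filter.Eventually.of_forall fun w => by positivity)]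
      have h1 : ENNReal.ofReal ((M : ℝ) + 1) = ((M + 1 : ℕ) : ℝ≥0∞) := by
        rw [← ENNReal.ofReal_natCast]
        push_cast
        rfl
      rw [h1]
      congr 1
      refine lintegral_congr fun w => ?_
      rw [← ofReal_norm, ENNReal.ofReal_pow (norm_nonneg _)]


end Pool.Agent.TH268.CC
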