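import Pool.Agent.TH268.CC.Stm
import Pool.Agent.W374.CB2.Lown

/-!
# CC-LOWC: the canonical lower bound of the energy in the Fock space
-/

set_option autoImplicit false

open MeasureTheory
open scoped ENNReal

namespace Pool.Agent.TH268.CC

open Pool.Agent.W761.CB
open Pool.Agent.W374.CB2.Lown (Ps Ps_meas enN_smul ms_perm kp hp vp nu ne DD1)

/-- measurability on configurations -/
lemma lc_meas {X : Type} [MeasurableSpace X] {f : Cf X → ℝ≥0∞}
    (h : ∀ N : ℕ, Measurable fun x : Fin N → X => f ⟨N, x⟩) : Measurable f := by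
  intro s hs
  refine MeasurableSpace.measurableSet_iInf.2 fun N => ?_
  exact h N hs

section
variable {n : ℕ} {L : ℝ} [Fact (0 < L)]

/-- from normalised to bounded symmetric wave functions -/
lemma lc_unnorm {N : ℕ} (μ : ℝ≥0∞) (K : (Fin n → ℝ) → ℝ≥0∞) (v : ℝ → ℝ≥0∞) (a b : ℝ≥0∞)
    (hyp : ∀ Ψ : (Fin N → Tor n L) → ℂ, IsWf Ψ → a ≤ enN μ K v Ψ + b)
    (Ψ : (Fin N → Tor n L) → ℂ) (hm : Measurable Ψ) (hb : ∃ C : ℝ, ∀ x, ‖Ψ x‖ ≤ C)
    (hs : ∀ (π : Equiv.Perm (Fin N)) (x : Fin N → Tor n L), Ψ (x ∘ π) = Ψ x) :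
    a * ∫⁻ x, ‖Ψ x‖ₑ ^ 2 ≤ enN μ K v Ψ + b * ∫⁻ x, ‖Ψ x‖ₑ ^ 2 := by
  obtain ⟨C, hC⟩ := hb
  set p : ℝ≥0∞ := ∫⁻ x, ‖Ψ x‖ₑ ^ 2 with hp
  by_cases h0 : p = 0
  · rw [h0, mul_zero]
    exact zero_le
  have htop : p ≠ ⊤ := by
    have h1 : p ≤ ∫⁻ _x : Fin N → Tor n L, ENNReal.ofReal C ^ 2 := by
      apply lintegral_mono
      intro x
      have h2 : ‖Ψ x‖ₑ ≤ ENNReal.ofReal C := by
        rw [← ofReal_norm]
        exact ENNReal.ofReal_le_ofReal (hC x)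
      exact pow_le_pow_left' h2 2
    refine ne_top_of_le_ne_top ?_ h1
    rw [lintegral_const]
    finiteness
  have hpr : 0 < p.toReal := ENNReal.toReal_pos h0 htop
  set c : ℂ := (((√p.toReal)⁻¹ : ℝ) : ℂ) with hc
  have hc2 : ‖c‖ₑ ^ 2 = p⁻¹ := by
    rw [hc, ← ofReal_norm, Complex.norm_real, Real.norm_eq_abs, abs_of_nonneg (by positivity),
      ← ENNReal.ofReal_pow (by positivity), inv_pow, Real.sq_sqrt hpr.le,
      ENNReal.ofReal_inv_of_pos hpr, ENNReal.ofReal_toReal htop]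
  have hw : IsWf (fun x => c * Ψ x) := by
    refine ⟨measurable_const.mul hm, ⟨‖c‖ * C, fun x => ?_⟩, fun π x => ?_, ?_⟩
    · rw [norm_mul]
      exact mul_le_mul_of_nonneg_left (hC x) (norm_nonneg _)
    · rw [hs]
    · have : ∀ x, ‖c * Ψ x‖ₑ ^ 2 = ‖c‖ₑ ^ 2 * ‖Ψ x‖ₑ ^ 2 := fun x => by
        rw [enorm_mul, mul_pow]
      simp only [this]
      rw [lintegral_const_mul' _ _ (by finiteness), hc2]
      exact ENNReal.inv_mul_cancel h0 htop
  have h1 := hyp _ hw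
  rw [enN_smul, hc2] at h1
  calc a * p ≤ (p⁻¹ * enN μ K v Ψ + b) * p := by gcongr
    _ = enN μ K v Ψ + b * p := by
        rw [add_mul, mul_right_comm, ENNReal.inv_mul_cancel h0 htop, one_mul]

omit [Fact (0 < L)] in
/-- the properties of the sectors -/
lemma lc_sector {F : Multiset (Tor n L) → ℂ} (hF : EB F) (N : ℕ) :
    Measurable (Ps F N) ∧ (∃ C : ℝ, ∀ x, ‖Ps F N x‖ ≤ C) ∧
      ∀ (π : Equiv.Perm (Fin N)) (x : Fin N → Tor n L), Ps F N (x ∘ π) = Ps F N x := by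
  obtain ⟨C, c, hC, hc, hb⟩ := hF.bdd
  refine ⟨Ps_meas hF N, ⟨C * c ^ N, fun x => ?_⟩, fun π x => ?_⟩
  · have h1 := hb (ms ⟨N, x⟩)
    have h2 : Multiset.card (ms (⟨N, x⟩ : Cf (Tor n L))) = N := by
      unfold ms; simp
    rw [h2] at h1
    exact h1
  · unfold Ps
    rw [ms_perm]

/-- the sum over the sectors of the energies -/
lemma lc_hen (hT : S_TF) (hM : S_MS) (hL : S_LAM) (hE : S_EBC) (hMe : S_MECKE) (μ : ℝ≥0∞)
    (K : (Fin n → ℝ) → ℝ≥0∞) (v : ℝ → ℝ≥0∞) (hK : Measurable K) (hv : Measurable v)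
    {F : Multiset (Tor n L) → ℂ} (hF : EB F) :
    ∑' N : ℕ, ((N + 1).factorial : ℝ≥0∞)⁻¹ * enN μ K v (Ps F (N + 1)) ≤ en μ K v F := by
  unfold en ken
  rw [hp hT hL hE hF K hK, vp hT hM hL hE hMe hF v hv]
  have h1 : ∀ N : ℕ, ((N + 1).factorial : ℝ≥0∞)⁻¹ * enN μ K v (Ps F (N + 1)) =
      μ * (((N + 1).factorial : ℝ≥0∞)⁻¹ * (∑ i : Fin (N + 1), ∑ c : Fin n, ⨆ k : ℕ,
        4 ^ k * DD1 F (N + 1) i (ec L c ((2 : ℝ)⁻¹ ^ k)))) +
      ((N + 1).factorial : ℝ≥0∞)⁻¹ * (2⁻¹ * (∑ i : Fin (N + 1),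
        ∫⁻ z, K z * DD1 F (N + 1) i (pr L z))) +
      ((N + 1).factorial : ℝ≥0∞)⁻¹ * (∫⁻ x : Fin (N + 1) → Tor n L,
        (∑ i : Fin (N + 1), ∑ j ∈ Finset.univ.filter fun j => i < j,
          v (tdist (x i) (x j))) * ‖Ps F (N + 1) x‖ₑ ^ 2) := by
    intro N
    unfold enN
    rw [mul_add, mul_add, mul_left_comm]
    rfl
  simp only [h1]
  rw [ENNReal.tsum_add, ENNReal.tsum_add, ENNReal.tsum_mul_left]
  gcongr
  exact kp hT hL hE hF

/-- the squared norm -/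
lemma lc_ne (hL : S_LAM) {F : Multiset (Tor n L) → ℂ} (hF : EB F) :
    nE volume F = ∑' N : ℕ, (N.factorial : ℝ≥0∞)⁻¹ *
      (∫⁻ x : Fin N → Tor n L, ‖Ps F N x‖ₑ ^ 2) := by
  obtain ⟨sec, -⟩ := hL (Tor n L) volume
  exact sec (fun γ => ‖F (ms γ)‖ₑ ^ 2) (hF.meas.enorm.pow_const 2)

/-- the number of missing particles -/
lemma lc_dm (hL : S_LAM) (M : ℕ) {F : Multiset (Tor n L) → ℂ} (hF : EB F) :
    dm volume M F = ∑' N : ℕ, (N.factorial : ℝ≥0∞)⁻¹ * (((M - N : ℕ) : ℝ≥0∞) *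
      (∫⁻ x : Fin N → Tor n L, ‖Ps F N x‖ₑ ^ 2)) := by
  obtain ⟨sec, -⟩ := hL (Tor n L) volume
  have hcard : Measurable fun γ : Cf (Tor n L) => ((M - Multiset.card (ms γ) : ℕ) : ℝ≥0∞) := by
    have h1 : (fun γ : Cf (Tor n L) => ((M - Multiset.card (ms γ) : ℕ) : ℝ≥0∞)) =
        fun γ : Cf (Tor n L) => ((M - γ.1 : ℕ) : ℝ≥0∞) := by
      funext γ
      unfold ms
      simp
    rw [h1]
    refine lc_meas fun N => ?_
    exact (measurable_const (a := ((M - N : ℕ) : ℝ≥0∞)) : Measurable fun _ : Fin N → Tor n L => _)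
  have h := sec (fun γ => ((M - Multiset.card (ms γ) : ℕ) : ℝ≥0∞) * ‖F (ms γ)‖ₑ ^ 2)
    (hcard.mul (hF.meas.enorm.pow_const 2))
  refine h.trans ?_
  apply tsum_congr
  intro N
  congr 1
  have h2 : ∀ x : Fin N → Tor n L, Multiset.card (ms (⟨N, x⟩ : Cf (Tor n L))) = N := by
    intro x
    unfold ms; simp
  simp only [h2]
  rw [lintegral_const_mul' _ _ (by finiteness)]
  rfl

/-- the particle number of a vector with `k` particles -/
lemma lc_nu (hMe : S_MECKE) {F : Multiset (Tor n L) → ℂ} (hF : EB F) (k : ℕ)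
    (hk : ∀ S, Multiset.card S ≠ k → F S = 0) :
    nuE volume F = (k : ℝ≥0∞) * nE volume F := by
  have hm : Measurable fun p : Tor n L × Cf (Tor n L) => ‖F (ms p.2)‖ₑ ^ 2 :=
    (hF.meas.comp measurable_snd).enorm.pow_const 2
  have h := hMe (Tor n L) volume (fun _ S => ‖F S‖ₑ ^ 2) hm
  unfold nuE nE an
  rw [← h, ← lintegral_const_mul' _ _ (by finiteness)]
  apply lintegral_congr
  intro γ
  by_cases hc : Multiset.card (ms γ) = k
  · simp [hc]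
  · rw [hk _ hc]
    simp

/-- a lower bound for wave functions of `k` particles gives one for vectors with `k` particles -/
lemma lc_TQ (hT : S_TF) (hM : S_MS) (hL : S_LAM) (hE : S_EBC) (hMe : S_MECKE) (μ : ℝ≥0∞)
    (K : (Fin n → ℝ) → ℝ≥0∞) (v : ℝ → ℝ≥0∞) (hK : Measurable K) (hv : Measurable v)
    (a b : ℝ≥0∞) (N : ℕ) (hyp : ∀ Ψ : (Fin N → Tor n L) → ℂ, IsWf Ψ → a ≤ enN μ K v Ψ + b)
    {F : Multiset (Tor n L) → ℂ} (hF : EB F) (hN : ∀ S, Multiset.card S ≠ N → F S = 0) :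
    a * nE volume F ≤ en μ K v F + b * nE volume F := by
  obtain ⟨h1, h2, h3⟩ := lc_sector hF N
  have h4 := lc_unnorm μ K v a b hyp (Ps F N) h1 h2 h3
  have hz : ∀ k, k ≠ N → ∫⁻ x : Fin k → Tor n L, ‖Ps F k x‖ₑ ^ 2 = 0 := by
    intro k hk
    have : ∀ x : Fin k → Tor n L, ‖Ps F k x‖ₑ ^ 2 = 0 := by
      intro x
      have h5 : Multiset.card (ms (⟨k, x⟩ : Cf (Tor n L))) ≠ N := by
        unfold ms; simpa using hk
      unfold Ps
      rw [hN _ h5]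
      simp
    simp only [this, lintegral_zero]
  have h6 : nE volume F = (N.factorial : ℝ≥0∞)⁻¹ * ∫⁻ x : Fin N → Tor n L, ‖Ps F N x‖ₑ ^ 2 := by
    rw [lc_ne hL hF, tsum_eq_single N]
    intro k hk
    rw [hz k hk, mul_zero]
  have h7 : (N.factorial : ℝ≥0∞)⁻¹ * enN μ K v (Ps F N) ≤ en μ K v F := by
    rcases Nat.eq_zero_or_pos N with h0 | h0
    · subst h0
      have : enN μ K v (Ps F 0) = 0 := by
        unfold enN
        simp
      rw [this, mul_zero]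
      exact zero_le
    · obtain ⟨M, rfl⟩ := Nat.exists_eq_succ_of_ne_zero h0.ne'
      refine le_trans ?_ (lc_hen hT hM hL hE hMe μ K v hK hv hF)
      exact ENNReal.le_tsum M
  rw [h6]
  calc a * ((N.factorial : ℝ≥0∞)⁻¹ * ∫⁻ x : Fin N → Tor n L, ‖Ps F N x‖ₑ ^ 2)
      = (N.factorial : ℝ≥0∞)⁻¹ * (a * ∫⁻ x : Fin N → Tor n L, ‖Ps F N x‖ₑ ^ 2) := by
        rw [mul_left_comm]
    _ ≤ (N.factorial : ℝ≥0∞)⁻¹ * (enN μ K v (Ps F N) +
          b * ∫⁻ x : Fin N → Tor n L, ‖Ps F N x‖ₑ ^ 2) := by gcongr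
    _ = (N.factorial : ℝ≥0∞)⁻¹ * enN μ K v (Ps F N) +
          b * ((N.factorial : ℝ≥0∞)⁻¹ * ∫⁻ x : Fin N → Tor n L, ‖Ps F N x‖ₑ ^ 2) := by
        rw [mul_add, mul_left_comm b]
    _ ≤ _ := by gcongr

end

theorem lowc (hTF : S_TF) (hA : S_ADD) (hR : S_REM) (hC : S_CONV2) : S_LOWC := by
  have hM := Pool.Agent.W975.CB.proof_ms
  have hL := Pool.Agent.W366.CB.proof_lam hM
  have hE := Pool.Agent.W417.CB.proof_ebc hM hL
  have hMe := Pool.Agent.W337.CB.proof_mecke hM hL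
  intro n L v₁ hL0 μ K v N e hK hv hv1 hvi hyp F hF
  set C : ℝ≥0∞ := ENNReal.ofReal (N * v₁ / L ^ n) with hCdef
  -- the bound for vectors with `k` particles
  have hQ0 : ∀ F : Multiset (Tor n L) → ℂ, EB F → (∀ S, Multiset.card S ≠ N → F S = 0) →
      ENNReal.ofReal e * nE volume F ≤ en μ K v F := by
    intro F hF hN
    have h := lc_TQ hTF hM hL hE hMe μ K v hK hv (ENNReal.ofReal e) 0 N
      (fun Ψ hΨ => by rw [add_zero]; exact hyp Ψ hΨ) hF hN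
    rwa [zero_mul, add_zero] at h
  have hQup : ∀ j : ℕ, ∀ F : Multiset (Tor n L) → ℂ, EB F →
      (∀ S, Multiset.card S ≠ N + j → F S = 0) →
      ENNReal.ofReal e * nE volume F ≤ en μ K v F := by
    intro j
    induction j with
    | zero => exact hQ0
    | succ j ih =>
      intro F hF hN
      obtain ⟨G, hG, hGs, hGn, hGe⟩ := hR n L μ K v hK hv (N + j) F hF hN
      have h1 := ih G hG hGs
      rw [hGn] at h1
      have h2 := h1.trans hGe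
      rw [mul_left_comm] at h2
      exact (ENNReal.mul_le_mul_iff_right (by simp) (ENNReal.natCast_ne_top _)).1 h2
  have hQdown : ∀ j : ℕ, j ≤ N → ∀ F : Multiset (Tor n L) → ℂ, EB F →
      (∀ S, Multiset.card S ≠ N - j → F S = 0) →
      ENNReal.ofReal e * nE volume F ≤ en μ K v F + C * (j : ℝ≥0∞) * nE volume F := by
    intro j
    induction j with
    | zero =>
      intro _ F hF hN
      have := hQ0 F hF hN
      simpa using this
    | succ j ih =>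
      intro hj F hF hN
      obtain ⟨G, hG, hGs, hGn, hGe⟩ := hA n L v₁ μ K v hK hv hv1 hvi F hF
      have hs : N - (j + 1) + 1 = N - j := by omega
      have h1 := ih (by omega) G hG (by rw [← hs]; exact hGs (N - (j + 1)) hN)
      rw [hGn] at h1
      have hnu := lc_nu hMe hF (N - (j + 1)) hN
      have hCk : ENNReal.ofReal (v₁ / L ^ n) * ((N - (j + 1) : ℕ) : ℝ≥0∞) ≤ C := by
        have h3 : C = ENNReal.ofReal (v₁ / L ^ n) * (N : ℝ≥0∞) := by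
          rw [hCdef, mul_div_assoc, ENNReal.ofReal_mul (by positivity), ENNReal.ofReal_natCast,
            mul_comm]
        rw [h3]
        gcongr
        exact Nat.sub_le _ _
      calc ENNReal.ofReal e * nE volume F ≤ en μ K v G + C * (j : ℝ≥0∞) * nE volume F := h1
        _ ≤ (en μ K v F + ENNReal.ofReal (v₁ / L ^ n) * nuE volume F) +
              C * (j : ℝ≥0∞) * nE volume F := by gcongr
        _ = en μ K v F + (ENNReal.ofReal (v₁ / L ^ n) * ((N - (j + 1) : ℕ) : ℝ≥0∞) +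
              C * (j : ℝ≥0∞)) * nE volume F := by
            rw [hnu, add_mul, ← mul_assoc, add_assoc]
        _ ≤ en μ K v F + (C + C * (j : ℝ≥0∞)) * nE volume F := by gcongr
        _ = en μ K v F + C * ((j + 1 : ℕ) : ℝ≥0∞) * nE volume F := by
            rw [Nat.cast_add, Nat.cast_one, mul_add, mul_one, add_comm C]
  have hQ : ∀ k : ℕ, ∀ F : Multiset (Tor n L) → ℂ, EB F →
      (∀ S, Multiset.card S ≠ k → F S = 0) →
      ENNReal.ofReal e * nE volume F ≤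
        en μ K v F + C * ((N - k : ℕ) : ℝ≥0∞) * nE volume F := by
    intro k F hF hk
    rcases le_total k N with h | h
    · have := hQdown (N - k) (Nat.sub_le _ _) F hF (by rwa [Nat.sub_sub_self h])
      exact this
    · have := hQup (k - N) F hF (by rwa [Nat.add_sub_cancel' h])
      exact this.trans le_self_add
  -- wave functions
  have hW : ∀ (k : ℕ) (Ψ : (Fin k → Tor n L) → ℂ), IsWf Ψ →
      ENNReal.ofReal e ≤ enN μ K v Ψ + C * ((N - k : ℕ) : ℝ≥0∞) := by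
    intro k Ψ hΨ
    obtain ⟨-, G, hG, hGs, hGn, -, hGe, -⟩ := hC n L μ K v k Ψ hK hv hΨ
    have := hQ k G hG hGs
    rwa [hGn, hGe, mul_one, mul_one] at this
  have hsec : ∀ k : ℕ, ENNReal.ofReal e * ∫⁻ x : Fin k → Tor n L, ‖Ps F k x‖ₑ ^ 2 ≤
      enN μ K v (Ps F k) +
        C * ((N - k : ℕ) : ℝ≥0∞) * ∫⁻ x : Fin k → Tor n L, ‖Ps F k x‖ₑ ^ 2 := by
    intro k
    obtain ⟨h1, h2, h3⟩ := lc_sector hF k
    exact lc_unnorm μ K v _ _ (hW k) (Ps F k) h1 h2 h3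
  have hzero : enN μ K v (Ps F 0) = 0 := by
    unfold enN
    simp
  have hsum : ∑' k : ℕ, (k.factorial : ℝ≥0∞)⁻¹ * enN μ K v (Ps F k) ≤ en μ K v F := by
    rw [tsum_eq_zero_add' ENNReal.summable, hzero, mul_zero, zero_add]
    exact lc_hen hTF hM hL hE hMe μ K v hK hv hF
  rw [lc_ne hL hF, lc_dm hL N hF, ← ENNReal.tsum_mul_left, ← ENNReal.tsum_mul_left]
  calc ∑' k : ℕ, ENNReal.ofReal e * ((k.factorial : ℝ≥0∞)⁻¹ *
        ∫⁻ x : Fin k → Tor n L, ‖Ps F k x‖ₑ ^ 2)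
      ≤ ∑' k : ℕ, ((k.factorial : ℝ≥0∞)⁻¹ * enN μ K v (Ps F k) +
          C * ((k.factorial : ℝ≥0∞)⁻¹ * (((N - k : ℕ) : ℝ≥0∞) *
            ∫⁻ x : Fin k → Tor n L, ‖Ps F k x‖ₑ ^ 2))) := by
        apply ENNReal.tsum_le_tsum
        intro k
        calc ENNReal.ofReal e * ((k.factorial : ℝ≥0∞)⁻¹ *
              ∫⁻ x : Fin k → Tor n L, ‖Ps F k x‖ₑ ^ 2)
            = (k.factorial : ℝ≥0∞)⁻¹ * (ENNReal.ofReal e *
              ∫⁻ x : Fin k → Tor n L, ‖Ps F k x‖ₑ ^ 2) := by rw [mul_left_comm]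
          _ ≤ (k.factorial : ℝ≥0∞)⁻¹ * (enN μ K v (Ps F k) +
              C * ((N - k : ℕ) : ℝ≥0∞) * ∫⁻ x : Fin k → Tor n L, ‖Ps F k x‖ₑ ^ 2) := by
              gcongr
              exact hsec k
          _ = _ := by
              rw [mul_add, mul_assoc C, mul_left_comm _ C]
    _ = ∑' k : ℕ, (k.factorial : ℝ≥0∞)⁻¹ * enN μ K v (Ps F k) +
          ∑' k : ℕ, C * ((k.factorial : ℝ≥0∞)⁻¹ * (((N - k : ℕ) : ℝ≥0∞) *
            ∫⁻ x : Fin k → Tor n L, ‖Ps F k x‖ₑ ^ 2)) := ENNReal.tsum_add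
    _ ≤ _ := by gcongr

end Pool.Agent.TH268.CC
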