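import Pool.Agent.TH268.CC.Core2
import Pool.Agent.W761.CB.Main

/-!
# The main theorem for the canonical ensemble from the parts
-/

set_option autoImplicit false

open MeasureTheory
open scoped ENNReal

namespace Pool.Agent.TH268.CC

open Pool.Agent.W761.CB

noncomputable section

/-- The main theorem for a fixed number of particles, general form. -/
def S_CCORE : Prop := ∀ (n : ℕ) (m σ g CP τ c : ℝ) (v : ℝ → ℝ≥0∞), 1 ≤ n → 0 < m → m < n →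
  0 < σ → σ < n → g + 1 < 2 * n / m → 0 < CP → 0 < τ → 0 < c → Measurable v →
  ∫⁻ z : Fin n → ℝ, v (el z) ≠ 0 → ∫⁻ z : Fin n → ℝ, v (el z) ≠ ⊤ →
  ∃ ρ₀ c₀ : ℝ, 0 < ρ₀ ∧ 0 < c₀ ∧ ∀ ρ : ℝ, 0 < ρ → ρ ≤ ρ₀ → ∃ c₁ L₀ : ℝ, 0 < c₁ ∧
    ∀ (L : ℝ) [Fact (0 < L)] (μ : ℝ≥0∞) (K : (Fin n → ℝ) → ℝ≥0∞), L₀ ≤ L → Measurable K →
    PO n L m CP μ K →
    μ * ENNReal.ofReal (ρ ^ (2 / m)) +
      ∫⁻ z, K z * ENNReal.ofReal (min 1 (ρ ^ (2 / m) * el z ^ 2)) ≤ ENNReal.ofReal (τ * ρ) →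
    (∀ z, ENNReal.ofReal (c * ρ ^ (g + n / m) * (1 + ρ ^ (1 / m) * el z) ^ (-(n + σ))) ≤ K z) →
    ∀ N : ℕ, ρ / 2 * L ^ n ≤ N → (N : ℝ) ≤ ρ * L ^ n →
    ∀ Ψ : (Fin N → Tor n L) → ℂ, IsWf2 Ψ →
      (∀ Φ : (Fin N → Tor n L) → ℂ, IsWf Φ →
        enN μ K v Ψ ≤ enN μ K v Φ + ENNReal.ofReal (c₁ * L ^ (n - σ))) →
      c₀ * N ≤ condN Ψ

theorem main2_of (hS : S_STEP2) (hB : S_BASE2) (hBOT : S_BOT) (hM : S_MOM) (hPAR : S_PAR2)
    (hH : S_HAT) (hR : S_REF) (hSM : S_SM) (hG : S_GK) (hD : S_DIA) (hDE : S_DE) (hTF : S_TF)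
    (hCOH : S_COH) (hLA : S_LA) (hTAIL : S_TAIL) (hCONV : S_CONV2) (hLOWC : S_LOWC)
    (hTRIAL : S_TRIAL) (hTRUNC : S_TRUNC) : S_CCORE := by
  intro n m σ g CP τ c v hn hm hmn hσ hσn hgn hCP hτ hc hv hv0 hvt
  set v₁ : ℝ := (∫⁻ z : Fin n → ℝ, v (el z)).toReal with hv₁
  have hv₁0 : 0 < v₁ := ENNReal.toReal_pos hv0 hvt
  have hv1 : ∫⁻ z : Fin n → ℝ, v (el z) ≤ ENNReal.ofReal v₁ := by
    rw [hv₁, ENNReal.ofReal_toReal hvt]
  obtain ⟨CA0, b₀, hCA0, hb₀, hla⟩ := hLA n m CP v hn hm hmn hCP.le hv hv0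
  set CA : ℝ := CA0 + 1 with hCA
  have hCApos : 0 < CA := by rw [hCA]; linarith
  obtain ⟨lam, mu, r, q, hlam0, hlm, hmu1, hr0, hmur, hlam2, hlams, hlamn, hq, lam0, δ₀, c₁, η4,
    hl00, hl01, hδ₀, hc₁, hη4, hpar⟩ :=
    hPAR n m σ g CP CA b₀ c τ v₁ hn hm hmn hσ hσn hgn hCP hCApos hb₀ hc hτ hv₁0
  have hlam1 : lam < 1 := lt_of_le_of_lt hlm hmu1
  have h1l : 0 < 1 - lam := by linarith
  refine ⟨δ₀, c₁, hδ₀, hc₁, ?_⟩
  intro δ hδ hδle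
  obtain ⟨hδ1, s, hfin⟩ := hpar δ hδ hδle
  set Λ : ℝ := lam0 * δ ^ (-(1 / m)) with hΛ
  have hΛ0 : 0 < Λ := by positivity
  set Γ : ℝ := c * δ ^ (g + n / m) * (1 + 2 * √n) ^ (-(n + σ)) with hΓ
  have hΓ0 : 0 < Γ := by positivity
  set κ₀ : ℝ := η4 * δ / 2 * ((Λ / 2) ^ n * Γ) with hκ₀
  have hκ₀0 : 0 < κ₀ := by positivity
  set r2 : ℝ := (2 : ℝ) ^ (-σ) with hr2
  have hr20 : 0 < r2 := by positivity
  have hr21 : r2 < 1 := Real.rpow_lt_one_of_one_lt_of_neg (by norm_num) (by linarith)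
  have h1r2 : 0 < 1 - r2 := by linarith
  set am : ℝ := (8 * δ + 1 / (Λ / 2) ^ n) / (1 - r2) with ham
  have ham0 : 0 < am := by positivity
  set κ₂ : ℝ := δ * v₁ * √(am * δ) * (2 : ℝ) ^ σ / ((Λ / 2) ^ n * Γ) with hκ₂
  have hκ₂0 : 0 < κ₂ := by positivity
  -- the tolerance is small on large tori
  have geo : ∀ (s κ b : ℝ), 0 < s → 0 < κ → 0 < b → ∃ J₀ : ℕ, ∀ J : ℕ, J₀ ≤ J →
      κ * (2 : ℝ) ^ (-(s * J)) ≤ b := by
    intro s κ b hs hκ hb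
    have h1 : (2 : ℝ) ^ (-s) < 1 := Real.rpow_lt_one_of_one_lt_of_neg (by norm_num) (by linarith)
    obtain ⟨J₀, hJ⟩ := exists_pow_lt_of_lt_one (div_pos hb hκ) h1
    refine ⟨J₀, fun J hJJ => ?_⟩
    have h3 : (2 : ℝ) ^ (-(s * J)) = ((2 : ℝ) ^ (-s)) ^ J := by
      rw [← Real.rpow_natCast, ← Real.rpow_mul (by norm_num)]
      congr 1
      ring
    have h4 : ((2 : ℝ) ^ (-s)) ^ J ≤ ((2 : ℝ) ^ (-s)) ^ J₀ :=
      pow_le_pow_of_le_one (by positivity) h1.le hJJ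
    rw [lt_div_iff₀ hκ] at hJ
    rw [h3]
    have h5 := mul_le_mul_of_nonneg_left h4 hκ.le
    linarith only [h5, hJ]
  obtain ⟨J₁, hJ₁⟩ := geo σ κ₀ (v₁ * δ ^ 2 / 2) hσ hκ₀0 (by positivity)
  obtain ⟨J₂, hJ₂⟩ := geo ((n - σ) / 2) κ₂ (η4 * δ / 2) (by linarith) hκ₂0 (by positivity)
  obtain ⟨J₀, hJ₀⟩ : ∃ J₀ : ℕ, J₀ = max J₁ J₂ := ⟨_, rfl⟩
  refine ⟨κ₀ * (Λ / 2) ^ σ / 2, max 1 (Λ / 2 * 2 ^ (J₀ + 3)), by positivity, ?_⟩
  intro L _ μ K hL₀ hK hPO hcost hLB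
  have hLpos : 0 < L := Fact.out
  have hL1 : 1 ≤ L := (le_max_left _ _).trans hL₀
  have hLJ : Λ / 2 * 2 ^ (J₀ + 3) ≤ L := (le_max_right _ _).trans hL₀
  have hV : (0 : ℝ) < L ^ n := by positivity
  -- the smallest scale
  have h2J : (1 : ℝ) ≤ 2 ^ (J₀ + 3) := one_le_pow₀ (by norm_num)
  have hLΛ : 2 ^ (J₀ + 3) ≤ L / (Λ / 2) := by
    rw [le_div_iff₀ (by positivity)]
    linarith
  obtain ⟨J, hJ1, hJ2⟩ := near 2 (L / (Λ / 2)) (by norm_num) (h2J.trans hLΛ)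
  have hJJ : J₀ + 3 ≤ J := by
    by_contra hcon
    have h3 : (2 : ℝ) ^ (J + 1) ≤ 2 ^ (J₀ + 3) := pow_le_pow_right₀ (by norm_num) (by omega)
    linarith
  have h2Jp : (0 : ℝ) < 2 ^ J := by positivity
  set ℓ : ℝ := L / 2 ^ J with hℓdef
  have hℓ0 : 0 < ℓ := by positivity
  have hLℓ : L = 2 ^ J * ℓ := by rw [hℓdef]; field_simp
  have hℓ1 : Λ / 2 ≤ ℓ := by
    rw [hℓdef, le_div_iff₀ h2Jp]
    rw [le_div_iff₀ (by positivity)] at hJ1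
    linarith
  have hℓ2 : ℓ ≤ Λ := by
    rw [hℓdef, div_le_iff₀ h2Jp]
    rw [div_lt_iff₀ (by positivity), pow_succ] at hJ2
    linarith
  obtain ⟨hb1, ω0, hω0, hω1, hcond⟩ := hfin ℓ hℓ1 hℓ2
  have hla' : ∀ t : ℕ, b₀ ≤ ℓ / 2 ^ t → _ := fun t ht =>
    hla L (ℓ / 2 ^ t) (2 ^ J * 2 ^ t) μ K ht (by
      push_cast
      rw [hLℓ]
      field_simp) (by
      have : 2 ^ 3 ≤ 2 ^ J := Nat.pow_le_pow_right (by norm_num) (by omega)
      have h1 : 1 ≤ 2 ^ t := Nat.one_le_two_pow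
      simpa using Nat.mul_le_mul this h1) hK hPO
  intro N hNlo hNhi Ψ hΨ hnear
  have hN0 : (0 : ℝ) ≤ N := Nat.cast_nonneg N
  -- the tolerance
  set tol : ℝ := κ₀ * (2 : ℝ) ^ (-(σ * J)) with htol
  have htol0 : 0 < tol := by positivity
  have htol1 : tol ≤ v₁ * δ ^ 2 / 2 := hJ₁ J (by omega)
  have htolV : κ₀ * (Λ / 2) ^ σ / 2 * L ^ (n - σ) ≤ tol * L ^ n / 2 := by
    have h1 : L ^ ((n : ℝ) - σ) = L ^ n * (2 : ℝ) ^ (-(σ * J)) * ℓ ^ (-σ) := by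
      rw [Real.rpow_sub hLpos, Real.rpow_natCast, div_eq_mul_inv, ← Real.rpow_neg hLpos.le]
      nth_rewrite 2 [hLℓ]
      rw [Real.mul_rpow h2Jp.le hℓ0.le, ← Real.rpow_natCast 2 J, ← Real.rpow_mul (by norm_num)]
      rw [show (J : ℝ) * -σ = -(σ * J) by ring]
      ring
    have h2 : (Λ / 2) ^ σ * ℓ ^ (-σ) ≤ 1 := by
      rw [Real.rpow_neg hℓ0.le, ← div_eq_mul_inv, div_le_one (by positivity)]
      exact Real.rpow_le_rpow (by positivity) hℓ1 hσ.le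
    rw [h1]
    calc κ₀ * (Λ / 2) ^ σ / 2 * (L ^ n * (2 : ℝ) ^ (-(σ * J)) * ℓ ^ (-σ))
        = tol * L ^ n / 2 * ((Λ / 2) ^ σ * ℓ ^ (-σ)) := by rw [htol]; ring
      _ ≤ tol * L ^ n / 2 * 1 := by gcongr
      _ = tol * L ^ n / 2 := mul_one _
  -- the constant wave function
  obtain ⟨Φ₀, hΦ₀, hΦ₀e⟩ := hTRIAL n L v₁ μ K v N hv hv₁0.le hv1
  -- finiteness of the energy
  have hfinite : enN μ K v Ψ ≠ ⊤ := by
    have h2 : enN μ K v Φ₀ + ENNReal.ofReal (κ₀ * (Λ / 2) ^ σ / 2 * L ^ ((n : ℝ) - σ)) < ⊤ :=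
      ENNReal.add_lt_top.2 ⟨lt_of_le_of_lt hΦ₀e ENNReal.ofReal_lt_top, ENNReal.ofReal_lt_top⟩
    exact (lt_of_le_of_lt (hnear Φ₀ hΦ₀) h2).ne
  -- it is enough to consider bounded wave functions
  have red : ∀ ε : ℝ, 0 < ε → c₁ * N ≤ condN Ψ + ε := by
    intro ε hε
    set ε' : ℝ := min ε (tol * L ^ n / 2) with hε'
    have hε'0 : 0 < ε' := lt_min hε (by positivity)
    obtain ⟨Ψ', hΨ', hΨe, hΨc⟩ := hTRUNC n L μ K v N Ψ ε' hK hv hε'0 hΨ hfinite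
    have hnear' : ∀ Φ : (Fin N → Tor n L) → ℂ, IsWf Φ →
        enN μ K v Ψ' ≤ enN μ K v Φ + ENNReal.ofReal (tol * L ^ n) := by
      intro Φ hΦ
      calc enN μ K v Ψ' ≤ enN μ K v Ψ + ENNReal.ofReal ε' := hΨe
        _ ≤ enN μ K v Φ + ENNReal.ofReal (κ₀ * (Λ / 2) ^ σ / 2 * L ^ ((n : ℝ) - σ)) +
            ENNReal.ofReal ε' := add_le_add (hnear Φ hΦ) le_rfl
        _ = enN μ K v Φ + ENNReal.ofReal (κ₀ * (Λ / 2) ^ σ / 2 * L ^ ((n : ℝ) - σ) + ε') := by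
            rw [add_assoc, ← ENNReal.ofReal_add (by positivity) hε'0.le]
        _ ≤ enN μ K v Φ + ENNReal.ofReal (tol * L ^ n) := by
            refine add_le_add le_rfl (ENNReal.ofReal_le_ofReal ?_)
            have h9 : ε' ≤ tol * L ^ n / 2 := min_le_right _ _
            linarith only [h9, htolV]
    have hfin' : enN μ K v Ψ' ≠ ⊤ :=
      (lt_of_le_of_lt hΨe (ENNReal.add_lt_top.2 ⟨lt_top_iff_ne_top.2 hfinite,
        ENNReal.ofReal_lt_top⟩)).ne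
    set E : ℝ := (enN μ K v Ψ').toReal with hE
    have hE0 : 0 ≤ E := ENNReal.toReal_nonneg
    have hEe : enN μ K v Ψ' = ENNReal.ofReal E := (ENNReal.ofReal_toReal hfin').symm
    have hEle : E ≤ (N : ℝ) ^ 2 * v₁ / (2 * L ^ n) + tol * L ^ n := by
      have h1 := (hnear' Φ₀ hΦ₀).trans (add_le_add_left hΦ₀e _)
      rw [hEe, ← ENNReal.ofReal_add (by positivity) (by positivity),
        ENNReal.ofReal_le_ofReal_iff (by positivity)] at h1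
      exact h1
    set e : ℝ := max 0 (E - tol * L ^ n) with he
    have he0 : 0 ≤ e := le_max_left _ _
    have hEe' : E - e ≤ tol * L ^ n := by
      have : E - tol * L ^ n ≤ e := le_max_right _ _
      linarith
    set Ca : ℝ := N * v₁ / L ^ n with hCa
    have hCa0 : 0 ≤ Ca := by positivity
    have hNV : (N : ℝ) / L ^ n ≤ δ := by
      rw [div_le_iff₀ hV]
      exact hNhi
    have hCa1 : Ca ≤ δ * v₁ := by
      rw [hCa, mul_div_right_comm]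
      gcongr
    have hlow := hLOWC n L v₁ μ K v N e hK hv hv₁0.le hv1 (by
      intro Φ hΦ
      rcases le_total (E - tol * L ^ n) 0 with h1 | h1
      · rw [he, max_eq_left h1, ENNReal.ofReal_zero]
        exact zero_le
      · rw [he, max_eq_right h1, ENNReal.ofReal_sub _ (by positivity), ← hEe]
        exact tsub_le_iff_right.2 (hnear' Φ hΦ))
    -- Fock space
    obtain ⟨hcn0, F, hF, hFs, hF1, hFN, hFe, hFc⟩ := hCONV n L μ K v N Ψ' hK hv hΨ'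
    rw [hEe] at hFe
    -- the chain of scales
    have hℓb : b₀ ≤ ℓ := by
      have h1 : ℓ / 2 ^ s ≤ ℓ := div_le_self hℓ0.le (one_le_pow₀ (by norm_num))
      linarith
    have hbs : 0 < (ℓ / 2 ^ s) ^ n := by positivity
    have hcoh : ∀ F : Multiset (Tor n L) → ℂ, EB F → ENNReal.ofReal (ℓ ^ n) * nuE volume F ≤
        ∑ i, nE volume (ag volume (hf n L ℓ (2 ^ J) i) F) +
          ENNReal.ofReal (ℓ ^ n * (CP * 2 ^ (n + m) * ℓ ^ m)) * en μ K v F := by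
      intro F hF
      have h2q : 2 ≤ 2 ^ J := by
        calc 2 = 2 ^ 1 := rfl
          _ ≤ 2 ^ J := Nat.pow_le_pow_right (by norm_num) (by omega)
      refine (hCOH n L ℓ m CP (2 ^ J) μ K hK hCP.le hPO h2q (by rw [hLℓ]; push_cast; rfl)
        (by linarith) F hF).trans ?_
      gcongr
      · exact le_rfl
      · exact le_self_add
    have hKM : 1 ≤ 4 ^ n / (ℓ / 2 ^ s) ^ n * ℓ ^ n := by
      rw [div_mul_eq_mul_div, one_le_div hbs, ← mul_pow]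
      apply pow_le_pow_left₀ (by positivity)
      have h1 : ℓ / 2 ^ s ≤ ℓ := div_le_self hℓ0.le (one_le_pow₀ (by norm_num))
      linarith
    have htail : ∀ F : Multiset (Tor n L) → ℂ, EB F →
        ∑ i, tl volume (hf n L ℓ (2 ^ J) i) (4 ^ n / (ℓ / 2 ^ s) ^ n * ℓ ^ n) F ≤
          ENNReal.ofReal (CA * (ℓ / 2 ^ s) ^ n) * en μ K v F := by
      intro F hF
      have h2s : (2 : ℝ) ^ s * (ℓ / 2 ^ s) = ℓ := by field_simp
      have h1 := hTAIL n L (ℓ / 2 ^ s) (2 ^ J) s Nat.one_le_two_pow (by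
        push_cast
        rw [hLℓ]
        field_simp) F hF
      rw [h2s] at h1
      refine (h1.trans (hla' s hb1 F hF).1).trans ?_
      gcongr
      rw [hCA]
      linarith
    have hXX : ∀ j : ℕ, j ≤ J → μ * (∑ c : Fin n, ⨆ k : ℕ, 4 ^ k *
        ENNReal.ofReal (sm n (2 ^ j * ℓ) (Pi.single c ((2 : ℝ)⁻¹ ^ k)))) +
        2⁻¹ * ∫⁻ z, K z * ENNReal.ofReal (sm n (2 ^ j * ℓ) z) ≤
          ENNReal.ofReal (64 * n / lam0 ^ 2 * (τ * δ)) := by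
      intro j _
      refine cost n m δ lam0 τ (2 ^ j * ℓ) hδ hl00 hl01 hn ?_ μ K hcost
      have h1 : (1 : ℝ) ≤ 2 ^ j := one_le_pow₀ (by norm_num)
      calc lam0 * δ ^ (-(1 / m)) / 2 ≤ ℓ := hℓ1
        _ = 1 * ℓ := (one_mul _).symm
        _ ≤ 2 ^ j * ℓ := by gcongr
    set Q : ℝ := L ^ n * condN Ψ' with hQ
    have hQ0 : 0 ≤ Q := by positivity
    have hineq := core2 hS hB hBOT hM hH hR hSM hG hD hDE hTF hℓ0 hLℓ hK hv hv₁0.le hv1 he0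
      hE0 hQ0 htol0.le hCa0 hEe' hF hFs hF1 hFN hFe.le (by rw [hFc]) hlow
      (P := CP * 2 ^ (n + m) * ℓ ^ m) (Tl := CA * (ℓ / 2 ^ s) ^ n)
      (K' := 4 ^ n / (ℓ / 2 ^ s) ^ n) (by positivity) (by positivity) (by positivity) hKM hcoh
      htail (σ := σ) (Γ := Γ) (X := 64 * n / lam0 ^ 2 * (τ * δ)) hΓ0 (by positivity) hσ
      (fun j _ _ => kern n m σ g δ lam0 c ℓ hδ hσ hl01 hc hℓ0 hℓ2 K hLB j) hXX hNhi hCa1 hω0
      hlam0 hlm hmu1 hr0 hmur hlam2 hlams hlamn rfl rfl rfl rfl rfl rfl rfl hq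
    have hℓn : (Λ / 2) ^ n ≤ ℓ ^ n := by gcongr
    have hTle : tol * (2 : ℝ) ^ (σ * J) / (ℓ ^ n * Γ) ≤ η4 * δ / 2 := by
      have h1 : (2 : ℝ) ^ (-(σ * J)) * (2 : ℝ) ^ (σ * J) = 1 := by
        rw [← Real.rpow_add (by norm_num)]; simp
      rw [div_le_iff₀ (by positivity)]
      calc tol * (2 : ℝ) ^ (σ * J) = κ₀ * ((2 : ℝ) ^ (-(σ * J)) * (2 : ℝ) ^ (σ * J)) := by
            rw [htol]; ring
        _ = η4 * δ / 2 * ((Λ / 2) ^ n * Γ) := by rw [h1, mul_one]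
        _ ≤ η4 * δ / 2 * (ℓ ^ n * Γ) := by gcongr
    have hωδ : ω0 / (1 - lam) ≤ δ := by
      rw [div_le_iff₀ h1l]
      linarith
    have hω2 : ω0 ≤ δ := by
      have : (1 - lam) * δ ≤ 1 * δ := by gcongr; linarith
      linarith
    have ha2 : (4 * (δ + ω0 / (1 - lam)) + 1 / ℓ ^ n) / (1 - (2 : ℝ) ^ (-σ)) ≤ am := by
      rw [ham, ← hr2]
      have h1 : 1 / ℓ ^ n ≤ 1 / (Λ / 2) ^ n := by gcongr
      have h2 : 4 * (δ + ω0 / (1 - lam)) ≤ 8 * δ := by linarith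
      exact div_le_div_of_nonneg_right (add_le_add h2 h1) h1r2.le
    have hT2le : Ca * √((4 * (δ + ω0 / (1 - lam)) + 1 / ℓ ^ n) / (1 - (2 : ℝ) ^ (-σ)) * ω0) *
        (2 : ℝ) ^ σ / (ℓ ^ n * Γ) * (2 : ℝ) ^ (-((n - σ) / 2 * J)) ≤ η4 * δ / 2 := by
      refine le_trans ?_ (hJ₂ J (by omega))
      rw [hκ₂]
      gcongr
    have hEV : E / L ^ n ≤ v₁ * δ ^ 2 := by
      rw [div_le_iff₀ hV]
      have h1 : (N : ℝ) ^ 2 * v₁ / (2 * L ^ n) ≤ v₁ * δ ^ 2 / 2 * L ^ n := by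
        rw [div_le_iff₀ (by positivity)]
        have h2 : (N : ℝ) ^ 2 ≤ (δ * L ^ n) ^ 2 := pow_le_pow_left₀ hN0 hNhi 2
        calc (N : ℝ) ^ 2 * v₁ ≤ (δ * L ^ n) ^ 2 * v₁ := by gcongr
          _ = _ := by ring
      have h3 : tol * L ^ n ≤ v₁ * δ ^ 2 / 2 * L ^ n := by gcongr
      linarith
    have hTT : tol * (2 : ℝ) ^ (σ * J) / (ℓ ^ n * Γ) +
        Ca * √((4 * (δ + ω0 / (1 - lam)) + 1 / ℓ ^ n) / (1 - (2 : ℝ) ^ (-σ)) * ω0) *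
        (2 : ℝ) ^ σ / (ℓ ^ n * Γ) * (2 : ℝ) ^ (-((n - σ) / 2 * J)) ≤ η4 * δ := by
      linarith
    have hcond' := hcond _ _ _ _ _ _ (Q / (L ^ n) ^ 2) (E / L ^ n)
      (by positivity) (by positivity) hEV hTT rfl rfl rfl rfl rfl (by
        have h1 := hNlo.trans hineq
        exact le_of_mul_le_mul_right h1 hV)
    have hcN : c₁ * δ * L ^ n ≤ condN Ψ' := by
      have h1 : Q / (L ^ n) ^ 2 = condN Ψ' / L ^ n := by rw [hQ]; field_simp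
      rw [h1, le_div_iff₀ hV] at hcond'
      exact hcond'
    calc c₁ * N ≤ c₁ * (δ * L ^ n) := by gcongr
      _ = c₁ * δ * L ^ n := by ring
      _ ≤ condN Ψ' := hcN
      _ ≤ condN Ψ + ε' := hΨc
      _ ≤ condN Ψ + ε := by
          have := min_le_left ε (tol * L ^ n / 2)
          linarith
  exact le_of_forall_pos_le_add fun ε hε => red ε hε

end

end Pool.Agent.TH268.CC
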