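import Pool.Agent.TH268.CC.Stm
import Pool.Agent.W193.CB.Meas
import Pool.Agent.W337.CB.Mecke

/-!
# CC-MOM: number fluctuations of the measurement
-/

set_option autoImplicit false

open MeasureTheory
open scoped ENNReal

namespace Pool.Agent.TH268.CC

open Pool.Agent.W761.CB Pool.Agent.W193.CB

noncomputable section

section basic

variable {X : Type} [MeasurableSpace X]

lemma mLAM : S_LAM := Pool.Agent.W366.CB.proof_lam Pool.Agent.W975.CB.proof_ms

lemma mMECKE : S_MECKE := Pool.Agent.W337.CB.proof_mecke Pool.Agent.W975.CB.proof_ms mLAM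

lemma cardE_meas : Measurable fun γ : Cf X => (Multiset.card (ms γ) : ℝ≥0∞) := by
  obtain ⟨-, -, -, -, m5, -, -⟩ := Pool.Agent.W975.CB.proof_ms X
  have h1 := m5 Unit (fun _ _ => 1) measurable_const
  have h2 := h1.comp (measurable_const.prodMk measurable_id (α := Cf X) (f := fun _ => ()))
  simpa only [Function.comp_def, Multiset.map_const', Multiset.sum_replicate, nsmul_eq_mul,
    mul_one, id] using h2

lemma card_meas : Measurable fun γ : Cf X => Multiset.card (ms γ) := by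
  have h := (cardE_meas (X := X)).ennreal_toReal
  simp only [ENNReal.toReal_natCast] at h
  have h2 := Nat.measurable_floor.comp h
  simpa only [Function.comp_def, Nat.floor_natCast] using h2

/-- pair density -/
def pp (ν : Measure X) (G : Multiset X → ℂ) : ℝ≥0∞ :=
  ∫⁻ x, ∫⁻ y, nE ν (an y (an x G)) ∂ν ∂ν

lemma nuE_eq (ν : Measure X) [IsFiniteMeasure ν] {G : Multiset X → ℂ} (hG : EB G) :
    nuE ν G = ∫⁻ γ, (Multiset.card (ms γ) : ℝ≥0∞) * ‖G (ms γ)‖ₑ ^ 2 ∂(lam ν) := by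
  have h := mMECKE X ν (fun _ S => ‖G S‖ₑ ^ 2) ((hG.meas.comp measurable_snd).enorm.pow_const 2)
  simp only [Multiset.map_const', Multiset.sum_replicate, nsmul_eq_mul] at h
  exact h.symm

lemma pp_eq (ν : Measure X) [IsFiniteMeasure ν] {G : Multiset X → ℂ} (hG : EB G) :
    pp ν G = ∫⁻ γ, (Multiset.card (ms γ) : ℝ≥0∞) * (((Multiset.card (ms γ) - 1 : ℕ) : ℝ≥0∞) *
      ‖G (ms γ)‖ₑ ^ 2) ∂(lam ν) := by
  have m1 : Measurable fun γ : Cf X => (((Multiset.card (ms γ) - 1 : ℕ) : ℝ≥0∞) *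
      ‖G (ms γ)‖ₑ ^ 2) := by
    refine Measurable.mul ?_ (hG.meas.enorm.pow_const 2)
    exact (measurable_from_top (f := fun n : ℕ => (((n - 1 : ℕ)) : ℝ≥0∞))).comp card_meas
  have h := mMECKE X ν (fun _ S => ((Multiset.card S - 1 : ℕ) : ℝ≥0∞) * ‖G S‖ₑ ^ 2)
    (m1.comp measurable_snd)
  simp only [Multiset.map_const', Multiset.sum_replicate, nsmul_eq_mul] at h
  rw [h]
  unfold pp
  refine lintegral_congr fun x => ?_
  have h2 := nuE_eq ν (EB_an hG x)
  simp only [Multiset.card_cons, Nat.add_sub_cancel]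
  exact h2

lemma m2_eq (ν : Measure X) [IsFiniteMeasure ν] {G : Multiset X → ℂ} (hG : EB G) {t : ℝ}
    (ht : 0 ≤ t) : m2 ν t G + ENNReal.ofReal (2 * t) * nuE ν G =
      pp ν G + nuE ν G + ENNReal.ofReal (t ^ 2) * nE ν G := by
  have mG := hG.meas.enorm.pow_const 2
  have mc := cardE_meas (X := X)
  have mr : Measurable fun γ : Cf X => (Multiset.card (ms γ) : ℝ) :=
    (measurable_from_top (f := fun n : ℕ => (n : ℝ))).comp card_meas
  have m1 : Measurable fun γ : Cf X => (Multiset.card (ms γ) : ℝ≥0∞) *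
      (((Multiset.card (ms γ) - 1 : ℕ) : ℝ≥0∞) * ‖G (ms γ)‖ₑ ^ 2) := by
    refine mc.mul (Measurable.mul ?_ mG)
    exact (measurable_from_top (f := fun n : ℕ => (((n - 1 : ℕ)) : ℝ≥0∞))).comp card_meas
  have m2' : Measurable fun γ : Cf X => (Multiset.card (ms γ) : ℝ≥0∞) * ‖G (ms γ)‖ₑ ^ 2 :=
    mc.mul mG
  have m3 : Measurable fun γ : Cf X => (Multiset.card (ms γ) : ℝ≥0∞) *
      (((Multiset.card (ms γ) - 1 : ℕ) : ℝ≥0∞) * ‖G (ms γ)‖ₑ ^ 2) +
      (Multiset.card (ms γ) : ℝ≥0∞) * ‖G (ms γ)‖ₑ ^ 2 := m1.add m2'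
  rw [pp_eq ν hG, nuE_eq ν hG]
  unfold m2 nE
  rw [← lintegral_const_mul _ m2', ← lintegral_const_mul _ mG, ← lintegral_add_right _
    (m2'.const_mul _), ← lintegral_add_left m1, ← lintegral_add_left m3]
  refine lintegral_congr fun γ => ?_
  generalize Multiset.card (ms γ) = n
  have e1 : ENNReal.ofReal ((t - n) ^ 2) + ENNReal.ofReal (2 * t) * n =
      n * ((n - 1 : ℕ) : ℝ≥0∞) + n + ENNReal.ofReal (t ^ 2) := by
    have hn : (n : ℝ≥0∞) = ENNReal.ofReal n := (ENNReal.ofReal_natCast n).symm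
    have hn1 : (((n - 1 : ℕ)) : ℝ≥0∞) = ENNReal.ofReal ((n - 1 : ℕ) : ℝ) :=
      (ENNReal.ofReal_natCast _).symm
    rw [hn, hn1, ← ENNReal.ofReal_mul (by positivity), ← ENNReal.ofReal_mul (by positivity),
      ← ENNReal.ofReal_add (by positivity) (by positivity),
      ← ENNReal.ofReal_add (by positivity) (by positivity),
      ← ENNReal.ofReal_add (by positivity) (by positivity)]
    congr 1
    rcases n with _ | n
    · simp
    · push_cast
      ring
  have e2 : ENNReal.ofReal ((t - n) ^ 2) * ‖G (ms γ)‖ₑ ^ 2 +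
      ENNReal.ofReal (2 * t) * (n * ‖G (ms γ)‖ₑ ^ 2) =
      (ENNReal.ofReal ((t - n) ^ 2) + ENNReal.ofReal (2 * t) * n) * ‖G (ms γ)‖ₑ ^ 2 := by ring
  rw [e2, e1]
  ring

/-- the square of the norm of a symmetrised product -/
lemma symsq (ν : Measure X) [IsFiniteMeasure ν] {w f : X → ℂ} (hw : Measurable w)
    (hf : Measurable f) (hwb : ∃ K : ℝ, ∀ x, ‖w x‖ ≤ K) (hfb : ∃ K : ℝ, ∀ x, ‖f x‖ ≤ K) :
    ∫⁻ p, ‖w p.1 * f p.2 + w p.2 * f p.1‖ₑ ^ 2 ∂(ν.prod ν) =
      2 * ((∫⁻ x, ‖w x‖ₑ ^ 2 ∂ν) * ∫⁻ x, ‖f x‖ₑ ^ 2 ∂ν) +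
        2 * ‖∫ x, (starRingEnd ℂ) (w x) * f x ∂ν‖ₑ ^ 2 := by
  obtain ⟨K, hK⟩ := hwb
  obtain ⟨K', hK'⟩ := hfb
  have iw : Integrable (fun x => Complex.normSq (w x)) ν := by
    refine Integrable.of_bound (Complex.continuous_normSq.measurable.comp hw).aestronglyMeasurable
      (K ^ 2) (Filter.Eventually.of_forall fun x => ?_)
    rw [Real.norm_of_nonneg (Complex.normSq_nonneg _), ← Complex.sq_norm]
    exact pow_le_pow_left₀ (norm_nonneg _) (hK x) 2
  have if' : Integrable (fun x => Complex.normSq (f x)) ν := by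
    refine Integrable.of_bound (Complex.continuous_normSq.measurable.comp hf).aestronglyMeasurable
      (K' ^ 2) (Filter.Eventually.of_forall fun x => ?_)
    rw [Real.norm_of_nonneg (Complex.normSq_nonneg _), ← Complex.sq_norm]
    exact pow_le_pow_left₀ (norm_nonneg _) (hK' x) 2
  have mh : Measurable fun x => (starRingEnd ℂ) (w x) * f x :=
    (Complex.continuous_conj.measurable.comp hw).mul hf
  have ih : Integrable (fun x => (starRingEnd ℂ) (w x) * f x) ν := by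
    refine Integrable.of_bound mh.aestronglyMeasurable
      (K * K') (Filter.Eventually.of_forall fun x => ?_)
    rw [norm_mul, RCLike.norm_conj]
    exact mul_le_mul (hK x) (hK' x) (norm_nonneg _) ((norm_nonneg _).trans (hK x))
  have ih' : Integrable (fun x => w x * (starRingEnd ℂ) (f x)) ν := by
    refine Integrable.of_bound (hw.mul
      (Complex.continuous_conj.measurable.comp hf)).aestronglyMeasurable
      (K * K') (Filter.Eventually.of_forall fun x => ?_)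
    rw [norm_mul, RCLike.norm_conj]
    exact mul_le_mul (hK x) (hK' x) (norm_nonneg _) ((norm_nonneg _).trans (hK x))
  have i1 : Integrable (fun p : X × X => Complex.normSq (w p.1) * Complex.normSq (f p.2))
      (ν.prod ν) := iw.mul_prod if'
  have i2 : Integrable (fun p : X × X => Complex.normSq (f p.1) * Complex.normSq (w p.2))
      (ν.prod ν) := if'.mul_prod iw
  have i3 : Integrable (fun p : X × X => (w p.1 * (starRingEnd ℂ) (f p.1)) *
      ((starRingEnd ℂ) (w p.2) * f p.2)) (ν.prod ν) := ih'.mul_prod ih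
  have e : ∀ p : X × X, Complex.normSq (w p.1 * f p.2 + w p.2 * f p.1) =
      Complex.normSq (w p.1) * Complex.normSq (f p.2) +
        Complex.normSq (f p.1) * Complex.normSq (w p.2) +
        2 * ((w p.1 * (starRingEnd ℂ) (f p.1)) * ((starRingEnd ℂ) (w p.2) * f p.2)).re := by
    intro p
    simp only [Complex.normSq_apply, Complex.add_re, Complex.add_im, Complex.mul_re,
      Complex.mul_im, Complex.conj_re, Complex.conj_im]
    ring
  have hconj : ∫ x, w x * (starRingEnd ℂ) (f x) ∂ν =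
      (starRingEnd ℂ) (∫ x, (starRingEnd ℂ) (w x) * f x ∂ν) := by
    rw [← integral_conj]
    refine integral_congr_ae (Filter.Eventually.of_forall fun x => ?_)
    simp
  have key : ∫ p, Complex.normSq (w p.1 * f p.2 + w p.2 * f p.1) ∂(ν.prod ν) =
      2 * ((∫ x, Complex.normSq (w x) ∂ν) * ∫ x, Complex.normSq (f x) ∂ν) +
        2 * Complex.normSq (∫ x, (starRingEnd ℂ) (w x) * f x ∂ν) := by
    simp only [e]
    have i3r : Integrable (fun p : X × X => ((w p.1 * (starRingEnd ℂ) (f p.1)) *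
      ((starRingEnd ℂ) (w p.2) * f p.2)).re) (ν.prod ν) := i3.re
    have e3 : ∫ p, ((w p.1 * (starRingEnd ℂ) (f p.1)) *
        ((starRingEnd ℂ) (w p.2) * f p.2)).re ∂(ν.prod ν) =
        (∫ p, ((w p.1 * (starRingEnd ℂ) (f p.1)) *
        ((starRingEnd ℂ) (w p.2) * f p.2)) ∂(ν.prod ν)).re := integral_re i3
    have i12 : Integrable (fun p : X × X => Complex.normSq (w p.1) * Complex.normSq (f p.2) +
        Complex.normSq (f p.1) * Complex.normSq (w p.2)) (ν.prod ν) := i1.add i2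
    rw [integral_add i12 (i3r.const_mul 2), integral_add i1 i2, integral_const_mul, e3,
      integral_prod_mul (fun x => Complex.normSq (w x)) (fun x => Complex.normSq (f x)),
      integral_prod_mul (fun x => Complex.normSq (f x)) (fun x => Complex.normSq (w x)),
      integral_prod_mul (fun x => w x * (starRingEnd ℂ) (f x))
        (fun x => (starRingEnd ℂ) (w x) * f x), hconj]
    rw [mul_comm ((starRingEnd ℂ) _), Complex.mul_conj, Complex.ofReal_re]
    ring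
  have itot : Integrable (fun p : X × X => Complex.normSq (w p.1 * f p.2 + w p.2 * f p.1))
      (ν.prod ν) := by
    simp only [e]
    exact (i1.add i2).add (i3.re.const_mul 2)
  simp only [en2]
  rw [← ofReal_integral_eq_lintegral_ofReal itot
      (Filter.Eventually.of_forall fun _ => Complex.normSq_nonneg _),
    ← ofReal_integral_eq_lintegral_ofReal iw
      (Filter.Eventually.of_forall fun _ => Complex.normSq_nonneg _),
    ← ofReal_integral_eq_lintegral_ofReal if'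
      (Filter.Eventually.of_forall fun _ => Complex.normSq_nonneg _), key]
  have n1 : 0 ≤ ∫ x, Complex.normSq (w x) ∂ν := integral_nonneg fun _ => Complex.normSq_nonneg _
  have n2 : 0 ≤ ∫ x, Complex.normSq (f x) ∂ν := integral_nonneg fun _ => Complex.normSq_nonneg _
  rw [ENNReal.ofReal_add (by positivity) (mul_nonneg (by norm_num) (Complex.normSq_nonneg _)),
    ENNReal.ofReal_mul (by norm_num), ENNReal.ofReal_mul n1, ENNReal.ofReal_mul (by norm_num)]
  norm_num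

/-- Cauchy-Schwarz -/
lemma cs1 (ν : Measure X) {u : X → ℝ} {f : X → ℂ} (hu : Measurable u)
    (hf : Measurable f) (hu0 : ∀ x, 0 ≤ u x) :
    ‖∫ x, (u x : ℂ) * f x ∂ν‖ₑ ^ 2 ≤
      (∫⁻ x, ENNReal.ofReal (u x) ∂ν) * ∫⁻ x, ENNReal.ofReal (u x) * ‖f x‖ₑ ^ 2 ∂ν := by
  have h1 : ‖∫ x, (u x : ℂ) * f x ∂ν‖ₑ ≤ ∫⁻ x, ENNReal.ofReal (u x) * ‖f x‖ₑ ∂ν := by
    refine (enorm_integral_le_lintegral_enorm _).trans (le_of_eq ?_)
    refine lintegral_congr fun x => ?_
    rw [enorm_mul]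
    congr 1
    rw [← ofReal_norm, Complex.norm_real, Real.norm_of_nonneg (hu0 x)]
  have h2 := ENNReal.lintegral_mul_norm_pow_le (μ := ν) (f := fun x => ENNReal.ofReal (u x))
    (g := fun x => ENNReal.ofReal (u x) * ‖f x‖ₑ ^ 2) hu.ennreal_ofReal.aemeasurable
    (hu.ennreal_ofReal.mul (hf.enorm.pow_const 2)).aemeasurable (p := 1 / 2) (q := 1 / 2)
    (by norm_num) (by norm_num) (by norm_num)
  have e : ∀ x, ENNReal.ofReal (u x) ^ (1 / 2 : ℝ) *
      (ENNReal.ofReal (u x) * ‖f x‖ₑ ^ 2) ^ (1 / 2 : ℝ) = ENNReal.ofReal (u x) * ‖f x‖ₑ := by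
    intro x
    rw [ENNReal.mul_rpow_of_nonneg _ _ (by norm_num), ← mul_assoc,
      ← ENNReal.rpow_add_of_nonneg _ _ (by norm_num) (by norm_num), ← ENNReal.rpow_natCast,
      ← ENNReal.rpow_mul]
    norm_num
  simp only [e] at h2
  have h3 := pow_le_pow_left' (h1.trans h2) 2
  refine h3.trans (le_of_eq ?_)
  rw [mul_pow, ← ENNReal.rpow_natCast, ← ENNReal.rpow_mul, ← ENNReal.rpow_natCast,
    ← ENNReal.rpow_mul]
  norm_num

lemma cons_meas {F : Multiset X → ℂ} (hF : EB F) :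
    Measurable fun p : X × Cf X => F (p.1 ::ₘ ms p.2) :=
  (ebc X 0 F F hF hF).2.2.2.2.1

lemma cons_meas' {F : Multiset X → ℂ} (hF : EB F) (γ : Cf X) :
    Measurable fun x : X => F (x ::ₘ ms γ) :=
  (cons_meas hF).comp (measurable_id.prodMk measurable_const)

lemma cons_bdd {F : Multiset X → ℂ} (hF : EB F) (S : Multiset X) :
    ∃ K : ℝ, ∀ x, ‖F (x ::ₘ S)‖ ≤ K := by
  obtain ⟨C, c, -, -, h⟩ := (ebc X 0 F F hF hF).2.2.2.2.2.2.2.1
  exact ⟨_, fun x => h x S⟩

lemma nuE_swap (ν : Measure X) [IsFiniteMeasure ν] {F : Multiset X → ℂ} (hF : EB F) :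
    ∫⁻ γ, ∫⁻ x, ‖F (x ::ₘ ms γ)‖ₑ ^ 2 ∂ν ∂(lam ν) = nuE ν F := by
  haveI : IsFiniteMeasure (lam ν) := (mLAM X ν).2.1
  unfold nuE nE an
  rw [lintegral_lintegral_swap]
  exact (((cons_meas hF).comp measurable_swap).enorm.pow_const 2).aemeasurable

/-- the amplitudes are bounded by the number of particles -/
lemma ag_sum (ν : Measure X) [IsFiniteMeasure ν] {I : Type} [Fintype I] {u : I → X → ℝ} {M : ℝ}
    (um : ∀ i, Measurable (u i)) (u0 : ∀ i x, 0 ≤ u i x) (us : ∀ x, ∑ i, u i x = 1)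
    (u1 : ∀ i x, u i x ≤ 1) (hM : ∀ i, ∫ x, u i x ∂ν = M) {F : Multiset X → ℂ} (hF : EB F) :
    ∑ i, nE ν (ag ν (u i) F) ≤ ENNReal.ofReal M * nuE ν F := by
  haveI : IsFiniteMeasure (lam ν) := (mLAM X ν).2.1
  have hM' : ∀ i, ∫⁻ x, ENNReal.ofReal (u i x) ∂ν = ENNReal.ofReal M := by
    intro i
    rw [← hM i, ofReal_integral_eq_lintegral_ofReal _ (Filter.Eventually.of_forall (u0 i))]
    refine Integrable.of_bound (um i).aestronglyMeasurable 1
      (Filter.Eventually.of_forall fun x => ?_)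
    rw [Real.norm_of_nonneg (u0 i x)]
    exact u1 i x
  have m1 : ∀ i, Measurable fun γ : Cf X => ‖ag ν (u i) F (ms γ)‖ₑ ^ 2 := by
    intro i
    refine (((ebc X ν F F hF hF).2.2.2.1 (u i) (um i) ⟨1, fun x => ?_⟩).meas).enorm.pow_const 2
    rw [abs_of_nonneg (u0 i x)]
    exact u1 i x
  have m2 : ∀ γ : Cf X, ∀ i, Measurable fun x => ENNReal.ofReal (u i x) *
      ‖F (x ::ₘ ms γ)‖ₑ ^ 2 := by
    intro γ i
    exact (um i).ennreal_ofReal.mul ((cons_meas' hF γ).enorm.pow_const 2)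
  rw [← nuE_swap ν hF]
  unfold nE
  rw [← lintegral_finsetSum _ fun i _ => m1 i]
  rw [← lintegral_const_mul]
  · refine lintegral_mono fun γ => ?_
    calc ∑ i, ‖ag ν (u i) F (ms γ)‖ₑ ^ 2 ≤
        ∑ i, ENNReal.ofReal M * ∫⁻ x, ENNReal.ofReal (u i x) * ‖F (x ::ₘ ms γ)‖ₑ ^ 2 ∂ν := by
          refine Finset.sum_le_sum fun i _ => ?_
          rw [← hM' i]
          exact cs1 ν (um i) (cons_meas' hF γ) (u0 i)
      _ = ENNReal.ofReal M * ∫⁻ x, ‖F (x ::ₘ ms γ)‖ₑ ^ 2 ∂ν := by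
          rw [← Finset.mul_sum, ← lintegral_finsetSum _ fun i _ => m2 γ i]
          congr 1
          refine lintegral_congr fun x => ?_
          rw [← Finset.sum_mul, ← ENNReal.ofReal_sum_of_nonneg fun i _ => u0 i x, us x,
            ENNReal.ofReal_one, one_mul]
  · exact (((cons_meas hF).comp measurable_swap).enorm.pow_const 2).lintegral_prod_right'

end basic

section main

variable {X : Type} [MeasurableSpace X] {I : Type} [Fintype I] {u : I → X → ℝ} {ω κ : ℝ}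

lemma pair_eq (H : Hyp u ω κ) (ν : Measure X) [IsFiniteMeasure ν] {F : Multiset X → ℂ}
    (hF : EB F) (x y : X) : ∑' k, nE ν (an y (an x (LL ν u κ k F))) =
      nE ν (an y (an x F)) +
        J (fun s : I × Bool → ℝ => nE ν
          (fun S => wv u κ s x * F (y ::ₘ S) + wv u κ s y * F (x ::ₘ S))) +
        J (fun s : I × Bool → ℝ => ‖wv u κ s x‖ₑ ^ 2 * ‖wv u κ s y‖ₑ ^ 2) * nE ν F := by
  have e : ∀ k, nE ν (an y (an x (LL ν u κ k F))) =
      nE ν (Tk k (fun s => (win s : ℂ)) (fun s S => DD ν (wv u κ s) F (x ::ₘ y ::ₘ S))) :=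
    fun k => rfl
  simp only [e]
  rw [sumJ H.PAR H.WIN ν (((H.jb ν hF).shift x).shift y)]
  have hx := EB_an hF x
  have hy := EB_an hF y
  have hxy := EB_an hx y
  have e2 : ∀ s : I × Bool → ℝ, nE ν (fun S => DD ν (wv u κ s) F (x ::ₘ y ::ₘ S)) =
      nE ν (fun S => F (x ::ₘ y ::ₘ S) + (wv u κ s x * F (y ::ₘ S) + wv u κ s y * F (x ::ₘ S)) +
        (wv u κ s x * wv u κ s y) * F S) := by
    intro s
    have h1 := EB_add hx hF (wv u κ s x)
    rw [nE_congr ν (fun S => (H.DDan ν hF s x (y ::ₘ S)).trans (H.DDan ν h1 s y S))]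
    have h2 := H.nD ν (EB_add (EB_an h1 y) h1 (wv u κ s y)) s
    refine h2.trans ?_
    refine nE_congr ν fun S => ?_
    ring
  simp only [e2]
  have mx : Measurable fun s => wv u κ s x := bt_meas κ fun i => u i x
  have my : Measurable fun s => wv u κ s y := bt_meas κ fun i => u i y
  have rx : ∀ s, wv u κ (rot s) x = Complex.I * wv u κ s x := fun s => bt_rot κ _ s
  have ry : ∀ s, wv u κ (rot s) y = Complex.I * wv u κ s y := fun s => bt_rot κ _ s
  rw [avg H.WIN ν (fun S => F (x ::ₘ y ::ₘ S))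
    (fun s S => wv u κ s x * F (y ::ₘ S) + wv u κ s y * F (x ::ₘ S))
    (fun s S => (wv u κ s x * wv u κ s y) * F S) hxy.meas
    (((mx.comp measurable_fst).mul (hy.meas.comp measurable_snd)).add
      ((my.comp measurable_fst).mul (hx.meas.comp measurable_snd)))
    (((mx.comp measurable_fst).mul (my.comp measurable_fst)).mul (hF.meas.comp measurable_snd))
    (fun s S => by rw [rx, ry]; ring)
    (fun s S => by
      rw [rx, ry]
      linear_combination (wv u κ s x * wv u κ s y * F S) * Complex.I_sq)]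
  congr 1
  have mxy : Measurable fun s : I × Bool → ℝ => ‖wv u κ s x‖ₑ ^ 2 * ‖wv u κ s y‖ₑ ^ 2 :=
    (mx.enorm.pow_const 2).mul (my.enorm.pow_const 2)
  rw [← J_mul_const mxy]
  congr 1
  funext s
  rw [nE_smul ν hF, enorm_mul, mul_pow]

/-- the strength of the disturbance -/
def kap (ν : Measure X) (u : I → X → ℝ) (ω : ℝ) : ℝ := ω * ∫ x, ∑ i, u i x ^ 2 ∂ν

lemma sq_int (H : Hyp u ω κ) (ν : Measure X) [IsFiniteMeasure ν] :
    Integrable (fun x => ∑ i, u i x ^ 2) ν := by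
  refine Integrable.of_bound (Finset.measurable_sum _ fun i _ =>
    (H.um i).pow_const 2).aestronglyMeasurable 1 (Filter.Eventually.of_forall fun x => ?_)
  rw [Real.norm_of_nonneg (Finset.sum_nonneg fun i _ => sq_nonneg _)]
  exact H.sq1 x

lemma kap_nonneg (H : Hyp u ω κ) (ν : Measure X) [IsFiniteMeasure ν] : 0 ≤ kap ν u ω :=
  mul_nonneg H.ω0.le (integral_nonneg fun x => Finset.sum_nonneg fun i _ => sq_nonneg _)

lemma kap_le (H : Hyp u ω κ) (ν : Measure X) [IsFiniteMeasure ν] :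
    kap ν u ω ≤ ω * (ν Set.univ).toReal := by
  refine mul_le_mul_of_nonneg_left ?_ H.ω0.le
  calc ∫ x, ∑ i, u i x ^ 2 ∂ν ≤ ∫ x, (1 : ℝ) ∂ν :=
        integral_mono (sq_int H ν) (integrable_const _) fun x => H.sq1 x
    _ = _ := by
        simp [Measure.real]

lemma lint_kap (H : Hyp u ω κ) (ν : Measure X) [IsFiniteMeasure ν] :
    ∫⁻ x, ENNReal.ofReal (ω * ∑ i, u i x ^ 2) ∂ν = ENNReal.ofReal (kap ν u ω) := by
  unfold kap
  rw [← integral_const_mul, ofReal_integral_eq_lintegral_ofReal ((sq_int H ν).const_mul ω)]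
  exact Filter.Eventually.of_forall fun x =>
    mul_nonneg H.ω0.le (Finset.sum_nonneg fun i _ => sq_nonneg _)

lemma J_w (H : Hyp u ω κ) (x : X) :
    J (fun s => ‖wv u κ s x‖ₑ ^ 2) = ENNReal.ofReal (ω * ∑ i, u i x ^ 2) := by
  have h := J_bt H.WIN κ fun i => u i x
  rw [H.k14] at h
  exact h

lemma J_normw (H : Hyp u ω κ) (ν : Measure X) [IsFiniteMeasure ν] :
    J (fun s => ∫⁻ x, ‖wv u κ s x‖ₑ ^ 2 ∂ν) = ENNReal.ofReal (kap ν u ω) := by
  rw [← lint_kap H ν]
  simp only [← J_w H]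
  unfold J
  have m1 : Measurable fun q : (I × Bool → ℝ) × X => ‖wv u κ q.1 q.2‖ₑ ^ 2 :=
    (wv_meas H.um κ).enorm.pow_const 2
  have m2 : ∀ s, Measurable fun x => ‖wv u κ s x‖ₑ ^ 2 := fun s =>
    (wv_meas' H.um κ s).enorm.pow_const 2
  simp only [← fun s => lintegral_const_mul (μ := ν) (ENNReal.ofReal (win s ^ 2)) (m2 s)]
  rw [lintegral_lintegral_swap]
  exact (((win_meas.comp measurable_fst).pow_const 2).ennreal_ofReal.mul m1).aemeasurable

lemma int_conj (H : Hyp u ω κ) (ν : Measure X) [IsFiniteMeasure ν] {f : X → ℂ}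
    (hf : Measurable f) (hfb : ∃ K : ℝ, ∀ x, ‖f x‖ ≤ K) (s : I × Bool → ℝ) :
    ‖∫ x, (starRingEnd ℂ) (wv u κ s x) * f x ∂ν‖ₑ ^ 2 ≤
      2 * ‖bt κ (fun i => (∫ x, (u i x : ℂ) * f x ∂ν).re) s‖ₑ ^ 2 +
        2 * ‖bt κ (fun i => (∫ x, (u i x : ℂ) * f x ∂ν).im) s‖ₑ ^ 2 := by
  obtain ⟨K, hK⟩ := hfb
  have hi : ∀ i, Integrable (fun x => (u i x : ℂ) * f x) ν := by
    intro i
    refine Integrable.of_bound ((Complex.measurable_ofReal.comp
      (H.um i)).mul hf).aestronglyMeasurable (1 * K) (Filter.Eventually.of_forall fun x => ?_)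
    rw [norm_mul, Complex.norm_real, Real.norm_eq_abs]
    exact mul_le_mul (H.u1 i x) (hK x) (norm_nonneg _) zero_le_one
  have e1 : ∫ x, (starRingEnd ℂ) (wv u κ s x) * f x ∂ν =
      ∑ i, (starRingEnd ℂ) ((κ : ℂ) * ((s (i, false) : ℂ) + Complex.I * (s (i, true) : ℂ))) *
        ∫ x, (u i x : ℂ) * f x ∂ν := by
    have e : ∀ x, (starRingEnd ℂ) (wv u κ s x) * f x =
        ∑ i, (starRingEnd ℂ) ((κ : ℂ) * ((s (i, false) : ℂ) + Complex.I * (s (i, true) : ℂ))) *
          ((u i x : ℂ) * f x) := by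
      intro x
      unfold wv
      rw [map_sum, Finset.sum_mul]
      refine Finset.sum_congr rfl fun i _ => ?_
      rw [map_mul _ _ (u i x : ℂ), Complex.conj_ofReal, mul_assoc]
    simp only [e]
    rw [integral_finsetSum _ fun i _ => (hi i).const_mul _]
    exact Finset.sum_congr rfl fun i _ => integral_const_mul _ _
  obtain ⟨b, hb⟩ : ∃ b : I → ℂ, b = fun i => ∫ x, (u i x : ℂ) * f x ∂ν := ⟨_, rfl⟩
  have e2 : (starRingEnd ℂ) (∫ x, (starRingEnd ℂ) (wv u κ s x) * f x ∂ν) =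
      bt κ (fun i => (b i).re) s - Complex.I * bt κ (fun i => (b i).im) s := by
    rw [e1, map_sum]
    unfold bt
    rw [Finset.mul_sum, ← Finset.sum_sub_distrib]
    refine Finset.sum_congr rfl fun i _ => ?_
    have : ∫ x, (u i x : ℂ) * f x ∂ν = b i := by rw [hb]
    rw [this, map_mul, Complex.conj_conj]
    have h3 : (starRingEnd ℂ) (b i) = (b i).re - Complex.I * (b i).im := by
      apply Complex.ext <;> simp
    rw [h3]
    ring
  have e3 : ‖∫ x, (starRingEnd ℂ) (wv u κ s x) * f x ∂ν‖ₑ =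
      ‖bt κ (fun i => (b i).re) s - Complex.I * bt κ (fun i => (b i).im) s‖ₑ := by
    rw [← e2, ← ofReal_norm, ← ofReal_norm, RCLike.norm_conj]
  have eb : ∀ i, ∫ x, (u i x : ℂ) * f x ∂ν = b i := fun i => by rw [hb]
  simp only [e3, eb, en2]
  have e20 : (2 : ℝ≥0∞) = ENNReal.ofReal 2 := by norm_num
  rw [e20, ← ENNReal.ofReal_mul (by norm_num), ← ENNReal.ofReal_mul (by norm_num),
    ← ENNReal.ofReal_add (mul_nonneg (by norm_num) (Complex.normSq_nonneg _))
      (mul_nonneg (by norm_num) (Complex.normSq_nonneg _))]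
  refine ENNReal.ofReal_le_ofReal ?_
  generalize bt κ (fun i => (b i).re) s = p
  generalize bt κ (fun i => (b i).im) s = q
  simp only [Complex.normSq_apply, Complex.sub_re, Complex.sub_im, Complex.mul_re, Complex.mul_im,
    Complex.I_re, Complex.I_im]
  nlinarith [sq_nonneg (p.re - q.im), sq_nonneg (p.im + q.re)]

lemma mPhi (H : Hyp u ω κ) {F : Multiset X → ℂ} (hF : EB F) :
    Measurable fun r : (X × X) × ((I × Bool → ℝ) × Cf X) =>
      ENNReal.ofReal (win r.2.1 ^ 2) * ‖wv u κ r.2.1 r.1.1 * F (r.1.2 ::ₘ ms r.2.2) +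
        wv u κ r.2.1 r.1.2 * F (r.1.1 ::ₘ ms r.2.2)‖ₑ ^ 2 := by
  have mw2 : Measurable fun s : I × Bool → ℝ => ENNReal.ofReal (win s ^ 2) :=
    (win_meas.pow_const 2).ennreal_ofReal
  have mF := cons_meas hF
  have mw := wv_meas H.um κ
  have a1 : Measurable fun r : (X × X) × ((I × Bool → ℝ) × Cf X) => (r.2.1, r.1.1) := by
    fun_prop
  have a2 : Measurable fun r : (X × X) × ((I × Bool → ℝ) × Cf X) => (r.2.1, r.1.2) := by
    fun_prop
  have a3 : Measurable fun r : (X × X) × ((I × Bool → ℝ) × Cf X) => (r.1.1, r.2.2) := by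
    fun_prop
  have a4 : Measurable fun r : (X × X) × ((I × Bool → ℝ) × Cf X) => (r.1.2, r.2.2) := by
    fun_prop
  have a5 : Measurable fun r : (X × X) × ((I × Bool → ℝ) × Cf X) => r.2.1 := by
    fun_prop
  have b1 := mw.comp a1
  have b2 := mw.comp a2
  have b3 := mF.comp a3
  have b4 := mF.comp a4
  have b5 := mw2.comp a5
  simp only [Function.comp_def] at b1 b2 b3 b4 b5
  exact b5.mul ((((b1.mul b4).add (b2.mul b3)).enorm).pow_const 2)

/-- the integrand -/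
def Phi (u : I → X → ℝ) (κ : ℝ) (F : Multiset X → ℂ) (s : I × Bool → ℝ) (γ : Cf X) (x y : X) :
    ℝ≥0∞ :=
  ENNReal.ofReal (win s ^ 2) * ‖wv u κ s x * F (y ::ₘ ms γ) + wv u κ s y * F (x ::ₘ ms γ)‖ₑ ^ 2

lemma mPhi' (H : Hyp u ω κ) {F : Multiset X → ℂ} (hF : EB F) :
    Measurable fun r : (X × X) × ((I × Bool → ℝ) × Cf X) =>
      Phi u κ F r.2.1 r.2.2 r.1.1 r.1.2 := mPhi H hF

lemma two_meas (H : Hyp u ω κ) {F : Multiset X → ℂ} (hF : EB F) (s : I × Bool → ℝ) (x y : X) :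
    Measurable fun γ : Cf X =>
      ‖wv u κ s x * F (y ::ₘ ms γ) + wv u κ s y * F (x ::ₘ ms γ)‖ₑ ^ 2 := by
  have b1 := (EB_an hF x).meas
  have b2 := (EB_an hF y).meas
  exact (((b2.const_mul _).add (b1.const_mul _)).enorm).pow_const 2


lemma T2a (H : Hyp u ω κ) (ν : Measure X) [IsFiniteMeasure ν] {F : Multiset X → ℂ} (hF : EB F) :
    ∫⁻ x, ∫⁻ y, J (fun s : I × Bool → ℝ => nE ν
      (fun S => wv u κ s x * F (y ::ₘ S) + wv u κ s y * F (x ::ₘ S))) ∂ν ∂ν =
      ∫⁻ q, ∫⁻ p, Phi u κ F q.1 q.2 p.1 p.2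
          ∂(ν.prod ν) ∂((volume.restrict (bx (I × Bool))).prod (lam ν)) := by
  have iL : IsFiniteMeasure (lam ν) := (mLAM X ν).2.1
  have iB : IsFiniteMeasure (volume.restrict (bx (I × Bool))) :=
    ⟨by rw [Measure.restrict_apply_univ, bx_vol]; exact ENNReal.one_lt_top⟩
  have mΦ := mPhi' H hF
  have m1 : Measurable fun p : X × X => ∫⁻ q : (I × Bool → ℝ) × Cf X, Phi u κ F q.1 q.2 p.1 p.2
      ∂((volume.restrict (bx (I × Bool))).prod (lam ν)) := mΦ.lintegral_prod_right'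
  have sw : ∫⁻ p, ∫⁻ q, Phi u κ F q.1 q.2 p.1 p.2 
      ∂((volume.restrict (bx (I × Bool))).prod (lam ν)) ∂(ν.prod ν) = 
      ∫⁻ q, ∫⁻ p, Phi u κ F q.1 q.2 p.1 p.2
          ∂(ν.prod ν) ∂((volume.restrict (bx (I × Bool))).prod (lam ν)) := 
    lintegral_lintegral_swap (μ := ν.prod ν)
    (ν := (volume.restrict (bx (I × Bool))).prod (lam ν))
    (f := fun p q => Phi u κ F q.1 q.2 p.1 p.2) mΦ.aemeasurable
  refine Eq.trans ?_ sw
  rw [lintegral_prod _ m1.aemeasurable]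
  refine lintegral_congr fun x => lintegral_congr fun y => ?_
  have m2 : Measurable fun q : (I × Bool → ℝ) × Cf X => Phi u κ F q.1 q.2 x y := by
    have m0 : Measurable fun q : (I × Bool → ℝ) × Cf X => ((x, y), q) := by fun_prop
    have h := mΦ.comp m0
    simp only [Function.comp_def] at h
    exact h
  have e : ∫⁻ q : (I × Bool → ℝ) × Cf X, Phi u κ F q.1 q.2 x y ∂((volume.restrict (bx (I × Bool))).prod (lam ν)) = 
     ∫⁻ s in bx (I × Bool), ∫⁻ γ, Phi u κ F s γ x y ∂(lam ν) := 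
    lintegral_prod _ m2.aemeasurable
  refine Eq.trans ?_ e.symm
  unfold J
  refine lintegral_congr fun s => ?_
  unfold Phi
  rw [lintegral_const_mul _ (two_meas H hF s x y)]
  rfl

lemma T2b (H : Hyp u ω κ) (ν : Measure X) [IsFiniteMeasure ν] {F : Multiset X → ℂ} (hF : EB F)
    (s : I × Bool → ℝ) (γ : Cf X) :
    ∫⁻ p, Phi u κ F s γ p.1 p.2 ∂(ν.prod ν) ≤ ENNReal.ofReal (win s ^ 2) *
      ((∫⁻ x, ‖wv u κ s x‖ₑ ^ 2 ∂ν) * (2 * ∫⁻ x, ‖F (x ::ₘ ms γ)‖ₑ ^ 2 ∂ν) +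
        (‖bt κ (fun i => (ag ν (u i) F (ms γ)).re) s‖ₑ ^ 2 * 4 +
        ‖bt κ (fun i => (ag ν (u i) F (ms γ)).im) s‖ₑ ^ 2 * 4)) := by
  have hw := wv_meas' H.um κ s
  have hf := cons_meas' hF γ
  have m1 : Measurable fun p : X × X =>
      ‖wv u κ s p.1 * F (p.2 ::ₘ ms γ) + wv u κ s p.2 * F (p.1 ::ₘ ms γ)‖ₑ ^ 2 := by
    have a1 : Measurable fun p : X × X => wv u κ s p.1 := hw.comp measurable_fst
    have a2 : Measurable fun p : X × X => wv u κ s p.2 := hw.comp measurable_snd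
    have a3 : Measurable fun p : X × X => F (p.1 ::ₘ ms γ) := hf.comp measurable_fst
    have a4 : Measurable fun p : X × X => F (p.2 ::ₘ ms γ) := hf.comp measurable_snd
    exact (((a1.mul a4).add (a2.mul a3)).enorm).pow_const 2
  unfold Phi
  rw [lintegral_const_mul _ m1]
  gcongr
  rw [symsq ν hw hf (wv_bdd H.u1 κ s) (cons_bdd hF (ms γ))]
  have h := int_conj H ν hf (cons_bdd hF (ms γ)) s
  calc _ ≤ 2 * ((∫⁻ x, ‖wv u κ s x‖ₑ ^ 2 ∂ν) * ∫⁻ x, ‖F (x ::ₘ ms γ)‖ₑ ^ 2 ∂ν) +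
        2 * (2 * ‖bt κ (fun i => (∫ x, (u i x : ℂ) * F (x ::ₘ ms γ) ∂ν).re) s‖ₑ ^ 2 +
    2 * ‖bt κ (fun i => (∫ x, (u i x : ℂ) * F (x ::ₘ ms γ) ∂ν).im) s‖ₑ ^ 2) := by
        gcongr
    _ = _ := by
        unfold ag
        ring

lemma T2c (H : Hyp u ω κ) (ν : Measure X) [IsFiniteMeasure ν] {F : Multiset X → ℂ} (hF : EB F) :
    ∫⁻ q, ENNReal.ofReal (win q.1 ^ 2) *
      ((∫⁻ x, ‖wv u κ q.1 x‖ₑ ^ 2 ∂ν) * (2 * ∫⁻ x, ‖F (x ::ₘ ms q.2)‖ₑ ^ 2 ∂ν) +
        (‖bt κ (fun i => (ag ν (u i) F (ms q.2)).re) q.1‖ₑ ^ 2 * 4 +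
        ‖bt κ (fun i => (ag ν (u i) F (ms q.2)).im) q.1‖ₑ ^ 2 * 4))
          ∂((volume.restrict (bx (I × Bool))).prod (lam ν)) =
    2 * (ENNReal.ofReal (kap ν u ω) * nuE ν F) +
        4 * (ENNReal.ofReal ω * ∑ i, nE ν (ag ν (u i) F)) := by
  haveI : IsFiniteMeasure (lam ν) := (mLAM X ν).2.1
  haveI : IsFiniteMeasure (volume.restrict (bx (I × Bool))) :=
    ⟨by rw [Measure.restrict_apply_univ, bx_vol]; exact ENNReal.one_lt_top⟩
  have mw2 : Measurable fun s : I × Bool → ℝ => ENNReal.ofReal (win s ^ 2) :=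
    (win_meas.pow_const 2).ennreal_ofReal
  have mA : Measurable fun s : I × Bool → ℝ => ∫⁻ x, ‖wv u κ s x‖ₑ ^ 2 ∂ν :=
    ((wv_meas H.um κ).enorm.pow_const 2).lintegral_prod_right'
  have mB : Measurable fun γ : Cf X => ∫⁻ x, ‖F (x ::ₘ ms γ)‖ₑ ^ 2 ∂ν := by
    have h := ((cons_meas hF).comp measurable_swap).enorm.pow_const 2
    exact h.lintegral_prod_right'
  have hag : ∀ i, EB (ag ν (u i) F) := fun i =>
    (ebc X ν F F hF hF).2.2.2.1 (u i) (H.um i) ⟨1, H.u1 i⟩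
  have mbt : ∀ {a : I → Cf X → ℝ}, (∀ i, Measurable (a i)) →
      Measurable fun q : (I × Bool → ℝ) × Cf X => bt κ (fun i => a i q.2) q.1 := by
    intro a ha
    unfold bt
    refine Finset.measurable_sum _ fun i _ => ?_
    refine Measurable.mul (Measurable.mul measurable_const (Measurable.add ?_
      (Measurable.mul measurable_const ?_))) ?_
    · exact Complex.measurable_ofReal.comp ((measurable_pi_apply _).comp measurable_fst)
    · exact Complex.measurable_ofReal.comp ((measurable_pi_apply _).comp measurable_fst)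
    · exact Complex.measurable_ofReal.comp ((ha i).comp measurable_snd)
  have mre := mbt (a := fun i γ => (ag ν (u i) F (ms γ)).re)
    (fun i => Complex.measurable_re.comp (hag i).meas)
  have mim := mbt (a := fun i γ => (ag ν (u i) F (ms γ)).im)
    (fun i => Complex.measurable_im.comp (hag i).meas)
  have mre2 := mre.enorm.pow_const 2
  have mim2 := mim.enorm.pow_const 2
  have mA' : Measurable fun q : (I × Bool → ℝ) × Cf X => ∫⁻ x, ‖wv u κ q.1 x‖ₑ ^ 2 ∂ν :=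
    mA.comp measurable_fst
  have mB' : Measurable fun q : (I × Bool → ℝ) × Cf X => ∫⁻ x, ‖F (x ::ₘ ms q.2)‖ₑ ^ 2 ∂ν :=
    mB.comp measurable_snd
  have mw2' : Measurable fun q : (I × Bool → ℝ) × Cf X => ENNReal.ofReal (win q.1 ^ 2) :=
    mw2.comp measurable_fst
  obtain ⟨A, hA⟩ : ∃ A : (I × Bool → ℝ) → ℝ≥0∞, A = fun s => ∫⁻ x, ‖wv u κ s x‖ₑ ^ 2 ∂ν :=
    ⟨_, rfl⟩
  obtain ⟨B, hB⟩ : ∃ B : Cf X → ℝ≥0∞, B = fun γ => ∫⁻ x, ‖F (x ::ₘ ms γ)‖ₑ ^ 2 ∂ν := ⟨_, rfl⟩
  obtain ⟨C, hC⟩ : ∃ C : (I × Bool → ℝ) → Cf X → ℝ≥0∞, C = fun s γ =>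
    ‖bt κ (fun i => (ag ν (u i) F (ms γ)).re) s‖ₑ ^ 2 := ⟨_, rfl⟩
  obtain ⟨D, hD⟩ : ∃ D : (I × Bool → ℝ) → Cf X → ℝ≥0∞, D = fun s γ =>
    ‖bt κ (fun i => (ag ν (u i) F (ms γ)).im) s‖ₑ ^ 2 := ⟨_, rfl⟩
  have eA : ∀ s, ∫⁻ x, ‖wv u κ s x‖ₑ ^ 2 ∂ν = A s := fun s => by rw [hA]
  have eB : ∀ γ : Cf X, ∫⁻ x, ‖F (x ::ₘ ms γ)‖ₑ ^ 2 ∂ν = B γ := fun γ => by rw [hB]
  have eC : ∀ s (γ : Cf X), ‖bt κ (fun i => (ag ν (u i) F (ms γ)).re) s‖ₑ ^ 2 = C s γ :=
    fun s γ => by rw [hC]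
  have eD : ∀ s (γ : Cf X), ‖bt κ (fun i => (ag ν (u i) F (ms γ)).im) s‖ₑ ^ 2 = D s γ :=
    fun s γ => by rw [hD]
  have jA : J A = ENNReal.ofReal (kap ν u ω) := by rw [hA]; exact J_normw H ν
  have jC : ∀ γ, J (fun s => C s γ) =
      ENNReal.ofReal (ω * ∑ i, (ag ν (u i) F (ms γ)).re ^ 2) := by
    intro γ
    rw [hC, ← H.k14]
    exact J_bt H.WIN κ _
  have jD : ∀ γ, J (fun s => D s γ) =
      ENNReal.ofReal (ω * ∑ i, (ag ν (u i) F (ms γ)).im ^ 2) := by
    intro γ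
    rw [hD, ← H.k14]
    exact J_bt H.WIN κ _
  simp only [eA, eB, eC, eD] at mA mB mA' mB' mre2 mim2 ⊢
  have mC : ∀ γ, Measurable fun s => C s γ := by
    intro γ
    rw [hC]
    exact (bt_meas κ _).enorm.pow_const 2
  have mD : ∀ γ, Measurable fun s => D s γ := by
    intro γ
    rw [hD]
    exact (bt_meas κ _).enorm.pow_const 2
  have mtot : Measurable fun q : (I × Bool → ℝ) × Cf X => ENNReal.ofReal (win q.1 ^ 2) *
      (A q.1 * (2 * B q.2) + (C q.1 q.2 * 4 + D q.1 q.2 * 4)) := by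
    have m1 : Measurable fun q : (I × Bool → ℝ) × Cf X => A q.1 * (2 * B q.2) :=
      mA'.mul (mB'.const_mul 2)
    have m2 : Measurable fun q : (I × Bool → ℝ) × Cf X => C q.1 q.2 * 4 + D q.1 q.2 * 4 :=
      (mre2.mul_const 4).add (mim2.mul_const 4)
    exact mw2'.mul (m1.add m2)
  rw [lintegral_prod_symm' _ mtot]
  dsimp only
  have e2 : ∀ γ : Cf X, ∫⁻ s in bx (I × Bool), ENNReal.ofReal (win s ^ 2) *
      (A s * (2 * B γ) + (C s γ * 4 + D s γ * 4)) =
      2 * (ENNReal.ofReal (kap ν u ω) * B γ) +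
        4 * (ENNReal.ofReal ω * ∑ i, ‖ag ν (u i) F (ms γ)‖ₑ ^ 2) := by
    intro γ
    have j1 := J_add (Φ' := fun s => (C s γ * 4 + D s γ * 4)) (mA.mul_const (2 * B γ))
    have j2 := J_add (Φ' := fun s => D s γ * 4) ((mC γ).mul_const 4)
    refine Eq.trans j1 ?_
    rw [j2, J_mul_const mA, J_mul_const (mC γ), J_mul_const (mD γ), jC, jD, jA]
    have hω := H.ω0
    have e3 : ENNReal.ofReal (ω * ∑ i, (ag ν (u i) F (ms γ)).re ^ 2) +
        ENNReal.ofReal (ω * ∑ i, (ag ν (u i) F (ms γ)).im ^ 2) =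
        ENNReal.ofReal ω * ∑ i, ‖ag ν (u i) F (ms γ)‖ₑ ^ 2 := by
      simp only [en2]
      rw [← ENNReal.ofReal_sum_of_nonneg fun i _ => Complex.normSq_nonneg _,
        ← ENNReal.ofReal_mul hω.le, ← ENNReal.ofReal_add
          (mul_nonneg hω.le (Finset.sum_nonneg fun i _ => sq_nonneg _))
          (mul_nonneg hω.le (Finset.sum_nonneg fun i _ => sq_nonneg _)), ← mul_add,
        ← Finset.sum_add_distrib]
      congr 2
      refine Finset.sum_congr rfl fun i _ => ?_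
      rw [Complex.normSq_apply]
      ring
    rw [← e3]
    ring
  have ms1 : Measurable fun γ : Cf X => ∑ i, ‖ag ν (u i) F (ms γ)‖ₑ ^ 2 :=
    Finset.measurable_sum _ fun i _ => (hag i).meas.enorm.pow_const 2
  have sB : ∫⁻ γ, B γ ∂(lam ν) = nuE ν F := by
    rw [hB]
    exact nuE_swap ν hF
  rw [lintegral_congr e2]
  rw [lintegral_add_left ((mB.const_mul _).const_mul _), lintegral_const_mul _ (mB.const_mul _),
    lintegral_const_mul _ mB, lintegral_const_mul _ (ms1.const_mul _), lintegral_const_mul _ ms1,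
    sB, lintegral_finsetSum _ fun i _ => (hag i).meas.enorm.pow_const 2]
  rfl

/-- the second term -/
lemma T2 (H : Hyp u ω κ) (ν : Measure X) [IsFiniteMeasure ν] {M : ℝ}
    (hM : ∀ i, ∫ x, u i x ∂ν = M) {F : Multiset X → ℂ} (hF : EB F) :
    ∫⁻ x, ∫⁻ y, J (fun s : I × Bool → ℝ => nE ν
      (fun S => wv u κ s x * F (y ::ₘ S) + wv u κ s y * F (x ::ₘ S))) ∂ν ∂ν ≤
      2 * (ENNReal.ofReal (kap ν u ω) * nuE ν F) +
        4 * (ENNReal.ofReal ω * (ENNReal.ofReal M * nuE ν F)) := by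
  have h := ag_sum ν H.um H.u0 H.us H.ule hM hF
  have h1 : 2 * (ENNReal.ofReal (kap ν u ω) * nuE ν F) +
        4 * (ENNReal.ofReal ω * ∑ i, nE ν (ag ν (u i) F)) ≤
      2 * (ENNReal.ofReal (kap ν u ω) * nuE ν F) +
        4 * (ENNReal.ofReal ω * (ENNReal.ofReal M * nuE ν F)) := by
    gcongr
  rw [T2a H ν hF]
  refine le_trans ?_ h1
  rw [← T2c H ν hF]
  refine lintegral_mono ?_
  intro q
  exact T2b H ν hF q.1 q.2

/-- the third term -/
lemma T3 (H : Hyp u ω κ) (ν : Measure X) [IsFiniteMeasure ν] :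
    ∫⁻ x, ∫⁻ y, J (fun s : I × Bool → ℝ => ‖wv u κ s x‖ₑ ^ 2 * ‖wv u κ s y‖ₑ ^ 2) ∂ν ∂ν ≤
      ENNReal.ofReal (7 * ω * (ν Set.univ).toReal * kap ν u ω) := by
  have h1 : ∀ x y, J (fun s : I × Bool → ℝ => ‖wv u κ s x‖ₑ ^ 2 * ‖wv u κ s y‖ₑ ^ 2) ≤
      ENNReal.ofReal (7 * ω) * ENNReal.ofReal (ω * ∑ i, u i y ^ 2) := by
    intro x y
    calc _ ≤ J (fun s : I × Bool → ℝ => ‖wv u κ s y‖ₑ ^ 2 * ENNReal.ofReal (7 * ω)) := by
          refine J_mono fun s hs => ?_
          rw [mul_comm]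
          gcongr
          exact H.wb2 s hs x
      _ = _ := by
          rw [J_mul_const, J_w H, mul_comm]
          exact (bt_meas κ fun i => u i y).enorm.pow_const 2
  have m : Measurable fun y => ENNReal.ofReal (ω * ∑ i, u i y ^ 2) :=
    ((Finset.measurable_sum _ fun i _ => (H.um i).pow_const 2).const_mul ω).ennreal_ofReal
  calc _ ≤ ∫⁻ _ : X, ∫⁻ y, ENNReal.ofReal (7 * ω) * ENNReal.ofReal (ω * ∑ i, u i y ^ 2) ∂ν ∂ν :=
        lintegral_mono fun x => lintegral_mono fun y => h1 x y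
    _ = _ := by
        rw [lintegral_const_mul _ m, lint_kap H ν, lintegral_const]
        have hω := H.ω0
        have e : ν Set.univ = ENNReal.ofReal (ν Set.univ).toReal :=
          (ENNReal.ofReal_toReal (measure_ne_top ν _)).symm
        rw [e, ← ENNReal.ofReal_mul (by positivity), ← ENNReal.ofReal_mul
          (mul_nonneg (by positivity) (kap_nonneg H ν))]
        congr 1
        rw [ENNReal.toReal_ofReal ENNReal.toReal_nonneg]
        ring

lemma nu_sum (H : Hyp u ω κ) (ν : Measure X) [IsFiniteMeasure ν] {F : Multiset X → ℂ}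
    (hF : EB F) : ∑' k, nuE ν (LL ν u κ k F) =
      nuE ν F + ENNReal.ofReal (kap ν u ω) * nE ν F := by
  have hL : ∀ k, EB (LL ν u κ k F) := fun k => Tk_EB k (GB_win H.WIN) (H.jb ν hF)
  have m : ∀ G : Multiset X → ℂ, EB G → Measurable fun x => nE ν (an x G) := fun G hG =>
    (ebc X ν G G hG hG).2.2.2.2.2.2.2.2.1
  unfold nuE
  rw [← lintegral_tsum fun k => (m _ (hL k)).aemeasurable]
  simp only [H.an_sum ν hF]
  rw [lintegral_add_left (m F hF), lintegral_mul_const, lint_kap H ν]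
  exact ((Finset.measurable_sum _ fun i _ => (H.um i).pow_const 2).const_mul ω).ennreal_ofReal

lemma pp_sum (H : Hyp u ω κ) (ν : Measure X) [IsFiniteMeasure ν] {M : ℝ}
    (hM : ∀ i, ∫ x, u i x ∂ν = M) {F : Multiset X → ℂ} (hF : EB F) :
    ∑' k, pp ν (LL ν u κ k F) ≤ pp ν F + (2 * (ENNReal.ofReal (kap ν u ω) * nuE ν F) +
        4 * (ENNReal.ofReal ω * (ENNReal.ofReal M * nuE ν F))) +
        ENNReal.ofReal (7 * ω * (ν Set.univ).toReal * kap ν u ω) * nE ν F := by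
  have hL : ∀ k, EB (LL ν u κ k F) := fun k => Tk_EB k (GB_win H.WIN) (H.jb ν hF)
  have m : ∀ G : Multiset X → ℂ, EB G → Measurable fun p : X × X => nE ν (an p.2 (an p.1 G)) :=
    fun G hG => (ebc X ν G G hG hG).2.2.2.2.2.2.2.2.2.2.1
  have m1 : ∀ G : Multiset X → ℂ, EB G → ∀ x, Measurable fun y => nE ν (an y (an x G)) := by
    intro G hG x
    have h := (m G hG).comp (measurable_prodMk_left (x := x))
    simp only [Function.comp_def] at h
    exact h
  have m2 : ∀ G : Multiset X → ℂ, EB G → Measurable fun x => ∫⁻ y, nE ν (an y (an x G)) ∂ν :=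
    fun G hG => (m G hG).lintegral_prod_right'
  obtain ⟨Q, hQ⟩ : ∃ Q : X → X → ℝ≥0∞, Q = fun x y => J (fun s : I × Bool → ℝ => nE ν
      (fun S => wv u κ s x * F (y ::ₘ S) + wv u κ s y * F (x ::ₘ S))) := ⟨_, rfl⟩
  obtain ⟨R, hR⟩ : ∃ R : X → X → ℝ≥0∞, R = fun x y =>
    J (fun s : I × Bool → ℝ => ‖wv u κ s x‖ₑ ^ 2 * ‖wv u κ s y‖ₑ ^ 2) := ⟨_, rfl⟩
  have mR : Measurable fun p : X × X => R p.1 p.2 := by
    rw [hR]
    unfold J
    have h1 : Measurable fun r : (X × X) × (I × Bool → ℝ) => ENNReal.ofReal (win r.2 ^ 2) *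
        (‖wv u κ r.2 r.1.1‖ₑ ^ 2 * ‖wv u κ r.2 r.1.2‖ₑ ^ 2) := by
      have a1 : Measurable fun r : (X × X) × (I × Bool → ℝ) => (r.2, r.1.1) := by fun_prop
      have a2 : Measurable fun r : (X × X) × (I × Bool → ℝ) => (r.2, r.1.2) := by fun_prop
      have b1 := ((wv_meas H.um κ).comp a1).enorm.pow_const 2
      have b2 := ((wv_meas H.um κ).comp a2).enorm.pow_const 2
      have b3 : Measurable fun r : (X × X) × (I × Bool → ℝ) => ENNReal.ofReal (win r.2 ^ 2) :=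
        ((win_meas.comp measurable_snd).pow_const 2).ennreal_ofReal
      simp only [Function.comp_def] at b1 b2
      exact b3.mul (b1.mul b2)
    exact h1.lintegral_prod_right'
  have mR1 : ∀ x, Measurable fun y => R x y := by
    intro x
    have h := mR.comp (measurable_prodMk_left (x := x))
    simp only [Function.comp_def] at h
    exact h
  have mR2 : Measurable fun x => ∫⁻ y, R x y ∂ν := mR.lintegral_prod_right'
  have hpt : ∀ x y, ∑' k, nE ν (an y (an x (LL ν u κ k F))) =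
      nE ν (an y (an x F)) + Q x y + R x y * nE ν F := by
    intro x y
    rw [hQ, hR]
    exact pair_eq H ν hF x y
  unfold pp
  rw [← lintegral_tsum fun k => (m2 _ (hL k)).aemeasurable]
  have e1 : ∀ x, ∑' k, ∫⁻ y, nE ν (an y (an x (LL ν u κ k F))) ∂ν =
      (∫⁻ y, nE ν (an y (an x F)) ∂ν) + (∫⁻ y, Q x y ∂ν) + (∫⁻ y, R x y ∂ν) * nE ν F := by
    intro x
    rw [← lintegral_tsum fun k => (m1 _ (hL k) x).aemeasurable]
    simp only [hpt]
    rw [lintegral_add_right _ ((mR1 x).mul_const _), lintegral_add_left (m1 F hF x),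
      lintegral_mul_const _ (mR1 x)]
  simp only [e1]
  rw [lintegral_add_right _ (mR2.mul_const _), lintegral_add_left (m2 F hF),
    lintegral_mul_const _ mR2]
  have t2 := T2 H ν hM hF
  have t3 := T3 H ν
  rw [hQ, hR]
  gcongr

/-- arithmetic -/
lemma arith {m2' m2F nuF nF ppF ppS : ℝ≥0∞} {t k ω M V : ℝ} (hnu : nuF ≠ ⊤) (hn : nF ≠ ⊤)
    (hpp : ppF ≠ ⊤) (ht : 0 ≤ t) (hk : 0 ≤ k) (hkV : k ≤ ω * V) (hω : 0 < ω) (hV : 0 ≤ V)
    (hM : 0 ≤ M)
    (h1 : m2' + ENNReal.ofReal (2 * (t + k)) * (nuF + ENNReal.ofReal k * nF) =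
      ppS + (nuF + ENNReal.ofReal k * nF) + ENNReal.ofReal ((t + k) ^ 2) * nF)
    (h2 : ppS ≤ ppF + (2 * (ENNReal.ofReal k * nuF) + 4 * (ENNReal.ofReal ω *
      (ENNReal.ofReal M * nuF))) + ENNReal.ofReal (7 * ω * V * k) * nF)
    (h3 : m2F + ENNReal.ofReal (2 * t) * nuF = ppF + nuF + ENNReal.ofReal (t ^ 2) * nF) :
    m2' ≤ m2F + ENNReal.ofReal (4 * ω * M) * nuF +
      ENNReal.ofReal (7 * ω ^ 2 * V ^ 2 + ω * V) * nF := by
  have hfin : ENNReal.ofReal (2 * (t + k)) * (nuF + ENNReal.ofReal k * nF) ≠ ⊤ :=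
    ENNReal.mul_ne_top ENNReal.ofReal_ne_top (ENNReal.add_ne_top.2 ⟨hnu,
      ENNReal.mul_ne_top ENNReal.ofReal_ne_top hn⟩)
  refine (ENNReal.add_le_add_iff_right hfin).1 ?_
  rw [h1]
  have hωV : 0 ≤ ω * V := by positivity
  have e2k : ENNReal.ofReal (2 * k) = 2 * ENNReal.ofReal k := by
    rw [ENNReal.ofReal_mul (by norm_num)]
    norm_num
  have e4 : ENNReal.ofReal (4 * ω * M) = 4 * (ENNReal.ofReal ω * ENNReal.ofReal M) := by
    rw [mul_assoc, ENNReal.ofReal_mul (by norm_num), ENNReal.ofReal_mul hω.le]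
    norm_num
  have e7 : ENNReal.ofReal (7 * ω * V * k + k + (t + k) ^ 2) =
      ENNReal.ofReal (7 * ω * V * k) + ENNReal.ofReal k + ENNReal.ofReal ((t + k) ^ 2) := by
    rw [ENNReal.ofReal_add (by positivity) (by positivity),
      ENNReal.ofReal_add (by positivity) (by positivity)]
  have e8 : ENNReal.ofReal (t ^ 2 + (7 * ω ^ 2 * V ^ 2 + ω * V) + 2 * (t + k) * k) =
      ENNReal.ofReal (t ^ 2) + ENNReal.ofReal (7 * ω ^ 2 * V ^ 2 + ω * V) +
        ENNReal.ofReal (2 * (t + k)) * ENNReal.ofReal k := by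
    rw [ENNReal.ofReal_add (by positivity) (by positivity),
      ENNReal.ofReal_add (by positivity) (by positivity), ENNReal.ofReal_mul (q := k)
        (by positivity : 0 ≤ 2 * (t + k))]
  have e9 : ENNReal.ofReal (2 * (t + k)) = ENNReal.ofReal (2 * t) + ENNReal.ofReal (2 * k) := by
    rw [mul_add (2 : ℝ), ENNReal.ofReal_add (by positivity) (by positivity)]
  calc ppS + (nuF + ENNReal.ofReal k * nF) + ENNReal.ofReal ((t + k) ^ 2) * nF ≤
      (ppF + (2 * (ENNReal.ofReal k * nuF) + 4 * (ENNReal.ofReal ω *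
      (ENNReal.ofReal M * nuF))) + ENNReal.ofReal (7 * ω * V * k) * nF) +
        (nuF + ENNReal.ofReal k * nF) + ENNReal.ofReal ((t + k) ^ 2) * nF := by gcongr
    _ = ppF + nuF + (ENNReal.ofReal (2 * k) + ENNReal.ofReal (4 * ω * M)) * nuF +
        (ENNReal.ofReal (7 * ω * V * k + k + (t + k) ^ 2)) * nF := by
        rw [e7, e2k, e4]
        ring
    _ ≤ ppF + nuF + (ENNReal.ofReal (2 * k) + ENNReal.ofReal (4 * ω * M)) * nuF +
        (ENNReal.ofReal (t ^ 2 + (7 * ω ^ 2 * V ^ 2 + ω * V) + 2 * (t + k) * k)) * nF := by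
        refine add_le_add le_rfl (mul_le_mul' (ENNReal.ofReal_le_ofReal ?_) le_rfl)
        nlinarith [mul_nonneg hk (sub_nonneg.2 hkV), mul_nonneg hωV (sub_nonneg.2 hkV)]
    _ = (ppF + nuF + ENNReal.ofReal (t ^ 2) * nF) + ENNReal.ofReal (4 * ω * M) * nuF +
        ENNReal.ofReal (7 * ω ^ 2 * V ^ 2 + ω * V) * nF +
        (ENNReal.ofReal (2 * k) * nuF + ENNReal.ofReal (2 * (t + k)) *
          (ENNReal.ofReal k * nF)) := by
        rw [e8]
        ring
    _ = _ := by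
        rw [← h3, mul_add (ENNReal.ofReal (2 * (t + k))), e9]
        ring

end main

theorem mom : S_W1 → S_W2 → S_W3 → S_DER → S_PAR → S_IBP → S_WIN → S_MOM := by
  classical
  intro W1 W2 W3 DER PAR IBP WIN X _ ν _ I _ u ω M hω um u0 us hM
  have H : Hyp u ω (√(14 * ω)) :=
    ⟨W1, W2, W3, DER, PAR, IBP, WIN, um, u0, us, hω, Real.sqrt_pos.2 (by positivity),
      Real.sq_sqrt (by positivity)⟩
  have hL : ∀ F, EB F → ∀ k, EB (LL ν u √(14 * ω) k F) :=
    fun F hF k => Tk_EB k (GB_win WIN) (H.jb ν hF)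
  have hnorm : ∀ F, EB F → ∑' k, nE ν (LL ν u √(14 * ω) k F) = nE ν F := by
    intro F hF
    have h := sumJ PAR WIN ν (H.jb ν hF)
    simp only [H.nD ν hF] at h
    rw [J_const WIN] at h
    exact h
  refine ⟨I × Bool → ℤ, inferInstance, LL ν u √(14 * ω), cc √(14 * ω), ?_, kap ν u ω,
    kap_nonneg H ν, ?_⟩
  · refine ⟨?_, ?_, ?_, ?_, ?_, ?_, ?_, ?_⟩
    · exact hL
    · exact hnorm
    · intro F hF x
      rw [H.an_sum ν hF x]
      exact le_self_add
    · intro F hF x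
      rw [H.an_sum ν hF x]
      gcongr
      exact mul_le_of_le_one_right hω.le (H.sq1 x)
    · intro F hF x y
      exact (H.kin ν hF x y).le
    · intro F hF x y
      exact H.pair ν hF x y
    · intro F hF i
      exact H.amp ν hF i (hM i)
    · intro F hF g z hg hg0 hgb
      exact H.old ν hF z hg hg0 hgb
  · intro F hF t ht
    have hk := kap_nonneg H ν
    have hb := (ebc X ν F F hF hF).2.2.2.2.2.2.2.2.2.2.2
    obtain ⟨C, hC, hCb⟩ := hb
    have hn : nE ν F ≠ ⊤ := ((mLAM X ν).2.2.2.2.1 F hF).ne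
    have hnu : nuE ν F ≠ ⊤ := by
      unfold nuE
      refine ne_top_of_le_ne_top (ENNReal.mul_ne_top hC.ne (measure_ne_top ν Set.univ)) ?_
      exact (lintegral_mono fun x => (hCb x x).1).trans (lintegral_const C).le
    have hpp : pp ν F ≠ ⊤ := by
      unfold pp
      refine ne_top_of_le_ne_top (ENNReal.mul_ne_top (ENNReal.mul_ne_top hC.ne
        (measure_ne_top ν Set.univ)) (measure_ne_top ν Set.univ)) ?_
      calc _ ≤ ∫⁻ _ : X, ∫⁻ _ : X, C ∂ν ∂ν :=
            lintegral_mono fun x => lintegral_mono fun y => (hCb x y).2.2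
        _ = _ := by rw [lintegral_const, lintegral_const]
    have hM0 : 0 ≤ M ∨ IsEmpty I := by
      rcases isEmpty_or_nonempty I with h | ⟨⟨i⟩⟩
      · exact Or.inr h
      · left
        rw [← hM i]
        exact integral_nonneg fun x => u0 i x
    have hsum : ∑' k, m2 ν (t + kap ν u ω) (LL ν u √(14 * ω) k F) +
        ENNReal.ofReal (2 * (t + kap ν u ω)) * (nuE ν F + ENNReal.ofReal (kap ν u ω) * nE ν F) =
        ∑' k, pp ν (LL ν u √(14 * ω) k F) + (nuE ν F + ENNReal.ofReal (kap ν u ω) * nE ν F) +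
          ENNReal.ofReal ((t + kap ν u ω) ^ 2) * nE ν F := by
      rw [← nu_sum H ν hF, ← hnorm F hF, ← ENNReal.tsum_mul_left, ← ENNReal.tsum_mul_left,
        ← ENNReal.tsum_add, ← ENNReal.tsum_add, ← ENNReal.tsum_add]
      exact tsum_congr fun k => m2_eq ν (hL F hF k) (by positivity)
    rcases hM0 with hM0 | hI
    · exact arith hnu hn hpp ht hk (kap_le H ν) hω ENNReal.toReal_nonneg hM0 hsum
        (pp_sum H ν hM hF) (m2_eq ν hF ht)
    · -- no outcomes: the space is empty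
      have hX : IsEmpty X := by
        refine ⟨fun x => ?_⟩
        have h := us x
        simp at h
      have h1 := arith (M := 0) hnu hn hpp ht hk (kap_le H ν) hω ENNReal.toReal_nonneg le_rfl hsum
        ((pp_sum H ν hM hF).trans ?_) (m2_eq ν hF ht)
      · refine h1.trans ?_
        have : nuE ν F = 0 := by
          unfold nuE
          rw [Measure.eq_zero_of_isEmpty ν, lintegral_zero_measure]
        rw [this]
        simp
      · have : nuE ν F = 0 := by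
          unfold nuE
          rw [Measure.eq_zero_of_isEmpty ν, lintegral_zero_measure]
        rw [this]
        simp

end

end Pool.Agent.TH268.CC
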