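import Pool.Agent.TH268.CC.Stm
import Pool.Agent.W761.CB.Par
set_option autoImplicit false

open Filter Topology

namespace Pool.Agent.TH268.CC
open Pool.Agent.W761.CB

/-- the parameters -/
theorem par2 : S_PAR2 := by
  intro n m σ g CP CA b₀ c τ v₁ hn hm hmn hσ hσn hgn hCP hCA hb₀ hc hτ hv
  have hn1 : (1 : ℝ) ≤ n := by exact_mod_cast hn
  have two : (0 : ℝ) < 2 := by norm_num
  have hnm : 1 < (n : ℝ) / m := by rw [one_lt_div hm]; exact hmn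
  have h2nm : 2 * (n : ℝ) / m = 2 * (n / m) := by ring
  rw [h2nm] at hgn
  set κ : ℝ := n - σ with hκ
  have hκ0 : 0 < κ := by rw [hκ]; linarith
  set mu : ℝ := (2 : ℝ) ^ (-κ) with hmu
  set lam : ℝ := (2 : ℝ) ^ (κ - 2 * n) with hlam
  have hmu0 : 0 < mu := by positivity
  have hlam0 : 0 < lam := by positivity
  have hlm : lam ≤ mu := by
    rw [hlam, hmu]
    exact Real.rpow_le_rpow_of_exponent_le (by norm_num) (by rw [hκ]; linarith)
  have hmu1 : mu < 1 := Real.rpow_lt_one_of_one_lt_of_neg (by norm_num) (by linarith)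
  have hlam1 : lam < 1 := lt_of_le_of_lt hlm hmu1
  set ρ : ℝ := √mu with hρ
  have hρ0 : 0 ≤ ρ := Real.sqrt_nonneg _
  have hmuρ : mu = ρ ^ 2 := (Real.sq_sqrt hmu0.le).symm
  have hρ1 : ρ < 1 := by
    by_contra h
    have : 1 ≤ ρ ^ 2 := one_le_pow₀ (not_lt.1 h)
    linarith
  have h1ρ : 0 < 1 - ρ := by linarith
  have h1l : 0 < 1 - lam := by linarith
  set q : ℝ := (2 : ℝ) ^ (-σ / 4) with hq
  have hq0 : 0 < q := by positivity
  have hq1 : q < 1 := Real.rpow_lt_one_of_one_lt_of_neg (by norm_num) (by linarith)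
  have h1q : 0 < 1 - q := by linarith
  refine ⟨lam, mu, ρ, q, hlam0, hlm, hmu1, hρ0, hmuρ, ?_, ?_, ?_, rfl, ?_⟩
  · rw [← Real.rpow_natCast 2 n, ← Real.rpow_natCast _ 2, ← Real.rpow_mul two.le, hlam, hmu,
      ← Real.rpow_add two, ← Real.rpow_add two]
    rw [show κ - 2 * (n : ℝ) + (n : ℝ) * ((2 : ℕ) : ℝ) + -κ = 0 by push_cast; ring,
      Real.rpow_zero]
  · rw [hlam, hmu, ← Real.rpow_add two]
    exact Real.rpow_le_rpow_of_exponent_le (by norm_num) (by rw [hκ]; linarith)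
  · rw [← Real.rpow_natCast 2 n, hlam, ← Real.rpow_add two]
    congr 1
    rw [hκ]
    ring
  -- the constants
  have h2n : (0 : ℝ) < 2 ^ n := by positivity
  have h4n : (0 : ℝ) < 4 ^ n := by positivity
  obtain ⟨cl, hcl⟩ : ∃ cl : ℝ, cl = 1 / 2 := ⟨_, rfl⟩
  have hcl0 : 0 < cl := by rw [hcl]; norm_num
  set l0m : ℝ := min 1 (cl / (8 * (CP * 2 ^ (n + m) * (v₁ + 1)))) with hl0m
  have hl0m0 : 0 < l0m := lt_min one_pos (by positivity)
  set l0 : ℝ := l0m ^ (1 / m) with hl0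
  have hl00 : 0 < l0 := by positivity
  have hl01 : l0 ≤ 1 := Real.rpow_le_one hl0m0.le (min_le_left _ _) (by positivity)
  have hl0pow : l0 ^ m = l0m := by
    rw [hl0, ← Real.rpow_mul hl0m0.le, one_div, inv_mul_cancel₀ hm.ne', Real.rpow_one]
  set K1 : ℝ := 128 * CA * (v₁ + 1) / cl with hK1
  have hK10 : 0 < K1 := by positivity
  set c1 : ℝ := cl / (14 * 4 ^ n * √K1) with hc1
  have hc10 : 0 < c1 := by positivity
  set η1 : ℝ := min (cl / 192) (((1 - ρ) * c1 / 16) ^ 2) with hη1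
  have hη10 : 0 < η1 := by rw [hη1]; exact lt_min (by positivity) (by positivity)
  have hη1a : η1 ≤ cl / 192 := min_le_left _ _
  have hη1b : η1 ≤ ((1 - ρ) * c1 / 16) ^ 2 := min_le_right _ _
  set η3 : ℝ := min η1 (1 - lam) with hη3
  have hη30 : 0 < η3 := by rw [hη3]; exact lt_min hη10 (by positivity)
  have hη3a : η3 ≤ η1 := min_le_left _ _
  have hη3b : η3 ≤ 1 - lam := min_le_right _ _
  set η4 : ℝ := ((1 - q) * c1 / 4) ^ 2 with hη4
  have hη40 : 0 < η4 := by positivity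
  set F1 : ℝ := (2 / l0) ^ (2 * n : ℝ) / η1 with hF1
  have hF10 : 0 < F1 := by positivity
  set a1 : ℝ := 2 * (2 + √(7 / (1 - lam))) * v₁ + 25 * v₁ * η3 + 64 * n / l0 ^ 2 * τ with ha1
  have ha10 : 0 < a1 := by positivity
  set F2 : ℝ := F1 * a1 / (1 - lam) with hF2
  have hF20 : 0 < F2 := by positivity
  set D : ℝ := (1 + 2 * √n) ^ ((n : ℝ) + σ) with hD
  have hD0 : 0 < D := by positivity
  set F3 : ℝ := (2 : ℝ) ^ σ * F2 * (2 / l0) ^ (n : ℝ) * D / c with hF3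
  have hF30 : 0 < F3 := by positivity
  obtain ⟨δa, hδa, Qa⟩ := sp (2 * (n / m) - 2) F1 η3 (by linarith) hF10.le hη30
  obtain ⟨δb, hδb, Qb⟩ := sp (2 * (n / m) - 2) F2 1 (by linarith) hF20.le one_pos
  obtain ⟨δc, hδc, Qc⟩ := sp (2 * (n / m) - g - 1) F3 (((1 - ρ) * c1 / 4) ^ 2)
    (by linarith) hF30.le (by positivity)
  obtain ⟨δe, hδe, Qe⟩ := sp (n / m - 1) (1 / (K1 * l0 ^ n)) 1 (by linarith) (by positivity)
    one_pos
  refine ⟨l0, min 1 (min (min δa δb) (min (min δc δe)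
    (1 / (4 ^ n * K1 * b₀ ^ n)))), c1 ^ 2 / 16, η4,
    hl00, hl01, lt_min one_pos (lt_min (lt_min hδa hδb) (lt_min (lt_min hδc
      hδe) (by positivity))), by positivity, hη40, ?_⟩
  intro δ hδ hδ0
  have hδ1 : δ ≤ 1 := hδ0.trans (min_le_left _ _)
  have hx2 := hδ0.trans (min_le_right _ _)
  have hx3 := hx2.trans (min_le_left _ _)
  have hδA' : δ ≤ δa := hx3.trans (min_le_left _ _)
  have hδB' : δ ≤ δb := hx3.trans (min_le_right _ _)
  have hx4 := hx2.trans (min_le_right _ _)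
  have hx5 := hx4.trans (min_le_left _ _)
  have hδC' : δ ≤ δc := hx5.trans (min_le_left _ _)
  have hδE' : δ ≤ δe := hx5.trans (min_le_right _ _)
  have hδG : δ ≤ 1 / (4 ^ n * K1 * b₀ ^ n) := hx4.trans (min_le_right _ _)
  have Ra := Qa δ hδ.le hδA'
  have Rb := Qb δ hδ.le hδB'
  have Rc := Qc δ hδ.le hδC'
  have Re := Qe δ hδ.le hδE'
  refine ⟨hδ1, ?_⟩
  set Λ : ℝ := l0 * δ ^ (-(1 / m)) with hΛ
  have hΛ0 : 0 < Λ := by positivity
  have hΛn : Λ ^ n = l0 ^ n * δ ^ (-(n / m : ℝ)) := by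
    rw [hΛ, mul_pow, ← Real.rpow_natCast (δ ^ (-(1 / m))), ← Real.rpow_mul hδ.le]
    congr 2
    ring
  have hΛm : Λ ^ m = l0m / δ := by
    rw [hΛ, Real.mul_rpow hl00.le (by positivity), hl0pow, ← Real.rpow_mul hδ.le]
    rw [show -(1 / m) * m = -1 by field_simp, Real.rpow_neg_one]
    rfl
  have hbig : ∀ κ' : ℝ, 0 < κ' → 1 / (κ' * l0 ^ n) * δ ^ ((n : ℝ) / m - 1) ≤ 1 →
      1 ≤ κ' * δ * Λ ^ n := by
    intro κ' hκ' h
    rw [hΛn]
    have e1 : δ ^ ((n : ℝ) / m - 1) * (δ * δ ^ (-(n / m : ℝ))) = 1 := by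
      nth_rewrite 2 [← Real.rpow_one δ]
      rw [← Real.rpow_add hδ, ← Real.rpow_add hδ]
      rw [show (n : ℝ) / m - 1 + (1 + -(n / m : ℝ)) = 0 by ring, Real.rpow_zero]
    have hp : 0 < δ ^ ((n : ℝ) / m - 1) := by positivity
    have h' : δ ^ ((n : ℝ) / m - 1) ≤ κ' * l0 ^ n := by
      rw [div_mul_eq_mul_div, one_mul, div_le_one (by positivity)] at h
      exact h
    calc (1 : ℝ) = δ ^ ((n : ℝ) / m - 1) * (δ * δ ^ (-(n / m : ℝ))) := e1.symm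
      _ ≤ κ' * l0 ^ n * (δ * δ ^ (-(n / m : ℝ))) := by gcongr
      _ = κ' * δ * (l0 ^ n * δ ^ (-(n / m : ℝ))) := by ring
  obtain ⟨s, hs⟩ := side n hn Λ K1 δ b₀ hΛ0 hK10 hδ hb₀ (hbig K1 hK10 Re) (by
    rw [le_div_iff₀ (by positivity)] at hδG
    linarith)
  refine ⟨s, fun ℓ hℓ1 hℓ2 => ?_⟩
  have hℓ : 0 < ℓ := by linarith
  obtain ⟨t1, t2, t3⟩ := hs ℓ hℓ1 hℓ2
  refine ⟨t1, ?_⟩
  set ω0 : ℝ := 1 / (η1 * δ * (ℓ ^ n) ^ 2) with hω0
  have hω00 : 0 < ω0 := by positivity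
  -- `ω0 ≤ F1 δ^(2n/m - 1)`
  have hω1 : ω0 ≤ F1 * δ ^ (2 * ((n : ℝ) / m) - 1) := by
    have e1 : (ℓ ^ n) ^ 2 = ℓ ^ (2 * n : ℝ) := by
      rw [← Real.rpow_natCast ℓ n, ← Real.rpow_natCast _ 2, ← Real.rpow_mul hℓ.le]
      congr 1
      push_cast
      ring
    have e2 : (Λ / 2) ^ (2 * n : ℝ) ≤ ℓ ^ (2 * n : ℝ) :=
      Real.rpow_le_rpow (by positivity) hℓ1 (by positivity)
    have e3 : (Λ / 2) ^ (2 * n : ℝ) = (l0 / 2) ^ (2 * n : ℝ) * δ ^ (-(2 * ((n : ℝ) / m))) := by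
      rw [hΛ, mul_div_right_comm, Real.mul_rpow (by positivity) (by positivity),
        ← Real.rpow_mul hδ.le]
      congr 2
      ring
    have e4 : (2 / l0) ^ (2 * n : ℝ) * (l0 / 2) ^ (2 * n : ℝ) = 1 := by
      rw [← Real.mul_rpow (by positivity) (by positivity)]
      rw [show 2 / l0 * (l0 / 2) = 1 by field_simp, Real.one_rpow]
    have e5 : δ ^ (2 * ((n : ℝ) / m) - 1) * (δ * δ ^ (-(2 * ((n : ℝ) / m)))) = 1 := by
      nth_rewrite 2 [← Real.rpow_one δ]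
      rw [← Real.rpow_add hδ, ← Real.rpow_add hδ]
      rw [show 2 * ((n : ℝ) / m) - 1 + (1 + -(2 * ((n : ℝ) / m))) = 0 by ring, Real.rpow_zero]
    rw [hω0, div_le_iff₀ (by positivity), e1]
    calc (1 : ℝ) = (2 / l0) ^ (2 * n : ℝ) * (l0 / 2) ^ (2 * n : ℝ) *
          (δ ^ (2 * ((n : ℝ) / m) - 1) * (δ * δ ^ (-(2 * ((n : ℝ) / m))))) := by
          rw [e4, e5, one_mul]
      _ = (2 / l0) ^ (2 * n : ℝ) * δ ^ (2 * ((n : ℝ) / m) - 1) * δ * (Λ / 2) ^ (2 * n : ℝ) := by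
          rw [e3]; ring
      _ ≤ (2 / l0) ^ (2 * n : ℝ) * δ ^ (2 * ((n : ℝ) / m) - 1) * δ * ℓ ^ (2 * n : ℝ) := by gcongr
      _ = F1 * δ ^ (2 * ((n : ℝ) / m) - 1) * (η1 * δ * ℓ ^ (2 * n : ℝ)) := by
          rw [hF1]
          field_simp
  have hpow1 : δ ^ (2 * ((n : ℝ) / m) - 1) = δ ^ (2 * ((n : ℝ) / m) - 2) * δ := by
    nth_rewrite 3 [← Real.rpow_one δ]
    rw [← Real.rpow_add hδ]
    congr 1
    ring
  have hpow2 : δ ^ (2 * ((n : ℝ) / m) - 1) * δ = δ ^ (2 * ((n : ℝ) / m) - 2) * δ ^ 2 := by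
    rw [hpow1]; ring
  have hωb : ω0 ≤ η3 * δ := by
    refine hω1.trans ?_
    rw [hpow1, ← mul_assoc]
    exact mul_le_mul_of_nonneg_right Ra hδ.le
  have hωc : ω0 ≤ (1 - lam) * δ := hωb.trans (mul_le_mul_of_nonneg_right hη3b hδ.le)
  have hωn : ω0 / (1 - lam) ≤ δ := by
    rw [div_le_iff₀ h1l]
    linarith only [hωc]
  refine ⟨ω0, hω00, hωc, ?_⟩
  intro ξ N1 A1 es H T a EV ha hEV0 hEV hT hξ hN1 hA1 hes hH hineq
  have hξ1 : ξ = η1 * δ := by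
    rw [hξ, hω0]
    field_simp
  have hξω : ξ + ω0 ≤ 2 * η1 * δ := by
    have := mul_le_mul_of_nonneg_right hη3a hδ.le
    rw [hξ1]
    linarith only [this, hωb]
  have hξω0 : 0 ≤ ξ + ω0 := by rw [hξ1]; positivity
  have hN1le : N1 ≤ 2 * δ := by rw [hN1]; linarith only [hωn]
  have hN10 : 0 ≤ N1 := by rw [hN1]; positivity
  have hA1le : A1 ≤ a1 * δ := by
    rw [hA1, ha1]
    have h5 : (2 + √(7 / (1 - lam))) * v₁ * N1 ≤ (2 + √(7 / (1 - lam))) * v₁ * (2 * δ) := by gcongr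
    have h7 : 25 * ω0 * v₁ ≤ 25 * (η3 * δ) * v₁ := by gcongr
    linarith only [h5, h7]
  have hA10 : 0 ≤ A1 := by rw [hA1]; positivity
  have hes0 : 0 ≤ es := by rw [hes]; positivity
  have hes1 : es ≤ F2 * (δ ^ (2 * ((n : ℝ) / m) - 1) * δ) := by
    calc es = ω0 * A1 / (1 - lam) := hes
      _ ≤ (F1 * δ ^ (2 * ((n : ℝ) / m) - 1)) * (a1 * δ) / (1 - lam) := by gcongr
      _ = F2 * (δ ^ (2 * ((n : ℝ) / m) - 1) * δ) := by rw [hF2]; ring
  have hesδ : es ≤ δ ^ 2 := by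
    refine hes1.trans ?_
    rw [hpow2, ← mul_assoc]
    calc F2 * δ ^ (2 * ((n : ℝ) / m) - 2) * δ ^ 2 ≤ 1 * δ ^ 2 := by gcongr
      _ = δ ^ 2 := one_mul _
  -- the four terms
  have hEVes : EV + es ≤ (v₁ + 1) * δ ^ 2 := by
    linarith only [hEV, hesδ]
  have hEVes0 : 0 ≤ EV + es := by positivity
  have hL1 : CP * 2 ^ (n + m) * ℓ ^ m * (EV + es) ≤ cl / 8 * δ := by
    have h5 : ℓ ^ m ≤ l0m / δ := by
      rw [← hΛm]
      exact Real.rpow_le_rpow hℓ.le hℓ2 hm.le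
    have h6 : l0m ≤ cl / (8 * (CP * 2 ^ (n + m) * (v₁ + 1))) := min_le_right _ _
    calc CP * 2 ^ (n + m) * ℓ ^ m * (EV + es)
        ≤ CP * 2 ^ (n + m) * (l0m / δ) * ((v₁ + 1) * δ ^ 2) := by gcongr
      _ = CP * 2 ^ (n + m) * (v₁ + 1) * l0m * δ := by field_simp
      _ ≤ CP * 2 ^ (n + m) * (v₁ + 1) * (cl / (8 * (CP * 2 ^ (n + m) * (v₁ + 1)))) * δ := by
          gcongr
      _ = cl / 8 * δ := by field_simp
  have hbs : 0 < (ℓ / 2 ^ s) ^ n := by positivity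
  have hL2 : 16 * (CA * (ℓ / 2 ^ s) ^ n) * (EV + es) ≤ cl / 8 * δ := by
    calc 16 * (CA * (ℓ / 2 ^ s) ^ n) * (EV + es)
        ≤ 16 * (CA * (ℓ / 2 ^ s) ^ n) * ((v₁ + 1) * δ ^ 2) := by gcongr
      _ = 16 * CA * (v₁ + 1) / K1 * δ * ((ℓ / 2 ^ s) ^ n * (K1 * δ)) := by field_simp
      _ ≤ 16 * CA * (v₁ + 1) / K1 * δ * 1 := by gcongr
      _ = cl / 8 * δ := by
          rw [hK1]
          field_simp
          norm_num
  have hL3 : 12 * (ξ + ω0) ≤ cl / 8 * δ := by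
    have h5 := mul_le_mul_of_nonneg_right hη1a hδ.le
    linarith only [h5, hξω]
  have hlsδ : δ / 2 = cl * δ := by rw [hcl]; ring
  have hsδ : 0 < √δ := Real.sqrt_pos.2 hδ
  have hsK : 0 < √K1 := Real.sqrt_pos.2 hK10
  have hsq : δ = √δ * √δ := (Real.mul_self_sqrt hδ.le).symm
  have hR1 : √(4 ^ n / (ℓ / 2 ^ s) ^ n) ≤ 4 ^ n * √K1 * √δ := by
    rw [Real.sqrt_le_left (by positivity), mul_pow, mul_pow, Real.sq_sqrt hK10.le,
      Real.sq_sqrt hδ.le]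
    calc 4 ^ n / (ℓ / 2 ^ s) ^ n = 4 ^ n * (1 / (ℓ / 2 ^ s) ^ n) := by ring
      _ ≤ 4 ^ n * (4 ^ n * K1 * δ) := by gcongr
      _ = (4 ^ n) ^ 2 * K1 * δ := by ring
  have hH0 : 0 ≤ H := by rw [hH]; positivity
  set G : ℝ := √a + H / (1 - ρ) + √T / (1 - q) with hG
  have hG0 : 0 ≤ G := by positivity
  have hR2 : cl / 2 * δ ≤ 7 * (4 ^ n * √K1 * √δ) * G := by
    have h5 : 7 * √(4 ^ n / (ℓ / 2 ^ s) ^ n) * G ≤ 7 * (4 ^ n * √K1 * √δ) * G := by gcongr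
    have h6 : 0 < cl * δ := by positivity
    linarith only [h5, hL1, hL2, hL3, hineq, hlsδ, h6]
  have hR3 : c1 * √δ ≤ G := by
    have h6 : cl / 2 * δ = 7 * (4 ^ n * √K1 * √δ) * (c1 * √δ) := by
      rw [hc1]
      nth_rewrite 1 [hsq]
      field_simp
      norm_num
    rw [h6] at hR2
    exact le_of_mul_le_mul_left hR2 (by positivity)
  have hHle : H / (1 - ρ) ≤ c1 * √δ / 2 := by
    rw [div_le_iff₀ h1ρ, hH]
    have b4 := mul_le_mul_of_nonneg_right hη1b hδ.le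
    have b0 : 0 ≤ ((1 - ρ) * c1 / 16) ^ 2 * δ := by positivity
    have b1 : √(2 * (ξ + ω0)) ≤ 2 * ((1 - ρ) * c1 / 16) * √δ := by
      rw [Real.sqrt_le_left (by positivity), mul_pow, Real.sq_sqrt hδ.le, mul_pow]
      linarith only [b0, b4, hξω]
    have b2 : √(ξ + ω0) ≤ 2 * ((1 - ρ) * c1 / 16) * √δ := by
      rw [Real.sqrt_le_left (by positivity), mul_pow, Real.sq_sqrt hδ.le, mul_pow]
      linarith only [b0, b4, hξω]
    have b3 : √((2 : ℝ) ^ σ * es /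
        (ℓ ^ n * (c * δ ^ (g + n / m) * (1 + 2 * √n) ^ (-(n + σ))))) ≤
        ((1 - ρ) * c1 / 4) * √δ := by
      rw [Real.sqrt_le_left (by positivity), mul_pow, Real.sq_sqrt hδ.le]
      have hDinv : (1 + 2 * √(n : ℝ)) ^ (-((n : ℝ) + σ)) = D⁻¹ := by
        rw [hD, Real.rpow_neg (by positivity)]
      rw [hDinv, div_le_iff₀ (by positivity)]
      have e2 : (Λ / 2) ^ n ≤ ℓ ^ n := pow_le_pow_left₀ (by positivity) hℓ1 n
      have e3 : (Λ / 2) ^ n = (l0 / 2) ^ n * δ ^ (-((n : ℝ) / m)) := by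
        rw [div_pow, hΛn, div_pow]
        ring
      have e4 : (2 / l0) ^ (n : ℝ) * (l0 / 2) ^ n = 1 := by
        rw [Real.rpow_natCast, ← mul_pow]
        rw [show 2 / l0 * (l0 / 2) = 1 by field_simp, one_pow]
      have e5 : δ ^ (2 * ((n : ℝ) / m) - 1) * δ =
          δ ^ (2 * ((n : ℝ) / m) - g - 1) * δ * (δ ^ (-((n : ℝ) / m)) * δ ^ (g + n / m)) := by
        nth_rewrite 2 [← Real.rpow_one δ]
        nth_rewrite 4 [← Real.rpow_one δ]
        rw [← Real.rpow_add hδ, ← Real.rpow_add hδ, ← Real.rpow_add hδ, ← Real.rpow_add hδ]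
        congr 1
        ring
      calc (2 : ℝ) ^ σ * es ≤ (2 : ℝ) ^ σ * (F2 * (δ ^ (2 * ((n : ℝ) / m) - 1) * δ)) := by gcongr
        _ = F3 * δ ^ (2 * ((n : ℝ) / m) - g - 1) * δ *
            ((l0 / 2) ^ n * δ ^ (-((n : ℝ) / m)) * (c * δ ^ (g + n / m) * D⁻¹)) := by
            have hD1 : D * D⁻¹ = 1 := mul_inv_cancel₀ hD0.ne'
            have hc1' : c / c = 1 := div_self hc.ne'
            rw [e5, hF3]
            calc (2 : ℝ) ^ σ * (F2 * (δ ^ (2 * ((n : ℝ) / m) - g - 1) * δ *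
                  (δ ^ (-((n : ℝ) / m)) * δ ^ (g + n / m))))
                = ((2 / l0) ^ (n : ℝ) * (l0 / 2) ^ n) * (D * D⁻¹) * (c / c) *
                  ((2 : ℝ) ^ σ * (F2 * (δ ^ (2 * ((n : ℝ) / m) - g - 1) * δ *
                  (δ ^ (-((n : ℝ) / m)) * δ ^ (g + n / m))))) := by
                  rw [e4, hD1, hc1']
                  ring
              _ = _ := by ring
        _ ≤ ((1 - ρ) * c1 / 4) ^ 2 * δ *
            ((l0 / 2) ^ n * δ ^ (-((n : ℝ) / m)) * (c * δ ^ (g + n / m) * D⁻¹)) := by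
            gcongr
        _ = ((1 - ρ) * c1 / 4) ^ 2 * δ * ((Λ / 2) ^ n * (c * δ ^ (g + n / m) * D⁻¹)) := by
            rw [e3]
        _ ≤ ((1 - ρ) * c1 / 4) ^ 2 * δ * (ℓ ^ n * (c * δ ^ (g + n / m) * D⁻¹)) := by
            gcongr
    have h9 : 0 ≤ (1 - ρ) * c1 * √δ := by positivity
    linarith only [b1, b2, b3, h9]
  have hTle : √T / (1 - q) ≤ c1 * √δ / 4 := by
    rw [div_le_iff₀ h1q]
    calc √T ≤ √(η4 * δ) := Real.sqrt_le_sqrt hT
      _ = (1 - q) * c1 / 4 * √δ := by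
          rw [hη4, Real.sqrt_mul' _ hδ.le, Real.sqrt_sq (by positivity)]
      _ = c1 * √δ / 4 * (1 - q) := by ring
  have hfin : c1 * √δ / 4 ≤ √a := by linarith only [hHle, hR3, hTle, hG]
  have h5 : (c1 * √δ / 4) ^ 2 ≤ a := by
    have := pow_le_pow_left₀ (by positivity) hfin 2
    rwa [Real.sq_sqrt ha] at this
  rw [div_pow, mul_pow, Real.sq_sqrt hδ.le] at h5
  linarith

end Pool.Agent.TH268.CC
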