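import Pool.Agent.TH268.CC.Stm
import Pool.Agent.W975.CB.Ms
import Pool.Agent.W366.CB.Lam
import Pool.Agent.W337.CB.Mecke
import Pool.Agent.W417.CB.Ebc

set_option autoImplicit false
open MeasureTheory
open scoped ENNReal
namespace Pool.Agent.TH268.CC
open Pool.Agent.W761.CB

namespace RemOne

section
variable {X : Type} [MeasurableSpace X] (ν : Measure X)

theorem toReal_eLp {a : X → ℂ} :
    (eLpNorm a 2 ν).toReal = √(∫⁻ z, ‖a z‖ₑ ^ 2 ∂ν).toReal := by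
  rw [eLpNorm_eq_lintegral_rpow_enorm_toReal (by norm_num) (by norm_num)]
  have h2 : (2 : ℝ≥0∞).toReal = (2 : ℝ) := by norm_num
  rw [h2]
  have h3 : ∀ z, ‖a z‖ₑ ^ (2 : ℝ) = ‖a z‖ₑ ^ 2 := by
    intro z
    rw [← ENNReal.rpow_natCast]; norm_num
  simp only [h3]
  rw [← ENNReal.toReal_rpow, Real.sqrt_eq_rpow]

theorem eLp_ne_top {a : X → ℂ} (h : ∫⁻ z, ‖a z‖ₑ ^ 2 ∂ν ≠ ⊤) : eLpNorm a 2 ν ≠ ⊤ := by
  rw [eLpNorm_eq_lintegral_rpow_enorm_toReal (by norm_num) (by norm_num)]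
  have h2 : (2 : ℝ≥0∞).toReal = (2 : ℝ) := by norm_num
  rw [h2]
  have h3 : ∀ z, ‖a z‖ₑ ^ (2 : ℝ) = ‖a z‖ₑ ^ 2 := by
    intro z
    rw [← ENNReal.rpow_natCast]; norm_num
  simp only [h3]
  exact ENNReal.rpow_ne_top_of_nonneg (by norm_num) h

theorem mink {a b : X → ℂ} (ha : Measurable a) (hb : Measurable b)
    (hA : ∫⁻ z, ‖a z‖ₑ ^ 2 ∂ν ≠ ⊤) (hB : ∫⁻ z, ‖b z‖ₑ ^ 2 ∂ν ≠ ⊤) :
    ‖(((√(∫⁻ z, ‖a z‖ₑ ^ 2 ∂ν).toReal : ℝ) : ℂ) -
      ((√(∫⁻ z, ‖b z‖ₑ ^ 2 ∂ν).toReal : ℝ) : ℂ))‖ₑ ^ 2 ≤ ∫⁻ z, ‖a z - b z‖ₑ ^ 2 ∂ν := by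
  by_cases hD : ∫⁻ z, ‖a z - b z‖ₑ ^ 2 ∂ν = ⊤
  · rw [hD]; exact le_top
  have eA := eLp_ne_top ν hA
  have eB := eLp_ne_top ν hB
  have eD : eLpNorm (a - b) 2 ν ≠ ⊤ := eLp_ne_top ν (a := a - b) hD
  have t1 : eLpNorm a 2 ν ≤ eLpNorm (a - b) 2 ν + eLpNorm b 2 ν := by
    have := eLpNorm_add_le (p := 2) (μ := ν) (f := a - b) (g := b)
      (ha.sub hb).aestronglyMeasurable hb.aestronglyMeasurable (by norm_num)
    rwa [sub_add_cancel] at this
  have t2 : eLpNorm b 2 ν ≤ eLpNorm a 2 ν + eLpNorm (a - b) 2 ν := by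
    have := eLpNorm_sub_le (p := 2) (μ := ν) (f := a) (g := a - b)
      ha.aestronglyMeasurable (ha.sub hb).aestronglyMeasurable (by norm_num)
    rwa [sub_sub_cancel] at this
  have r1 := ENNReal.toReal_mono (ENNReal.add_ne_top.2 ⟨eD, eB⟩) t1
  have r2 := ENNReal.toReal_mono (ENNReal.add_ne_top.2 ⟨eA, eD⟩) t2
  rw [ENNReal.toReal_add eD eB, toReal_eLp, toReal_eLp, toReal_eLp] at r1
  rw [ENNReal.toReal_add eA eD, toReal_eLp, toReal_eLp, toReal_eLp] at r2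
  have hDD : ∫⁻ z, ‖(a - b) z‖ₑ ^ 2 ∂ν = ∫⁻ z, ‖a z - b z‖ₑ ^ 2 ∂ν := rfl
  rw [hDD] at r1 r2
  set A := (∫⁻ z, ‖a z‖ₑ ^ 2 ∂ν).toReal
  set B := (∫⁻ z, ‖b z‖ₑ ^ 2 ∂ν).toReal
  have habs : |√A - √B| ≤ √(∫⁻ z, ‖a z - b z‖ₑ ^ 2 ∂ν).toReal := by
    rw [abs_le]; constructor <;> linarith
  have hsq : |√A - √B| ^ 2 ≤ (∫⁻ z, ‖a z - b z‖ₑ ^ 2 ∂ν).toReal := by
    calc |√A - √B| ^ 2 ≤ √(∫⁻ z, ‖a z - b z‖ₑ ^ 2 ∂ν).toReal ^ 2 :=
          pow_le_pow_left₀ (abs_nonneg _) habs 2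
      _ = _ := Real.sq_sqrt ENNReal.toReal_nonneg
  rw [← Complex.ofReal_sub]
  have hn : ‖((√A - √B : ℝ) : ℂ)‖ₑ = ENNReal.ofReal |√A - √B| := by
    rw [← ofReal_norm, Complex.norm_real, Real.norm_eq_abs]
  rw [hn, ← ENNReal.ofReal_pow (abs_nonneg _)]
  exact (ENNReal.ofReal_le_ofReal hsq).trans ENNReal.ofReal_toReal_le

theorem sq_enorm_sqrt {A : ℝ≥0∞} (hA : A ≠ ⊤) : ‖((√A.toReal : ℝ) : ℂ)‖ₑ ^ 2 = A := by
  rw [← ofReal_norm, Complex.norm_real, Real.norm_eq_abs, abs_of_nonneg (Real.sqrt_nonneg _),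
    ← ENNReal.ofReal_pow (Real.sqrt_nonneg _), Real.sq_sqrt ENNReal.toReal_nonneg,
    ENNReal.ofReal_toReal hA]

/-- `∫ ‖F (z :: S)‖² dz` -/
noncomputable def N2 (F : Multiset X → ℂ) (S : Multiset X) : ℝ≥0∞ := ∫⁻ z, ‖F (z ::ₘ S)‖ₑ ^ 2 ∂ν

/-- forgetting one particle -/
noncomputable def GG (F : Multiset X → ℂ) (S : Multiset X) : ℂ := ((√(N2 ν F S).toReal : ℝ) : ℂ)

variable [IsFiniteMeasure ν]

omit [MeasurableSpace X] in
theorem ms_surj (S : Multiset X) : ∃ γ : Cf X, ms γ = S := by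
  obtain ⟨l, rfl⟩ := Quot.exists_rep S
  refine ⟨⟨l.length, l.get⟩, ?_⟩
  show ((List.ofFn l.get : List X) : Multiset X) = _
  rw [List.ofFn_get]
  rfl

theorem cons_meas {F : Multiset X → ℂ} (hF : EB F) :
    Measurable (fun p : X × Cf X => F (p.1 ::ₘ ms p.2)) :=
  (Pool.Agent.W417.CB.proof_ebc Pool.Agent.W975.CB.proof_ms
    (Pool.Agent.W366.CB.proof_lam Pool.Agent.W975.CB.proof_ms) X (0 : Measure X) F F hF hF).2.2.2.2.1

theorem cons_meas' {F : Multiset X → ℂ} (hF : EB F) (S : Multiset X) :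
    Measurable (fun z : X => F (z ::ₘ S)) := by
  obtain ⟨γ, rfl⟩ := ms_surj S
  exact (cons_meas hF).comp (measurable_id.prodMk measurable_const)

theorem N2_ne_top {F : Multiset X → ℂ} (hF : EB F) (S : Multiset X) : N2 ν F S ≠ ⊤ := by
  obtain ⟨C, c, hC, hc, hb⟩ := hF.bdd
  have h1 : N2 ν F S ≤ ∫⁻ _, (ENNReal.ofReal (C * c ^ (Multiset.card S + 1))) ^ 2 ∂ν := by
    apply lintegral_mono
    intro z
    have := hb (z ::ₘ S)
    rw [Multiset.card_cons] at this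
    simp only
    gcongr
    rw [← ofReal_norm]
    exact ENNReal.ofReal_le_ofReal this
  apply ne_top_of_le_ne_top _ h1
  rw [lintegral_const]
  exact ENNReal.mul_ne_top (by simp) (measure_ne_top _ _)

theorem GG_sq {F : Multiset X → ℂ} (hF : EB F) (S : Multiset X) :
    ‖GG ν F S‖ₑ ^ 2 = N2 ν F S := sq_enorm_sqrt (N2_ne_top ν hF S)

theorem N2_meas {F : Multiset X → ℂ} (hF : EB F) : Measurable fun γ : Cf X => N2 ν F (ms γ) := by
  unfold N2
  have h : Measurable (fun p : X × Cf X => ‖F (p.1 ::ₘ ms p.2)‖ₑ ^ 2) :=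
    (cons_meas hF).enorm.pow_const 2
  exact Measurable.lintegral_prod_left' h

theorem GG_eb {F : Multiset X → ℂ} (hF : EB F) : EB (GG ν F) := by
  constructor
  · unfold GG
    exact Complex.measurable_ofReal.comp
      ((Real.continuous_sqrt.measurable.comp (N2_meas ν hF).ennreal_toReal))
  · obtain ⟨C, c, hC, hc, hb⟩ := hF.bdd
    refine ⟨C * c * √(ν Set.univ).toReal, c, by positivity, hc, fun S => ?_⟩
    unfold GG
    rw [Complex.norm_real, Real.norm_eq_abs, abs_of_nonneg (Real.sqrt_nonneg _)]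
    have h1 : N2 ν F S ≤ ENNReal.ofReal (C * c ^ (Multiset.card S + 1)) ^ 2 * ν Set.univ := by
      rw [← lintegral_const]
      apply lintegral_mono
      intro z
      have := hb (z ::ₘ S)
      rw [Multiset.card_cons] at this
      simp only
      gcongr
      rw [← ofReal_norm]
      exact ENNReal.ofReal_le_ofReal this
    have h2 : (N2 ν F S).toReal ≤ (C * c ^ (Multiset.card S + 1)) ^ 2 * (ν Set.univ).toReal := by
      have h3 := ENNReal.toReal_mono (ENNReal.mul_ne_top (by simp) (measure_ne_top _ _)) h1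
      rwa [ENNReal.toReal_mul, ENNReal.toReal_pow, ENNReal.toReal_ofReal (by positivity)] at h3
    calc √(N2 ν F S).toReal ≤ √((C * c ^ (Multiset.card S + 1)) ^ 2 * (ν Set.univ).toReal) :=
          Real.sqrt_le_sqrt h2
      _ = C * c ^ (Multiset.card S + 1) * √(ν Set.univ).toReal := by
          rw [Real.sqrt_mul (by positivity), Real.sqrt_sq (by positivity)]
      _ = C * c * √(ν Set.univ).toReal * c ^ Multiset.card S := by ring

/-- the Mecke formula for the number operator -/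
theorem int_N2 {F : Multiset X → ℂ} (hF : EB F) :
    ∫⁻ γ, N2 ν F (ms γ) ∂(lam ν) =
      ∫⁻ γ, (Multiset.card (ms γ) : ℝ≥0∞) * ‖F (ms γ)‖ₑ ^ 2 ∂(lam ν) := by
  have hfin : IsFiniteMeasure (lam ν) :=
    (Pool.Agent.W366.CB.proof_lam Pool.Agent.W975.CB.proof_ms X ν).2.1
  have hm : Measurable (fun p : X × Cf X => ‖F (p.1 ::ₘ ms p.2)‖ₑ ^ 2) :=
    (cons_meas hF).enorm.pow_const 2
  have hM := Pool.Agent.W337.CB.proof_mecke Pool.Agent.W975.CB.proof_ms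
    (Pool.Agent.W366.CB.proof_lam Pool.Agent.W975.CB.proof_ms) X ν
    (fun _ S => ‖F S‖ₑ ^ 2) ((hF.meas.comp measurable_snd).enorm.pow_const 2)
  have hswap : ∫⁻ γ, N2 ν F (ms γ) ∂(lam ν) =
      ∫⁻ x, ∫⁻ γ, ‖F (x ::ₘ ms γ)‖ₑ ^ 2 ∂(lam ν) ∂ν := by
    unfold N2
    rw [lintegral_lintegral_swap]
    exact (hm.comp measurable_swap).aemeasurable
  rw [hswap, ← hM]
  apply lintegral_congr
  intro γ
  rw [Multiset.map_const', Multiset.sum_replicate, nsmul_eq_mul]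

theorem int_N2_le {F : Multiset X → ℂ} (hF : EB F) (k : ℕ)
    (hk : ∀ S, k < Multiset.card S → F S = 0) :
    ∫⁻ γ, N2 ν F (ms γ) ∂(lam ν) ≤ (k : ℝ≥0∞) * nE ν F := by
  rw [int_N2 ν hF]
  unfold nE
  rw [← lintegral_const_mul' _ _ (by simp)]
  apply lintegral_mono
  intro γ
  simp only
  by_cases h : k < Multiset.card (ms γ)
  · rw [hk _ h]; simp
  · gcongr
    exact_mod_cast not_lt.1 h

theorem nE_GG {F : Multiset X → ℂ} (hF : EB F) (k : ℕ)
    (hk : ∀ S, Multiset.card S ≠ k + 1 → F S = 0) :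
    nE ν (GG ν F) = ((k + 1 : ℕ) : ℝ≥0∞) * nE ν F := by
  have h1 : nE ν (GG ν F) = ∫⁻ γ, N2 ν F (ms γ) ∂(lam ν) := by
    unfold nE
    exact lintegral_congr fun γ => GG_sq ν hF _
  rw [h1, int_N2 ν hF]
  unfold nE
  rw [← lintegral_const_mul' _ _ (by simp)]
  apply lintegral_congr
  intro γ
  by_cases h : Multiset.card (ms γ) = k + 1
  · rw [h]
  · rw [hk _ h]; simp

theorem dE_GG {F : Multiset X → ℂ} (hF : EB F) (k : ℕ)
    (hk : ∀ S, Multiset.card S ≠ k + 1 → F S = 0) (x y : X) :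
    dE ν (GG ν F) x y ≤ ((k + 1 : ℕ) : ℝ≥0∞) * dE ν F x y := by
  have hE := Pool.Agent.W417.CB.proof_ebc Pool.Agent.W975.CB.proof_ms
    (Pool.Agent.W366.CB.proof_lam Pool.Agent.W975.CB.proof_ms) X ν
  have hx : EB (an x F) := (hE F F hF hF).1 x
  have hy : EB (an y F) := (hE F F hF hF).1 y
  set H : Multiset X → ℂ := fun S => F (x ::ₘ S) - F (y ::ₘ S) with hH
  have hHeb : EB H := by
    have := (hE _ _ hx hy).2.2.1 1 (-1)
    have e : H = fun S => (1 : ℂ) * an x F S + (-1) * an y F S := by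
      funext S
      simp only [hH, an]; ring
    rw [e]; exact this
  have h1 : dE ν (GG ν F) x y ≤ ∫⁻ γ, N2 ν H (ms γ) ∂(lam ν) := by
    unfold dE nE
    apply lintegral_mono
    intro γ
    simp only
    have hs := mink ν (a := fun z => F (z ::ₘ x ::ₘ ms γ)) (b := fun z => F (z ::ₘ y ::ₘ ms γ))
      (cons_meas' hF _) (cons_meas' hF _) (N2_ne_top ν hF _) (N2_ne_top ν hF _)
    refine hs.trans (le_of_eq ?_)
    unfold N2
    apply lintegral_congr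
    intro z
    simp only [hH]
    rw [Multiset.cons_swap z x, Multiset.cons_swap z y]
  refine h1.trans ((int_N2_le ν hHeb (k + 1) ?_).trans (le_of_eq rfl))
  intro S hS
  simp only [hH]
  rw [hk _ (by rw [Multiset.card_cons]; omega), hk _ (by rw [Multiset.card_cons]; omega), sub_zero]

theorem an_GG {F : Multiset X → ℂ} (hF : EB F) (k : ℕ)
    (hk : ∀ S, Multiset.card S ≠ k + 1 → F S = 0) (x y : X) :
    nE ν (an y (an x (GG ν F))) ≤ ((k + 1 : ℕ) : ℝ≥0∞) * nE ν (an y (an x F)) := by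
  have hE := Pool.Agent.W417.CB.proof_ebc Pool.Agent.W975.CB.proof_ms
    (Pool.Agent.W366.CB.proof_lam Pool.Agent.W975.CB.proof_ms) X ν
  have hx : EB (an x F) := (hE F F hF hF).1 x
  have hxy : EB (an y (an x F)) := (hE _ _ hx hx).1 y
  have h1 : nE ν (an y (an x (GG ν F))) = ∫⁻ γ, N2 ν (an y (an x F)) (ms γ) ∂(lam ν) := by
    unfold nE
    apply lintegral_congr
    intro γ
    have : an y (an x (GG ν F)) (ms γ) = GG ν F (x ::ₘ y ::ₘ ms γ) := rfl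
    rw [this, GG_sq ν hF]
    unfold N2
    apply lintegral_congr
    intro z
    have : an y (an x F) (z ::ₘ ms γ) = F (x ::ₘ y ::ₘ z ::ₘ ms γ) := rfl
    rw [this, Multiset.cons_swap z x, Multiset.cons_swap z y]
  rw [h1]
  apply int_N2_le ν hxy
  intro S hS
  apply hk
  rw [Multiset.card_cons, Multiset.card_cons]
  omega

end

section
variable {n : ℕ} {L : ℝ} [Fact (0 < L)]

theorem Kp_mono {F G : Multiset (Tor n L) → ℂ} (c : ℝ≥0∞) (hc : c ≠ ⊤)
    (h : ∀ x y, dE volume G x y ≤ c * dE volume F x y) : Kp G ≤ c * Kp F := by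
  unfold Kp
  rw [Finset.mul_sum]
  apply Finset.sum_le_sum
  intro i _
  rw [ENNReal.mul_iSup]
  apply iSup_mono
  intro k
  calc 4 ^ k * ∫⁻ x, dE volume G (x + ec L i ((2 : ℝ)⁻¹ ^ k)) x
      ≤ 4 ^ k * ∫⁻ x, c * dE volume F (x + ec L i ((2 : ℝ)⁻¹ ^ k)) x := by
        gcongr with x
        exact h _ _
    _ = c * (4 ^ k * ∫⁻ x, dE volume F (x + ec L i ((2 : ℝ)⁻¹ ^ k)) x) := by
        rw [lintegral_const_mul' _ _ hc]; ring

theorem Hp_mono (K : (Fin n → ℝ) → ℝ≥0∞) {F G : Multiset (Tor n L) → ℂ} (c : ℝ≥0∞) (hc : c ≠ ⊤)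
    (h : ∀ x y, dE volume G x y ≤ c * dE volume F x y) : Hp K G ≤ c * Hp K F := by
  unfold Hp
  calc 2⁻¹ * ∫⁻ z, K z * ∫⁻ x, dE volume G (x + pr L z) x
      ≤ 2⁻¹ * ∫⁻ z, K z * ∫⁻ x, c * dE volume F (x + pr L z) x := by
        gcongr with z x
        exact h _ _
    _ = 2⁻¹ * ∫⁻ z, c * (K z * ∫⁻ x, dE volume F (x + pr L z) x) := by
        congr 1
        apply lintegral_congr
        intro z
        rw [lintegral_const_mul' _ _ hc]; ring
    _ = c * (2⁻¹ * ∫⁻ z, K z * ∫⁻ x, dE volume F (x + pr L z) x) := by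
        rw [lintegral_const_mul' _ _ hc]; ring

theorem Vp_mono (v : ℝ → ℝ≥0∞) {F G : Multiset (Tor n L) → ℂ} (c : ℝ≥0∞) (hc : c ≠ ⊤)
    (h : ∀ x y, nE volume (an y (an x G)) ≤ c * nE volume (an y (an x F))) :
    Vp v G ≤ c * Vp v F := by
  unfold Vp
  calc 2⁻¹ * ∫⁻ x, ∫⁻ y, v (tdist x y) * nE volume (an y (an x G))
      ≤ 2⁻¹ * ∫⁻ x, ∫⁻ y, c * (v (tdist x y) * nE volume (an y (an x F))) := by
        refine mul_le_mul_right (lintegral_mono fun x => lintegral_mono fun y => ?_) _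
        calc v (tdist x y) * nE volume (an y (an x G))
            ≤ v (tdist x y) * (c * nE volume (an y (an x F))) := by gcongr; exact h x y
          _ = c * (v (tdist x y) * nE volume (an y (an x F))) := by ring
    _ = 2⁻¹ * ∫⁻ x, c * ∫⁻ y, (v (tdist x y) * nE volume (an y (an x F))) := by
        congr 1
        apply lintegral_congr
        intro x
        rw [lintegral_const_mul' _ _ hc]
    _ = c * (2⁻¹ * ∫⁻ x, ∫⁻ y, v (tdist x y) * nE volume (an y (an x F))) := by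
        rw [lintegral_const_mul' _ _ hc]; ring

theorem en_mono (μ : ℝ≥0∞) (K : (Fin n → ℝ) → ℝ≥0∞) (v : ℝ → ℝ≥0∞)
    {F G : Multiset (Tor n L) → ℂ} (c : ℝ≥0∞) (hc : c ≠ ⊤)
    (h : ∀ x y, dE volume G x y ≤ c * dE volume F x y)
    (h' : ∀ x y, nE volume (an y (an x G)) ≤ c * nE volume (an y (an x F))) :
    en μ K v G ≤ c * en μ K v F := by
  unfold en ken
  calc μ * Kp G + Hp K G + Vp v G ≤ μ * (c * Kp F) + c * Hp K F + c * Vp v F := by
        gcongr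
        · exact Kp_mono c hc h
        · exact Hp_mono K c hc h
        · exact Vp_mono v c hc h'
    _ = c * (μ * Kp F + Hp K F + Vp v F) := by ring

end

end RemOne

set_option linter.unusedVariables false in
open RemOne in
theorem rem_one (hTF : S_TF) : S_REM := by
  intro n L _ μ K v _ _ k F hF hk
  refine ⟨GG volume F, GG_eb volume hF, ?_, nE_GG volume hF k hk,
    en_mono μ K v _ (by simp) (dE_GG volume hF k hk) (an_GG volume hF k hk)⟩
  intro S hS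
  have h0 : N2 volume F S = 0 := by
    unfold N2
    rw [← lintegral_zero]
    apply lintegral_congr
    intro z
    rw [hk _ (by rw [Multiset.card_cons]; omega)]
    simp
  unfold GG
  rw [h0]
  simp

end Pool.Agent.TH268.CC
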