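import Pool.Agent.W761.CB.Stms

/-!
# The canonical ensemble in the continuum: definitions and statements of the parts

Fixed number `N` of particles.  The lower bound of the energy of a vector of the Fock space is
`e ‖F‖² - C ⟨(N - n)_+⟩`, where `n` is the number of particles, and the measurements are chosen such
that they do not disturb the number of particles very much (second moment).
-/

set_option autoImplicit false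

open MeasureTheory
open scoped ENNReal

namespace Pool.Agent.TH268.CC

open Pool.Agent.W761.CB

noncomputable section

section
variable {X : Type} [MeasurableSpace X] (ν : Measure X)

/-- the second moment `‖(t - n) F‖²` of the number of particles `n` -/
def m2 (t : ℝ) (F : Multiset X → ℂ) : ℝ≥0∞ :=
  ∫⁻ γ, ENNReal.ofReal ((t - Multiset.card (ms γ)) ^ 2) * ‖F (ms γ)‖ₑ ^ 2 ∂(lam ν)

/-- the expectation of the number `(N - n)_+` of missing particles -/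
def dm (N : ℕ) (F : Multiset X → ℂ) : ℝ≥0∞ :=
  ∫⁻ γ, ((N - Multiset.card (ms γ) : ℕ) : ℝ≥0∞) * ‖F (ms γ)‖ₑ ^ 2 ∂(lam ν)

end

/-- the measurement, with a bound of the second moment of the number of particles -/
def S_MOM : Prop := ∀ (X : Type) [MeasurableSpace X] (ν : Measure X) [IsFiniteMeasure ν]
    (I : Type) [Fintype I] (u : I → X → ℝ) (ω M : ℝ), 0 < ω →
  (∀ i, Measurable (u i)) → (∀ i x, 0 ≤ u i x) → (∀ x, ∑ i, u i x = 1) →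
  (∀ i, ∫ x, u i x ∂ν = M) →
  ∃ (A : Type) (_ : Countable A) (L : A → (Multiset X → ℂ) → Multiset X → ℂ) (c : A → I → ℂ),
    IsIns ν u ω M L c ∧ ∃ κ : ℝ, 0 ≤ κ ∧ ∀ F, EB F → ∀ t : ℝ, 0 ≤ t →
      ∑' α, m2 ν (t + κ) (L α F) ≤ m2 ν t F + ENNReal.ofReal (4 * ω * M) * nuE ν F +
        ENNReal.ofReal (7 * ω ^ 2 * (ν Set.univ).toReal ^ 2 + ω * (ν Set.univ).toReal) * nE ν F

/-- one more particle -/
def S_ADD : Prop := ∀ (n : ℕ) (L v₁ : ℝ) [Fact (0 < L)] (μ : ℝ≥0∞) (K : (Fin n → ℝ) → ℝ≥0∞)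
    (v : ℝ → ℝ≥0∞), Measurable K → Measurable v → 0 ≤ v₁ →
  ∫⁻ z : Fin n → ℝ, v (el z) ≤ ENNReal.ofReal v₁ →
  ∀ F : Multiset (Tor n L) → ℂ, EB F → ∃ G : Multiset (Tor n L) → ℂ, EB G ∧
    (∀ k : ℕ, (∀ S, Multiset.card S ≠ k → F S = 0) → ∀ S, Multiset.card S ≠ k + 1 → G S = 0) ∧
    nE volume G = nE volume F ∧
    en μ K v G ≤ en μ K v F + ENNReal.ofReal (v₁ / L ^ n) * nuE volume F

/-- one particle less -/
def S_REM : Prop := ∀ (n : ℕ) (L : ℝ) [Fact (0 < L)] (μ : ℝ≥0∞) (K : (Fin n → ℝ) → ℝ≥0∞)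
    (v : ℝ → ℝ≥0∞), Measurable K → Measurable v →
  ∀ (k : ℕ) (F : Multiset (Tor n L) → ℂ), EB F → (∀ S, Multiset.card S ≠ k + 1 → F S = 0) →
  ∃ G : Multiset (Tor n L) → ℂ, EB G ∧ (∀ S, Multiset.card S ≠ k → G S = 0) ∧
    nE volume G = ((k + 1 : ℕ) : ℝ≥0∞) * nE volume F ∧
    en μ K v G ≤ ((k + 1 : ℕ) : ℝ≥0∞) * en μ K v F

/-- from wave functions to Fock space -/
def S_CONV2 : Prop := ∀ (n : ℕ) (L : ℝ) [Fact (0 < L)] (μ : ℝ≥0∞) (K : (Fin n → ℝ) → ℝ≥0∞)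
    (v : ℝ → ℝ≥0∞) (N : ℕ) (Ψ : (Fin N → Tor n L) → ℂ), Measurable K → Measurable v → IsWf Ψ →
  0 ≤ condN Ψ ∧ ∃ F : Multiset (Tor n L) → ℂ, EB F ∧ (∀ S, Multiset.card S ≠ N → F S = 0) ∧
    nE volume F = 1 ∧ nuE volume F = ENNReal.ofReal (N : ℝ) ∧ en μ K v F = enN μ K v Ψ ∧
    nE volume (ag volume (fun _ => 1) F) = ENNReal.ofReal (L ^ n * condN Ψ)

/-- the canonical lower bound of the energy in the Fock space -/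
def S_LOWC : Prop := ∀ (n : ℕ) (L v₁ : ℝ) [Fact (0 < L)] (μ : ℝ≥0∞) (K : (Fin n → ℝ) → ℝ≥0∞)
    (v : ℝ → ℝ≥0∞) (N : ℕ) (e : ℝ), Measurable K → Measurable v → 0 ≤ v₁ →
  ∫⁻ z : Fin n → ℝ, v (el z) ≤ ENNReal.ofReal v₁ →
  (∀ Ψ : (Fin N → Tor n L) → ℂ, IsWf Ψ → ENNReal.ofReal e ≤ enN μ K v Ψ) →
  ∀ F : Multiset (Tor n L) → ℂ, EB F → ENNReal.ofReal e * nE volume F ≤
    en μ K v F + ENNReal.ofReal (N * v₁ / L ^ n) * dm volume N F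

/-! ## The chain of scales -/

/-- existence of an ensemble with a bound of the second moment of the number of particles -/
def HasEns2 {X : Type} [MeasurableSpace X] (ν : Measure X) {I : Type} [Fintype I]
    (en : (Multiset X → ℂ) → ℝ≥0∞) (u : I → X → ℝ) (Nlo Nhi E R B : ℝ) (N : ℕ) (V : ℝ) : Prop :=
  ∃ (A : Type) (_ : Countable A) (Φ : A → Multiset X → ℂ) (c : A → I → ℂ) (t : ℝ),
    IsEns ν en u Nlo Nhi E R B Φ c ∧ (N : ℝ) ≤ t ∧ ∑' α, m2 ν t (Φ α) ≤ ENNReal.ofReal V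

/-- the disturbance of the number of particles -/
def IsMom {X : Type} [MeasurableSpace X] (ν : Measure X) {A : Type}
    (L : A → (Multiset X → ℂ) → Multiset X → ℂ) (p q : ℝ) : Prop :=
  ∃ κ : ℝ, 0 ≤ κ ∧ ∀ F, EB F → ∀ t : ℝ, 0 ≤ t →
    ∑' α, m2 ν (t + κ) (L α F) ≤ m2 ν t F + ENNReal.ofReal p * nuE ν F +
      ENNReal.ofReal q * nE ν F

/-- one step of the chain -/
def S_STEP2 : Prop := ∀ (X : Type) [MeasurableSpace X] (ν : Measure X) [IsFiniteMeasure ν]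
    (I I' : Type) [Fintype I] [Fintype I'] (en : (Multiset X → ℂ) → ℝ≥0∞)
    (u : I → X → ℝ) (u' : I' → X → ℝ) (h : I' → I → ℝ)
    (ω M M' g a b p q e Ca N Nhi E R' B' V : ℝ) (N₀ : ℕ) (A : Type) [Countable A]
    (L : A → (Multiset X → ℂ) → Multiset X → ℂ) (c : A → I → ℂ),
  (∀ i, Measurable (u i)) → (∀ i x, 0 ≤ u i x) → (∀ x, ∑ i, u i x = 1) →
  (∀ i, ∫ x, u i x ∂ν = M) →
  (∀ i', Measurable (u' i')) → (∀ i' x, 0 ≤ u' i' x) → (∀ i' x, u' i' x ≤ 1) →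
  (∀ i', ∫ x, u' i' x ∂ν = M') →
  (∀ i' x, u' i' x = ∑ i, h i' i * u i x) → (∀ i' i, 0 ≤ h i' i) → (∀ i, ∑ i', h i' i = 1) →
  0 < ω → 0 < g → 0 ≤ a → 0 ≤ b → 0 ≤ p → 0 ≤ q → 0 ≤ e → 0 ≤ Ca → 0 ≤ N → 0 ≤ Nhi → 0 ≤ E →
  0 ≤ R' → 0 ≤ B' → 0 ≤ V →
  (∀ F, EB F → en (absv F) + ENNReal.ofReal g * ∑ i', nE ν (ag ν (u' i') (absv F)) ≤
    en F + ENNReal.ofReal g * ∑ i', nE ν (ag ν (u' i') F)) →
  (∀ F, EB F → ENNReal.ofReal e * nE ν F ≤ en F + ENNReal.ofReal Ca * dm ν N₀ F) →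
  IsIns ν u ω M L c → IsMom ν L p q →
  (∀ F, EB F → ∑' α, en (L α F) ≤
    en F + ENNReal.ofReal a * nuE ν F + ENNReal.ofReal b * nE ν F) →
  HasEns2 ν en u' N Nhi E R' B' N₀ V →
  HasEns2 ν en u N (Nhi + ω * (ν Set.univ).toReal) (E + a * Nhi + b) (1 / ω + M ^ 2 * ω)
    (B' + Fintype.card I' * √(R' + ω * M' ^ 2) + Fintype.card I * √(1 / ω + M ^ 2 * ω) +
      √(Fintype.card I' * (E + a * Nhi + b + Ca * √(V + p * Nhi + q) - e) / g)) N₀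
    (V + p * Nhi + q)

/-- the first measurement -/
def S_BASE2 : Prop := ∀ (X : Type) [MeasurableSpace X] (ν : Measure X) [IsFiniteMeasure ν]
    (I : Type) [Fintype I] (en : (Multiset X → ℂ) → ℝ≥0∞) (u : I → X → ℝ)
    (ω a b p q E Q : ℝ) (N : ℕ) (A : Type) [Countable A]
    (L : A → (Multiset X → ℂ) → Multiset X → ℂ) (c : A → I → ℂ) (ψ : Multiset X → ℂ),
  Fintype.card I = 1 → (∀ i x, u i x = 1) →
  0 < ω → 0 ≤ a → 0 ≤ b → 0 ≤ p → 0 ≤ q → 0 ≤ E → 0 ≤ Q →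
  EB ψ → (∀ S, Multiset.card S ≠ N → ψ S = 0) → nE ν ψ = 1 → nuE ν ψ = ENNReal.ofReal N →
  en ψ ≤ ENNReal.ofReal E → nE ν (ag ν (fun _ => 1) ψ) ≤ ENNReal.ofReal Q →
  IsIns ν u ω (ν Set.univ).toReal L c → IsMom ν L p q →
  (∀ F, EB F → ∑' α, en (L α F) ≤
    en F + ENNReal.ofReal a * nuE ν F + ENNReal.ofReal b * nE ν F) →
  HasEns2 ν en u N (N + ω * (ν Set.univ).toReal) (E + a * N + b)
    (1 / ω + (ν Set.univ).toReal ^ 2 * ω)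
    (√(Q + ω * (ν Set.univ).toReal ^ 2) + √(1 / ω + (ν Set.univ).toReal ^ 2 * ω)) N
    (p * N + q)

/-- the parameters -/
def S_PAR2 : Prop := ∀ (n : ℕ) (m σ g CP CA b₀ c τ v₁ : ℝ), 1 ≤ n → 0 < m → m < n →
  0 < σ → σ < n → g + 1 < 2 * n / m → 0 < CP → 0 < CA → 1 ≤ b₀ → 0 < c → 0 < τ → 0 < v₁ →
  ∃ lam mu r q : ℝ, 0 < lam ∧ lam ≤ mu ∧ mu < 1 ∧ 0 ≤ r ∧ mu = r ^ 2 ∧
    lam * ((2 : ℝ) ^ n) ^ 2 * mu = 1 ∧ (2 : ℝ) ^ σ * lam ≤ mu ∧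
    lam * (2 : ℝ) ^ n = (2 : ℝ) ^ (-σ) ∧ q = (2 : ℝ) ^ (-σ / 4) ∧
  ∃ lam0 δ₀ c₁ η4 : ℝ, 0 < lam0 ∧ lam0 ≤ 1 ∧ 0 < δ₀ ∧ 0 < c₁ ∧ 0 < η4 ∧
    ∀ δ : ℝ, 0 < δ → δ ≤ δ₀ → δ ≤ 1 ∧ ∃ s : ℕ,
    ∀ ℓ : ℝ, lam0 * δ ^ (-(1 / m)) / 2 ≤ ℓ → ℓ ≤ lam0 * δ ^ (-(1 / m)) →
      b₀ ≤ ℓ / 2 ^ s ∧
      ∃ ω0 : ℝ, 0 < ω0 ∧ ω0 ≤ (1 - lam) * δ ∧
      ∀ ξ N1 A1 es H T a EV : ℝ, 0 ≤ a → 0 ≤ EV → EV ≤ v₁ * δ ^ 2 → T ≤ η4 * δ →
        ξ = 1 / (ω0 * (ℓ ^ n) ^ 2) → N1 = δ + ω0 / (1 - lam) →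
        A1 = (2 + √(7 / (1 - lam))) * v₁ * N1 + 25 * ω0 * v₁ + 64 * n / lam0 ^ 2 * (τ * δ) →
        es = ω0 * A1 / (1 - lam) →
        H = √(2 * (ξ + ω0)) + √(ξ + ω0) + √((2 : ℝ) ^ σ * es /
          (ℓ ^ n * (c * δ ^ (g + n / m) * (1 + 2 * √n) ^ (-(n + σ))))) →
        δ / 2 ≤ (CP * 2 ^ (n + m) * ℓ ^ m + 16 * (CA * (ℓ / 2 ^ s) ^ n)) * (EV + es) +
          12 * (ξ + ω0) + 7 * √(4 ^ n / (ℓ / 2 ^ s) ^ n) *
            (√a + H / (1 - r) + √T / (1 - q)) →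
        c₁ * δ ≤ a

end

end Pool.Agent.TH268.CC
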