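import Pool.Agent.W150.CB.Step1
import Pool.Agent.TH268.CC.Stm

/-!
# One step of the chain of scales, canonical ensemble
-/

set_option autoImplicit false
set_option linter.unusedSectionVars false

open MeasureTheory
open scoped ENNReal

namespace Pool.Agent.TH268.CC

open Pool.Agent.W761.CB Pool.Agent.W150.CB

lemma dm_absv {X : Type} [MeasurableSpace X] (ν : Measure X) (N : ℕ) (F : Multiset X → ℂ) :
    dm ν N (absv F) = dm ν N F := by
  unfold dm absv
  refine lintegral_congr fun γ => ?_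
  rw [← ofReal_norm, ← ofReal_norm, Complex.norm_real, norm_norm]

/-- Cauchy-Schwarz for the number of missing particles -/
lemma dm_le {X : Type} [MeasurableSpace X] (ν : Measure X) {N : ℕ} {t : ℝ} (ht : (N : ℝ) ≤ t)
    {F : Multiset X → ℂ} (hF : EB F) :
    dm ν N F ≤ (m2 ν t F) ^ (1 / 2 : ℝ) * (nE ν F) ^ (1 / 2 : ℝ) := by
  have hc : Measurable fun γ : Cf X => (Multiset.card (ms γ) : ℝ) := by
    have h1 := (Pool.Agent.W975.CB.proof_ms X).2.2.2.1 Unit (fun _ _ => (1 : ℝ)) measurable_const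
    have h2 := h1.comp (measurable_prodMk_left (x := ()) (β := Cf X))
    have h3 : (fun γ : Cf X => (Multiset.card (ms γ) : ℝ)) =
        (fun q : Unit × Cf X => ((ms q.2).map (fun _ : X => (1 : ℝ))).sum) ∘ Prod.mk () := by
      funext γ
      simp
    rw [h3]
    exact h2
  have hm : Measurable fun γ : Cf X => ENNReal.ofReal ((t - Multiset.card (ms γ)) ^ 2) *
      ‖F (ms γ)‖ₑ ^ 2 :=
    ((measurable_const.sub hc).pow_const 2).ennreal_ofReal.mul (hF.meas.enorm.pow_const 2)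
  have hm' : Measurable fun γ : Cf X => ‖F (ms γ)‖ₑ ^ 2 := hF.meas.enorm.pow_const 2
  have hpq : (2 : ℝ).HolderConjugate 2 := Real.HolderConjugate.two_two
  have h := ENNReal.lintegral_mul_le_Lp_mul_Lq (lam ν) hpq
    (f := fun γ => (ENNReal.ofReal ((t - Multiset.card (ms γ)) ^ 2) *
      ‖F (ms γ)‖ₑ ^ 2) ^ (1 / 2 : ℝ)) (g := fun γ => (‖F (ms γ)‖ₑ ^ 2) ^ (1 / 2 : ℝ))
    (hm.pow_const _).aemeasurable (hm'.pow_const _).aemeasurable
  have h2 : ∀ x : ℝ≥0∞, (x ^ (1 / 2 : ℝ)) ^ (2 : ℝ) = x := by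
    intro x
    rw [← ENNReal.rpow_mul]
    norm_num
  simp only [h2, Pi.mul_apply] at h
  refine le_trans ?_ h
  unfold dm
  refine lintegral_mono fun γ => ?_
  rw [ENNReal.mul_rpow_of_nonneg _ _ (by norm_num), mul_assoc, half_mul_half]
  gcongr
  rw [ofReal_half, Real.sqrt_sq_eq_abs, ← ENNReal.ofReal_natCast]
  refine ENNReal.ofReal_le_ofReal ?_
  rcases le_total (Multiset.card (ms γ)) N with h3 | h3
  · rw [Nat.cast_sub h3]
    exact (sub_le_sub_right ht _).trans (le_abs_self _)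
  · rw [Nat.sub_eq_zero_of_le h3, Nat.cast_zero]
    exact abs_nonneg _

theorem proof_step2 : S_STEP2 := by
  intro X _ ν _ I I' _ _ en u u' h ω M M' g a b p q e Ca N Nhi E R' B' V N₀ A _ L c
    hum hu0 hus hui hum' hu0' hu1' hui' hw hh hs hω hg ha hb hp hq he hCa hN hNhi hE hR' hB' hV hdia hlow
    hins hmom hen hold
  obtain ⟨A', hA', Φ', c', t, hE', ht, hV'⟩ := hold
  obtain ⟨κ, hκ, hmom⟩ := hmom
  have hu1 : ∀ i x, u i x ≤ 1 := fun i x => by
    rw [← hus x]
    exact Finset.single_le_sum (f := fun j => u j x) (fun j _ => hu0 j x) (Finset.mem_univ i)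
  have hbd' : ∀ i', ∃ C : ℝ, ∀ x, |u' i' x| ≤ C := fun i' =>
    ⟨1, fun x => by rw [abs_of_nonneg (hu0' i' x)]; exact hu1' i' x⟩
  have hEB : ∀ k : A' × A, EB (L k.2 (Φ' k.1)) := fun k => hins.eb _ (hE'.eb k.1) k.2
  -- norm
  have hnorm : ∑' k : A' × A, nE ν (L k.2 (Φ' k.1)) = 1 := by
    rw [ENNReal.tsum_prod (f := fun β α => nE ν (L α (Φ' β)))]
    rw [← hE'.norm]
    exact tsum_congr fun β => hins.norm _ (hE'.eb β)
  -- particle number
  have hnm : ∀ (F : Multiset X → ℂ), EB F → Measurable (fun x => nE ν (an x F)) := fun F hF =>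
    (ebc X ν F F hF hF).2.2.2.2.2.2.2.2.1
  have hnlo : ENNReal.ofReal N ≤ ∑' k : A' × A, nuE ν (L k.2 (Φ' k.1)) := by
    refine hE'.nlo.trans ?_
    rw [ENNReal.tsum_prod (f := fun β α => nuE ν (L α (Φ' β)))]
    refine ENNReal.tsum_le_tsum fun β => ?_
    unfold nuE
    rw [← lintegral_tsum fun α => (hnm _ (hins.eb _ (hE'.eb β) α)).aemeasurable]
    exact lintegral_mono fun x => hins.nlo _ (hE'.eb β) x
  have hnhi : ∑' k : A' × A, nuE ν (L k.2 (Φ' k.1)) ≤
      ENNReal.ofReal (Nhi + ω * (ν Set.univ).toReal) := by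
    rw [ENNReal.tsum_prod (f := fun β α => nuE ν (L α (Φ' β)))]
    have h1 : ∀ β, ∑' α, nuE ν (L α (Φ' β)) ≤
        nuE ν (Φ' β) + ENNReal.ofReal ω * ν Set.univ * nE ν (Φ' β) := by
      intro β
      unfold nuE
      rw [← lintegral_tsum fun α => (hnm _ (hins.eb _ (hE'.eb β) α)).aemeasurable]
      refine (lintegral_mono fun x => hins.nhi _ (hE'.eb β) x).trans ?_
      rw [lintegral_add_left (hnm _ (hE'.eb β)), lintegral_const]
      exact le_of_eq (by ring)
    refine (ENNReal.tsum_le_tsum h1).trans ?_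
    rw [ENNReal.tsum_add, ENNReal.tsum_mul_left, hE'.norm, mul_one,
      ENNReal.ofReal_add hNhi (mul_nonneg hω.le ENNReal.toReal_nonneg),
      ENNReal.ofReal_mul hω.le, ENNReal.ofReal_toReal (measure_ne_top ν _)]
    gcongr
    exact hE'.nhi
  -- energy
  have hen' : ∑' k : A' × A, en (L k.2 (Φ' k.1)) ≤ ENNReal.ofReal (E + a * Nhi + b) := by
    rw [ENNReal.tsum_prod (f := fun β α => en (L α (Φ' β)))]
    refine (ENNReal.tsum_le_tsum fun β => hen _ (hE'.eb β)).trans ?_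
    rw [ENNReal.tsum_add, ENNReal.tsum_add, ENNReal.tsum_mul_left, ENNReal.tsum_mul_left,
      hE'.norm, mul_one, ENNReal.ofReal_add (by positivity) hb,
      ENNReal.ofReal_add hE (by positivity), ENNReal.ofReal_mul ha]
    gcongr
    · exact hE'.energy
    · exact hE'.nhi
  -- amplitudes
  have hamp : ∀ i, ∑' k : A' × A, dev ν (u i) (c k.2 i) (L k.2 (Φ' k.1)) ≤
      ENNReal.ofReal (1 / ω + M ^ 2 * ω) := by
    intro i
    rw [ENNReal.tsum_prod (f := fun β α => dev ν (u i) (c α i) (L α (Φ' β)))]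
    refine (ENNReal.tsum_le_tsum fun β => hins.amp _ (hE'.eb β) i).trans ?_
    rw [ENNReal.tsum_mul_left, hE'.norm, mul_one]
  have hold' : ∀ i', ∑' k : A' × A, dev ν (u' i') (c' k.1 i') (L k.2 (Φ' k.1)) ≤
      ENNReal.ofReal (R' + ω * M' ^ 2) := by
    intro i'
    rw [ENNReal.tsum_prod (f := fun β α => dev ν (u' i') (c' β i') (L α (Φ' β)))]
    refine (ENNReal.tsum_le_tsum fun β => hins.old _ (hE'.eb β) (u' i') (c' β i') (hum' i')
      (hu0' i') ⟨1, hu1' i'⟩).trans ?_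
    rw [ENNReal.tsum_add, ENNReal.tsum_mul_left, hE'.norm, mul_one, hui',
      ENNReal.ofReal_add hR' (by positivity)]
    gcongr
    exact hE'.amp i'
  -- second moment of the number of particles
  have ht0 : 0 ≤ t := (Nat.cast_nonneg N₀).trans ht
  have hm2 : ∑' k : A' × A, m2 ν (t + κ) (L k.2 (Φ' k.1)) ≤ ENNReal.ofReal (V + p * Nhi + q) := by
    rw [ENNReal.tsum_prod (f := fun β α => m2 ν (t + κ) (L α (Φ' β)))]
    refine (ENNReal.tsum_le_tsum fun β => hmom _ (hE'.eb β) t ht0).trans ?_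
    rw [ENNReal.tsum_add, ENNReal.tsum_add, ENNReal.tsum_mul_left, ENNReal.tsum_mul_left,
      hE'.norm, mul_one, ENNReal.ofReal_add (by positivity) hq,
      ENNReal.ofReal_add hV (by positivity), ENNReal.ofReal_mul hp]
    gcongr
    exact hE'.nhi
  have hdm : ∑' k : A' × A, dm ν N₀ (L k.2 (Φ' k.1)) ≤
      ENNReal.ofReal (√(V + p * Nhi + q)) := by
    refine (ENNReal.tsum_le_tsum fun k =>
      dm_le ν (show (N₀ : ℝ) ≤ t + κ by linarith) (hEB k)).trans ?_
    refine (cs_tsum _ _).trans ?_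
    rw [hnorm, ENNReal.one_rpow, mul_one, ← ofReal_half]
    gcongr
  refine ⟨A' × A, inferInstance, fun k => L k.2 (Φ' k.1), fun k => c k.2, t + κ,
    ⟨hEB, hnorm, hnlo, hnhi, hen', hamp, ?_⟩, by linarith, hm2⟩
  -- the differences
  have hper : ∀ k : A' × A, ENNReal.ofReal e * nE ν (L k.2 (Φ' k.1)) +
      ENNReal.ofReal g * ∑ i', df ν (u' i') (L k.2 (Φ' k.1)) ≤
      en (L k.2 (Φ' k.1)) + ENNReal.ofReal Ca * dm ν N₀ (L k.2 (Φ' k.1)) := by
    intro k
    obtain ⟨F, hF⟩ : ∃ F, F = L k.2 (Φ' k.1) := ⟨_, rfl⟩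
    have hFE : EB F := hF ▸ hEB k
    rw [← hF]
    have h1 := hdia F hFE
    have h2 := hlow (absv F) (ebc X ν F F hFE hFE).2.1
    rw [dm_absv, nE_absv] at h2
    have h3 : ∑ i', nE ν (ag ν (u' i') (absv F)) =
        ∑ i', nE ν (ag ν (u' i') F) + ∑ i', df ν (u' i') F := by
      rw [← Finset.sum_add_distrib]
      exact Finset.sum_congr rfl fun i' _ => df_add F (hu0' i')
    have hZ : ENNReal.ofReal g * ∑ i', nE ν (ag ν (u' i') F) ≠ ⊤ := by
      refine ENNReal.mul_ne_top ENNReal.ofReal_ne_top (ENNReal.sum_ne_top.2 fun i' _ => ?_)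
      exact ((slam X ν).2.2.2.2.1 _ (ag_eb hFE (hum' i') (hbd' i'))).ne
    rw [← ENNReal.add_le_add_iff_right hZ]
    calc ENNReal.ofReal e * nE ν F + ENNReal.ofReal g * ∑ i', df ν (u' i') F +
          ENNReal.ofReal g * ∑ i', nE ν (ag ν (u' i') F)
        = ENNReal.ofReal e * nE ν F + ENNReal.ofReal g * ∑ i', nE ν (ag ν (u' i') (absv F)) := by
          rw [h3, mul_add]
          ring
      _ ≤ (en (absv F) + ENNReal.ofReal Ca * dm ν N₀ F) +
          ENNReal.ofReal g * ∑ i', nE ν (ag ν (u' i') (absv F)) := by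
          gcongr
      _ = (en (absv F) + ENNReal.ofReal g * ∑ i', nE ν (ag ν (u' i') (absv F))) +
          ENNReal.ofReal Ca * dm ν N₀ F := by ring
      _ ≤ (en F + ENNReal.ofReal g * ∑ i', nE ν (ag ν (u' i') F)) +
          ENNReal.ofReal Ca * dm ν N₀ F := by gcongr
      _ = _ := by ring
  obtain ⟨D, hD⟩ : ∃ D : ℝ≥0∞, D = ∑' k : A' × A, ∑ i', df ν (u' i') (L k.2 (Φ' k.1)) := ⟨_, rfl⟩
  have hDle : ENNReal.ofReal e + ENNReal.ofReal g * D ≤
      ENNReal.ofReal (E + a * Nhi + b + Ca * √(V + p * Nhi + q)) := by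
    have h1 := ENNReal.tsum_le_tsum hper
    rw [ENNReal.tsum_add, ENNReal.tsum_add, ENNReal.tsum_mul_left, ENNReal.tsum_mul_left,
      ENNReal.tsum_mul_left, hnorm, mul_one, ← hD] at h1
    rw [ENNReal.ofReal_add (by positivity) (by positivity), ENNReal.ofReal_mul hCa]
    refine h1.trans ?_
    gcongr
  have hDle2 : ENNReal.ofReal g * D ≤
      ENNReal.ofReal (E + a * Nhi + b + Ca * √(V + p * Nhi + q) - e) := by
    rw [ENNReal.ofReal_sub _ he]
    refine ENNReal.le_sub_of_add_le_left ENNReal.ofReal_ne_top hDle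
  have hDle3 : (Fintype.card I' : ℝ≥0∞) * D ≤
      ENNReal.ofReal (Fintype.card I' * (E + a * Nhi + b + Ca * √(V + p * Nhi + q) - e) / g) := by
    have h1 : (Fintype.card I' : ℝ≥0∞) * D =
        ENNReal.ofReal (Fintype.card I' / g) * (ENNReal.ofReal g * D) := by
      rw [← mul_assoc, ← ENNReal.ofReal_mul (by positivity), div_mul_cancel₀ _ hg.ne',
        ENNReal.ofReal_natCast]
    rw [h1]
    calc _ ≤ ENNReal.ofReal (Fintype.card I' / g) *
          ENNReal.ofReal (E + a * Nhi + b + Ca * √(V + p * Nhi + q) - e) := by gcongr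
      _ = _ := by
          rw [← ENNReal.ofReal_mul (by positivity)]
          congr 1
          ring
  -- the four sums
  have hT1 : ∑' k : A' × A, nE ν (L k.2 (Φ' k.1)) * ∑ i', ‖c' k.1 i'‖ₑ ≤ ENNReal.ofReal B' := by
    rw [ENNReal.tsum_prod (f := fun β α => nE ν (L α (Φ' β)) * ∑ i', ‖c' β i'‖ₑ)]
    simp only [ENNReal.tsum_mul_right]
    refine le_trans (le_of_eq ?_) hE'.coh
    exact tsum_congr fun β => by rw [hins.norm _ (hE'.eb β)]
  have hT2 : ∑' k : A' × A, ∑ i', (nE ν (L k.2 (Φ' k.1))) ^ (1 / 2 : ℝ) *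
      (dev ν (u' i') (c' k.1 i') (L k.2 (Φ' k.1))) ^ (1 / 2 : ℝ) ≤
      ENNReal.ofReal (Fintype.card I' * √(R' + ω * M' ^ 2)) := by
    rw [Summable.tsum_finsetSum fun i' _ => ENNReal.summable]
    calc _ ≤ ∑ i' : I', ENNReal.ofReal (√(R' + ω * M' ^ 2)) := by
          refine Finset.sum_le_sum fun i' _ => ?_
          refine (cs_tsum _ _).trans ?_
          rw [hnorm, ENNReal.one_rpow, one_mul, ← ofReal_half]
          gcongr
          exact hold' i'
      _ = _ := by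
          rw [Finset.sum_const, nsmul_eq_mul, ENNReal.ofReal_mul (Nat.cast_nonneg _),
            ENNReal.ofReal_natCast]
          rfl
  have hT4 : ∑' k : A' × A, ∑ i, (nE ν (L k.2 (Φ' k.1))) ^ (1 / 2 : ℝ) *
      (dev ν (u i) (c k.2 i) (L k.2 (Φ' k.1))) ^ (1 / 2 : ℝ) ≤
      ENNReal.ofReal (Fintype.card I * √(1 / ω + M ^ 2 * ω)) := by
    rw [Summable.tsum_finsetSum fun i _ => ENNReal.summable]
    calc _ ≤ ∑ i : I, ENNReal.ofReal (√(1 / ω + M ^ 2 * ω)) := by
          refine Finset.sum_le_sum fun i _ => ?_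
          refine (cs_tsum _ _).trans ?_
          rw [hnorm, ENNReal.one_rpow, one_mul, ← ofReal_half]
          gcongr
          exact hamp i
      _ = _ := by
          rw [Finset.sum_const, nsmul_eq_mul, ENNReal.ofReal_mul (Nat.cast_nonneg _),
            ENNReal.ofReal_natCast]
          rfl
  have hT3 : ∑' k : A' × A, ∑ i', (nE ν (L k.2 (Φ' k.1))) ^ (1 / 2 : ℝ) *
      (df ν (u' i') (L k.2 (Φ' k.1))) ^ (1 / 2 : ℝ) ≤
      ENNReal.ofReal (√(Fintype.card I' *
        (E + a * Nhi + b + Ca * √(V + p * Nhi + q) - e) / g)) := by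
    simp only [← tsum_fintype (L := SummationFilter.unconditional _)]
    rw [← ENNReal.tsum_prod (f := fun (k : A' × A) (i' : I') =>
      (nE ν (L k.2 (Φ' k.1))) ^ (1 / 2 : ℝ) * (df ν (u' i') (L k.2 (Φ' k.1))) ^ (1 / 2 : ℝ))]
    refine (cs_tsum (κ := (A' × A) × I') (fun q => nE ν (L q.1.2 (Φ' q.1.1)))
      (fun q => df ν (u' q.2) (L q.1.2 (Φ' q.1.1)))).trans ?_
    rw [ENNReal.tsum_prod (f := fun (k : A' × A) (i' : I') => nE ν (L k.2 (Φ' k.1))),
      ENNReal.tsum_prod (f := fun (k : A' × A) (i' : I') => df ν (u' i') (L k.2 (Φ' k.1)))]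
    simp only [tsum_fintype, Finset.sum_const, nsmul_eq_mul]
    rw [ENNReal.tsum_mul_left, hnorm, mul_one, ← hD,
      ← ENNReal.mul_rpow_of_nonneg _ _ (by norm_num), ← ofReal_half]
    gcongr
    exact hDle3
  refine (ENNReal.tsum_le_tsum fun k => main_one (ν := ν) (hEB k) hh hs hw hum hu0 hu1 hum' hu1'
    (c k.2) (c' k.1)).trans ?_
  rw [ENNReal.tsum_add, ENNReal.tsum_add, ENNReal.tsum_add]
  rw [ENNReal.ofReal_add (by positivity) (Real.sqrt_nonneg _),
    ENNReal.ofReal_add (by positivity) (by positivity),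
    ENNReal.ofReal_add hB' (by positivity)]
  calc _ ≤ ENNReal.ofReal B' + ENNReal.ofReal (Fintype.card I' * √(R' + ω * M' ^ 2)) +
      ENNReal.ofReal (√(Fintype.card I' *
        (E + a * Nhi + b + Ca * √(V + p * Nhi + q) - e) / g)) +
      ENNReal.ofReal (Fintype.card I * √(1 / ω + M ^ 2 * ω)) := by gcongr
    _ = _ := by ring

end Pool.Agent.TH268.CC
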