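import Pool.Agent.W761.CB.All
import Pool.Agent.TH268.CC.Main2
import Pool.Agent.TH268.CC.Step2
import Pool.Agent.TH268.CC.Base2
import Pool.Agent.TH268.CC.Conv2
import Pool.Agent.TH268.CC.Add
import Pool.Agent.TH268.CC.Rem
import Pool.Agent.TH268.CC.Lowc
import Pool.Agent.TH268.CC.Par
import Pool.Agent.TH268.CC.Mom

/-!
# The main theorem for the canonical ensemble
-/

set_option autoImplicit false

namespace Pool.Agent.TH268.CC

open Pool.Agent.W761.CB

/-- the main theorem for a fixed number of particles, general form -/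
theorem ccore_thm : S_CCORE := by
  have hMS := Pool.Agent.W975.CB.proof_ms
  have hLAM := Pool.Agent.W366.CB.proof_lam hMS
  have hAD := Pool.Agent.W338.CB.proof_ad hMS hLAM
  have hW1 := Pool.Agent.W991.CB.proof_w1
  have hW2 := Pool.Agent.W174.CB.main hAD hW1
  have hW3 := Pool.Agent.W803.CB.w3 hW1
  have hDER := Pool.Agent.W99.CB.der hW1 hW3
  have hMOM := mom hW1 hW2 hW3 hDER Pool.Agent.W803.CB.par
    Pool.Agent.W366.CB.proof_ibp Pool.Agent.W790.CB.proof_win
  have hTF := Pool.Agent.W135.CB.proof_tf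
  have hHAT := Pool.Agent.W19.CB.hat_proof hTF
  have hGK := Pool.Agent.W249.CB.gk hTF hHAT Pool.Agent.W249.CB.sup
  have hDIA := Pool.Agent.W427.CB.dia Pool.Agent.W880.CB.dia0 hTF
  have hDE := Pool.Agent.W741.CB.proof_de hTF
  have hFIB := Pool.Agent.W131.CB.fib
  have hPO2 := Pool.Agent.W880.CB.po2 hFIB
  have hCOH := Pool.Agent.W374.CB2.Coh.coh hTF hHAT hGK hPO2
  have hBLK := Pool.Agent.W374.CB2.Blk.blk hTF
  have hLA1 := Pool.Agent.W372.CB.main hTF hBLK
  have hLA := Pool.Agent.W571.CB.La.proof_la hTF hBLK hLA1 hFIB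
  have hTAIL := Pool.Agent.W571.CB.Tail.proof_tail hHAT hBLK
  have hCONV := conv2 hTF
  exact main2_of proof_step2 proof_base2 Pool.Agent.W762.CB.bot hMOM par2
    hHAT Pool.Agent.W816.CB.cb_ref (Pool.Agent.W816.CB.cb_sm hHAT) hGK hDIA hDE hTF hCOH hLA hTAIL
    hCONV (lowc hTF (add_one hTF) (rem_one hTF) hCONV)
    (Pool.Agent.W880.CB.trial hTF) Pool.Agent.W376.CB.trunc

end Pool.Agent.TH268.CC
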